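import Pool.Agent.H373.MN.H7

/-!
# Chains of `p`-subgroups
-/

set_option autoImplicit false
set_option linter.unusedSectionVars false
set_option linter.style.haveILetI false

open scoped BigOperators Classical

noncomputable section

namespace Pool.Agent.H373.MN

open Pool.Agent.H373.BU hiding Ind

open MonoidAlgebra hiding coeff_sum

section chains

variable {p : ℕ} {G : Type} [Group G] [Finite G]

/-- The chains `1 = P_0 < P_1 < ... < P_n` of `p`-subgroups of `G`, as sets of subgroups; `P_0` is the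
trivial group. -/
def pch (p : ℕ) (G : Type) [Group G] : Set (Set (Subgroup G)) :=
  {C | ⊥ ∈ C ∧ IsChain (· ≤ ·) C ∧ ∀ P ∈ C, IsPGroup p P}

theorem pch_max {C : Set (Subgroup G)} (h : C ∈ pch p G) : sSup C ∈ C := by
  obtain ⟨h1, h2, -⟩ := h
  have hfin : C.Finite := Set.toFinite C
  obtain ⟨M, hM⟩ := hfin.exists_maximal ⟨⊥, h1⟩
  have h3 : sSup C = M := by
    apply le_antisymm
    · refine sSup_le fun P hP => ?_
      rcases h2.total hP hM.1 with h4 | h4
      · exact h4
      · exact hM.2 hP h4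
    · exact le_sSup hM.1
  rw [h3]
  exact hM.1

theorem pch_prop {C : Set (Subgroup G)} (h : C ∈ pch p G) :
    C.Nonempty ∧ IsPGroup p (sSup C : Subgroup G) :=
  ⟨⟨⊥, h.1⟩, h.2.2 _ (pch_max h)⟩

theorem cs_bot (g : G) : cs g (⊥ : Subgroup G) = ⊥ := Subgroup.map_bot _

theorem pch_conj {C C' : Set (Subgroup G)} {g : G} (h : Cj g C C') (hC : C ∈ pch p G) :
    C' ∈ pch p G := by
  unfold Cj at h
  subst h
  refine ⟨⟨⊥, hC.1, cs_bot g⟩, ?_, ?_⟩
  · rintro _ ⟨P, hP, rfl⟩ _ ⟨Q, hQ, rfl⟩ hne
    rcases hC.2.1.total hP hQ with h1 | h1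
    · exact Or.inl (cs_le.mpr h1)
    · exact Or.inr (cs_le.mpr h1)
  · rintro _ ⟨P, hP, rfl⟩
    exact (hC.2.2 P hP).map _

theorem card_cs (g : G) (P : Subgroup G) : Nat.card (cs g P) = Nat.card P :=
  (Nat.card_congr (P.equivMapOfInjective _ (MulAut.conj g).injective).toEquiv).symm

theorem chain_fix {C : Set (Subgroup G)} (hC : IsChain (· ≤ ·) C) {P Q : Subgroup G}
    (hP : P ∈ C) (hQ : Q ∈ C) (h : Nat.card P = Nat.card Q) : P = Q := by
  rcases hC.total hP hQ with h1 | h1
  · exact Subgroup.eq_of_le_of_card_ge h1 h.ge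
  · exact (Subgroup.eq_of_le_of_card_ge h1 h.le).symm

theorem pch_NC {C : Set (Subgroup G)} (hC : C ∈ pch p G) {g : G} (h : Cj g C C) :
    g ∈ NC C := by
  rw [mem_NC]
  intro P hP
  exact chain_fix hC.2.1 (h.mem hP) hP (card_cs g P)

theorem pch_sInf {C : Set (Subgroup G)} (hC : C ∈ pch p G) : sInf C = ⊥ :=
  le_antisymm (sInf_le hC.1) bot_le

/-- the projection is an isomorphism -/
def pkE {C : Set (Subgroup G)} (hC : sInf C = ⊥) : NC C ≃* KC C :=
  MulEquiv.ofBijective (pk C) ⟨by
    rw [injective_iff_map_eq_one]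
    intro n hn
    have h1 := pk_one.mp hn
    rw [hC, Subgroup.mem_bot] at h1
    exact Subtype.ext h1, pk_surj C⟩

theorem pkE_apply {C : Set (Subgroup G)} (hC : sInf C = ⊥) (n : NC C) : pkE hC n = pk C n := rfl

end chains

namespace Mon

variable {R X V G : Type} [CommRing R] [Group X] [Group V] [Group G] (I : Mon R X V G)

theorem map_le_iff {P Q : Subgroup G} : P.map I.j ≤ Q.map I.j ↔ P ≤ Q :=
  Subgroup.map_le_map_iff_of_injective I.j_inj

theorem jS_pch {p : ℕ} (C : Set (Subgroup G)) : I.jS C ∈ pch p X ↔ C ∈ pch p G := by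
  constructor
  · rintro ⟨⟨P, hP, hP'⟩, h2, h3⟩
    refine ⟨?_, ?_, ?_⟩
    · have h4 : P = ⊥ := by
        rw [← Subgroup.map_bot I.j] at hP'
        exact Subgroup.map_injective I.j_inj hP'
      rwa [← h4]
    · intro P hP Q hQ hne
      rcases h2.total ⟨P, hP, rfl⟩ ⟨Q, hQ, rfl⟩ with h4 | h4
      · exact Or.inl (I.map_le_iff.mp h4)
      · exact Or.inr (I.map_le_iff.mp h4)
    · intro P hP
      have h4 := (h3 _ ⟨P, hP, rfl⟩).comap_of_injective I.j I.j_inj
      rwa [Subgroup.comap_map_eq_self_of_injective I.j_inj] at h4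
  · rintro ⟨h1, h2, h3⟩
    refine ⟨⟨⊥, h1, Subgroup.map_bot _⟩, ?_, ?_⟩
    · rintro _ ⟨P, hP, rfl⟩ _ ⟨Q, hQ, rfl⟩ hne
      rcases h2.total hP hQ with h4 | h4
      · exact Or.inl (I.map_le_iff.mpr h4)
      · exact Or.inr (I.map_le_iff.mpr h4)
    · rintro _ ⟨P, hP, rfl⟩
      exact (h3 P hP).map I.j

theorem ncard_jS (C : Set (Subgroup G)) : (I.jS C).ncard = C.ncard :=
  Set.ncard_image_of_injective _ (Subgroup.map_injective I.j_inj)

end Mon

section kr

variable {k : Type} [Field k]

theorem kB_me {A B : Type} [Group A] [Group B] (f : A ≃* B) (e : MonoidAlgebra k A) :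
    kB (me k f e) = kB e := by
  unfold kB
  have hc : ∀ {A B : Type} [Group A] [Group B] (f : A ≃* B) {z : MonoidAlgebra k A},
      z ∈ Subalgebra.center k (MonoidAlgebra k A) →
        me k f z ∈ Subalgebra.center k (MonoidAlgebra k B) := by
    intro A B _ _ f z hz
    rw [Subalgebra.mem_center_iff] at hz ⊢
    intro b
    obtain ⟨a, rfl⟩ := (me k f).surjective b
    rw [← map_mul, hz, map_mul]
  have h1 : Submodule.map (LinearMap.mulRight k (me k f e))
      (Subalgebra.toSubmodule (Subalgebra.center k (MonoidAlgebra k B))) =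
      Submodule.map (me k f).toLinearMap (Submodule.map (LinearMap.mulRight k e)
        (Subalgebra.toSubmodule (Subalgebra.center k (MonoidAlgebra k A)))) := by
    apply le_antisymm
    · rintro _ ⟨w, hw, rfl⟩
      refine ⟨me k f.symm w * e, ⟨me k f.symm w, hc f.symm hw, rfl⟩, ?_⟩
      change me k f (me k f.symm w * e) = w * me k f e
      rw [map_mul, me_me_symm]
    · rintro _ ⟨_, ⟨w, hw, rfl⟩, rfl⟩
      refine ⟨me k f w, hc f hw, ?_⟩
      change me k f w * me k f e = me k f (w * e)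
      rw [map_mul]
  rw [h1]
  exact (LinearEquiv.finrank_eq (Submodule.equivMapOfInjective (me k f).toLinearMap
    (me k f).injective _)).symm

variable {G : Type} [Group G]

/-- The blocks of `k N_G(C)` which correspond to the block `b` of `kG` (i.e. which induce `b`): the
blocks `w` with `w Br_C(b) = w`. Here `Br_C` is the Brauer homomorphism of the largest subgroup in the
chain `C`. -/
def CB (C : Set (Subgroup G)) (b : MonoidAlgebra k G) : Set (MonoidAlgebra k (NC C)) :=
  {w | IsBlock w ∧ w * brc C b = w}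

/-- The number `k(B_C)` of irreducible characters in the blocks of `N_G(C)` which correspond to the
block `b`. -/
def kC (C : Set (Subgroup G)) (b : MonoidAlgebra k G) : ℕ := ∑ᶠ w : CB C b, kB (w : MonoidAlgebra k (NC C))

/-- The alternating sum of the numbers `k(B_C)` over the classes of the chains. -/
def krSum (p : ℕ) (b : MonoidAlgebra k G) : ℤ :=
  ∑ᶠ c : Quotient (cjs (pch p G)),
    (-1) ^ ((c.out : Set (Subgroup G)).ncard - 1) * (kC (c.out : Set (Subgroup G)) b : ℤ)

/-- the correspondence of the blocks -/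
def cbE {C : Set (Subgroup G)} (hC : sInf C = ⊥) (b : MonoidAlgebra k G) : CB C b ≃ SB C b where
  toFun w := ⟨me k (pkE hC) w, me_isBlock _ w.2.1, by
    have h := congrArg (me k (pkE hC)) w.2.2
    rw [map_mul] at h
    exact h⟩
  invFun w := ⟨me k (pkE hC).symm w, me_isBlock _ w.2.1, by
    have h := congrArg (me k (pkE hC).symm) w.2.2
    rw [map_mul] at h
    have h2 : me k (pkE hC).symm (bq C b) = brc C b := me_symm_me (pkE hC) (brc C b)
    rwa [h2] at h⟩
  left_inv w := Subtype.ext (me_symm_me _ _)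
  right_inv w := Subtype.ext (me_me_symm _ _)

theorem kC_eq {C : Set (Subgroup G)} (hC : sInf C = ⊥) (b : MonoidAlgebra k G) :
    kC C b = ∑ᶠ w : SB C b, kB (w : MonoidAlgebra k (KC C)) := by
  unfold kC
  refine finsum_eq_of_bijective (cbE hC b) (cbE hC b).bijective fun w => ?_
  exact (kB_me _ _).symm

theorem krSum_eq (p : ℕ) [Finite G] (b : MonoidAlgebra k G) :
    krSum p b = chSum (pch p G) b (fun C w => (-1) ^ (C.ncard - 1) * (kB w : ℤ)) := by
  unfold krSum chSum
  refine finsum_congr fun c => ?_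
  rw [kC_eq (pch_sInf c.out.2)]
  haveI := Fintype.ofFinite (SB (c.out : Set (Subgroup G)) b)
  rw [finsum_eq_sum_of_fintype, finsum_eq_sum_of_fintype, Nat.cast_sum, Finset.mul_sum]

end kr

namespace Mon

variable {p : ℕ} [hp : Fact p.Prime] {k X V G : Type} [Field k] [CharP k p] [Group X]
  [Group V] [Group G] [Fintype X] [Fintype V] [Finite G] (I : Mon k X V G)
  (hV : ¬ p ∣ Nat.card V) {u : k} (hu : u * (Fintype.card V : k) = 1)

include hV hu in
/-- the alternating sums agree -/
theorem krSum_cen {b : MonoidAlgebra k G} (hb : ∀ a, b * a = a * b) (hi : b * b = b) :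
    krSum p (I.cen u b) = krSum p b := by
  rw [krSum_eq, krSum_eq]
  refine I.chSum_transfer hV hu (fun C hC => pch_prop hC) (fun C hC => pch_prop hC)
    (fun C => I.jS_pch C) (fun x C C' h hC => pch_conj h hC) hb hi (fun C hC g h => pch_NC hC h)
    (fun C hC g h => pch_NC hC h) _ _ ?_ ?_ ?_
  · intro g C₁ C₂ h w _
    rw [kB_me]
    unfold Cj at h
    rw [← h, Set.ncard_image_of_injective]
    exact fun P Q hPQ => by
      rw [← cs_inv_cs g P, hPQ, cs_inv_cs]
  · intro g C₁ C₂ h w _
    rw [kB_me]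
    unfold Cj at h
    rw [← h, Set.ncard_image_of_injective]
    exact fun P Q hPQ => by
      rw [← cs_inv_cs g P, hPQ, cs_inv_cs]
  · intro C hC w hw
    rw [(I.lev C (pch_prop hC).1 (pch_prop hC).2 hV).kB_cen (I.u_V0 hV hu (pch_prop hC).2)
      hw.idem hw.central, I.ncard_jS]

end Mon

end Pool.Agent.H373.MN
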