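import Pool.Agent.H373.MN.D1

/-!
# The alternating sums of Knörr and Robinson for groups with three normal subgroups
-/

set_option autoImplicit false
set_option linter.unusedSectionVars false
set_option linter.style.haveILetI false

open scoped BigOperators Classical MatrixGroups

noncomputable section

namespace Pool.Agent.H373.MN

open Pool.Agent.H373.BU hiding Ind

open MonoidAlgebra hiding coeff_sum

/-- `O_p(G) = 1`: the group has no nontrivial normal `p`-subgroups. -/
def NoCore (p : ℕ) (G : Type) [Group G] : Prop :=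
  ∀ N : Subgroup G, N.Normal → IsPGroup p N → N = ⊥

/-- The block of `kG` with the idempotent `e` has a nontrivial defect group: `e` is not a relative
trace from the trivial subgroup. -/
def PosDefect {k G : Type} [Field k] [Group G] (e : MonoidAlgebra k G) : Prop :=
  ¬ IsTr (⊥ : Subgroup G) e

/-- Every block of `kG` is reproduced by a block of `kY`: a matrix ring over the given block algebra is
isomorphic to the new one, the defect groups are isomorphic, and the alternating sums over the classes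
of chains of `p`-subgroups of the numbers of characters are the same. -/
def ReproKR (p : ℕ) (k G Y : Type) [Field k] [Group G] [Group Y] : Prop :=
  ∀ B : Blk k G, ∃ B' : Blk k Y,
    (∃ r : ℕ, 0 < r ∧ Nonempty (Matrix (Fin r) (Fin r) B.Alg ≃+* B'.Alg)) ∧
    (∀ D : Subgroup G, B.IsDef p D → ∃ D' : Subgroup Y, B'.IsDef p D' ∧ Nonempty (D' ≃* D)) ∧
    (PosDefect B'.e ↔ PosDefect B.e) ∧ krSum p B'.e = krSum p B.e

/-- The alternating sums vanish for all blocks of `kG` with nontrivial defect groups. -/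
def KR (p : ℕ) (k G : Type) [Field k] [Group G] : Prop :=
  ∀ B : Blk k G, PosDefect B.e → krSum p B.e = 0

section main

variable {p : ℕ} [hp : Fact p.Prime] {k : Type} [Field k] [CharP k p]

theorem reproKR_of_mon {X V G : Type} [Group X] [Group V] [Group G] [Fintype X] [Fintype V]
    [Finite G] (I : Mon k X V G) (hV : ¬ p ∣ Nat.card V) : ReproKR p k G X := by
  rintro ⟨e, he⟩
  have hV0 : (Fintype.card V : k) ≠ 0 := by
    rw [← Nat.card_eq_fintype_card, Ne, CharP.cast_eq_zero_iff k p]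
    exact hV
  have hu : ((Fintype.card V : k)⁻¹) * (Fintype.card V : k) = 1 := inv_mul_cancel₀ hV0
  haveI : Nonempty I.Q := ⟨QuotientGroup.mk 1⟩
  refine ⟨⟨I.cen _ e, I.cen_isBlock hu he⟩, ⟨Fintype.card I.Q, Fintype.card_pos, ⟨?_⟩⟩, ?_,
    not_congr (I.isTr_cen_iff hu he), I.krSum_cen hV hu he.central he.idem⟩
  · exact ((Matrix.reindexAlgEquiv ℤ (BlockAlg he) (Fintype.equivFin I.Q).symm).toRingEquiv).trans
      (I.blockEquiv hu he)
  · rintro D ⟨hD, hD'⟩
    exact ⟨D.map I.j, ⟨hD.map I.j, I.cen_isMinTr hu he hD'⟩,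
      ⟨(D.equivMapOfInjective I.j I.j_inj).symm⟩⟩

theorem reproKR_XP [IsAlgClosed k] {q : ℕ} (h : Good p q) (G : Type) [Group G]
    [Finite G] {n : ℕ} (hn : Nat.card G ^ 2 + 3 * Nat.card G ≤ n) : ReproKR p k G (XP n q) := by
  haveI : Fact q.Prime := ⟨h.prime⟩
  obtain ⟨V, _, _, I, hV⟩ := exists_monK (k := k) h G hn
  haveI := Fintype.ofFinite (XP n q)
  haveI := Fintype.ofFinite V
  exact reproKR_of_mon I hV

omit hp in
theorem noCore_XP {q : ℕ} [hp : Fact p.Prime] (h : Good p q) {n : ℕ} (hn : 5 ≤ n) :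
    NoCore p (XP n q) := by
  haveI : Fact q.Prime := ⟨h.prime⟩
  haveI := simple_psl h.lt
  haveI := faithful_arc hn
  intro N hN hpN
  by_contra hne
  have h1 := (normal_wr (Ω := Arc n) (H := alternatingGroup (Fin n)) (not_solvable_psl h.lt)
    (dvd_psl h.dvd) N hN hne).2
  apply h1
  haveI : Finite N := Subtype.finite
  exact @IsNilpotent.to_isSolvable _ _ hpN.isNilpotent

end main

end Pool.Agent.H373.MN

open Pool.Agent.H373.BU Pool.Agent.H373.MN in
theorem Pool.Agent.H373.MN.kr_three (p : ℕ) [hp : Fact p.Prime] :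
    (∀ N : ℕ, ∃ q, N < q ∧ Good p q) ∧
    ∀ q, Good p q →
      (∀ n, 5 ≤ n → ThreeNormal p q n (XP n q) ∧ IsPrimitiveGroup (XP n q) ∧
        NoCore p (XP n q)) ∧
      ∀ (k : Type) [Field k] [IsAlgClosed k] [CharP k p],
        (∀ (G : Type) [Group G] [Finite G] (n : ℕ), Nat.card G ^ 2 + 3 * Nat.card G ≤ n →
          ReproKR p k G (XP n q)) ∧
        (∀ S : Set ℕ, S.Infinite →
          ((∀ (G : Type) [Group G] [Finite G], NoCore p G → KR p k G) ↔
            ∀ n ∈ S, 5 ≤ n → KR p k (XP n q))) ∧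
        ((∀ (G : Type) [Group G] [Finite G], NoCore p G → KR p k G) ↔
          ∀ (X : Type) [Group X] [Finite X], PrimitiveThree X → NoCore p X → KR p k X) ∧
        ∀ R : ℤ → Prop,
          (∀ (G : Type) [Group G] [Finite G], NoCore p G → ∀ B : Blk k G, PosDefect B.e →
            R (krSum p B.e)) ↔
          ∀ (X : Type) [Group X] [Finite X], PrimitiveThree X → NoCore p X →
            ∀ B : Blk k X, PosDefect B.e → R (krSum p B.e) := by
  refine ⟨exists_good p, fun q h => ⟨fun n hn => ⟨threeNormal_XP h hn, primitive_XP h hn,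
    noCore_XP h hn⟩, ?_⟩⟩
  intro k _ _ _
  haveI : NeZero q := ⟨h.prime.ne_zero⟩
  have key : ∀ R : ℤ → Prop, ∀ S : Set ℕ, S.Infinite →
      (∀ n ∈ S, 5 ≤ n → ∀ B : Blk k (XP n q), PosDefect B.e → R (krSum p B.e)) →
        ∀ (G : Type) [Group G] [Finite G] (B : Blk k G), PosDefect B.e → R (krSum p B.e) := by
    intro R S hS h1 G _ _ B hB
    obtain ⟨n, hnS, hn⟩ := hS.exists_gt (Nat.card G ^ 2 + 3 * Nat.card G + 5)
    obtain ⟨B', -, -, h2, h3⟩ := reproKR_XP (k := k) h G (n := n) (by omega) B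
    rw [← h3]
    exact h1 n hnS (by omega) B' (h2.mpr hB)
  refine ⟨fun G _ _ n hn => reproKR_XP h G hn, fun S hS => ⟨?_, ?_⟩, ⟨?_, ?_⟩, ?_⟩
  · exact fun h1 n _ hn => h1 (XP n q) (noCore_XP h hn)
  · exact fun h1 G _ _ _ => key (fun z => z = 0) S hS h1 G
  · exact fun h1 X _ _ _ => h1 X
  · exact fun h1 G _ _ _ => key (fun z => z = 0) _ infinite_five
      (fun n hn _ => h1 (XP n q) (primitiveThree_XP h hn) (noCore_XP h hn)) G
  · refine fun R => ⟨fun h1 X _ _ _ => h1 X, fun h1 G _ _ _ => ?_⟩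
    exact key R _ infinite_five
      (fun n hn _ => h1 (XP n q) (primitiveThree_XP h hn) (noCore_XP h hn)) G
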