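import Pool.Agent.H373.MN.D3a

/-!
# Dade's alternating sums: the numbers of characters of a given defect
-/

set_option autoImplicit false
set_option linter.unusedSectionVars false
set_option linter.style.haveILetI false

open scoped BigOperators Classical

noncomputable section

namespace Pool.Agent.H373.MN

open Pool.Agent.H373.BU hiding Ind

open MonoidAlgebra hiding coeff_sum

open IsLocalRing

section me

theorem blk_eq {R G : Type} [CommRing R] [Group G] {e f : MonoidAlgebra R G} (he : IsBlock e)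
    (hf : IsBlock f) (h : e * f ≠ 0) : e = f := by
  have h1 : e * f = f := (hf.primitive e he.idem he.central).resolve_left h
  have h2 : f * e = e := (he.primitive f hf.idem hf.central).resolve_left (by
    rw [hf.central]
    exact h)
  rw [← h2, hf.central, h1]

theorem red_me {R S A B : Type} [CommRing R] [CommRing S] [Group A] [Group B] (r : R →+* S)
    (f : A ≃* B) (a : MonoidAlgebra R A) : red r (me R f a) = me S f (red r a) := by
  induction a using MonoidAlgebra.induction_linear with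
  | zero => simp
  | add a b ha hb => rw [map_add, map_add, map_add, map_add, ha, hb]
  | single x c =>
    rw [me_single, MonoidAlgebra.mapRingHom_single, MonoidAlgebra.mapRingHom_single, me_single]

theorem dg_me {Ω A B : Type} [Field Ω] [Group A] [Group B] (f : A ≃* B) (ε : MonoidAlgebra Ω A) :
    dg (me Ω f ε) = dg ε := by
  unfold dg
  have h1 : LinearMap.range (LinearMap.mulRight Ω (me Ω f ε)) =
      Submodule.map (me Ω f).toLinearMap (LinearMap.range (LinearMap.mulRight Ω ε)) := by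
    apply le_antisymm
    · rintro _ ⟨w, rfl⟩
      obtain ⟨v, rfl⟩ := (me Ω f).surjective w
      refine ⟨v * ε, ⟨v, rfl⟩, ?_⟩
      change me Ω f (v * ε) = me Ω f v * me Ω f ε
      rw [map_mul]
    · rintro _ ⟨_, ⟨w, rfl⟩, rfl⟩
      refine ⟨me Ω f w, ?_⟩
      change me Ω f w * me Ω f ε = me Ω f (w * ε)
      rw [map_mul]
  rw [h1]
  exact (LinearEquiv.finrank_eq (Submodule.equivMapOfInjective (me Ω f).toLinearMap
    (me Ω f).injective _)).symm

end me

section defs

variable {L : Type} [CommRing L] [IsLocalRing L] {Ω : Type} [Field Ω]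

/-- The irreducible characters of defect `d` in the block `w`. -/
def IrD (p : ℕ) (s : L →+* Ω) (d : ℕ) {K : Type} [Group K]
    (w : MonoidAlgebra (ResidueField L) K) : Set (MonoidAlgebra Ω K) :=
  {ε | (∃ f : MonoidAlgebra L K, IsBlock f ∧ red (rs L) f = w ∧ ε ∈ Ir s f) ∧ HasDef p d ε}

theorem mem_IrD_me {p : ℕ} {s : L →+* Ω} {d : ℕ} {A B : Type} [Group A] [Group B] (f : A ≃* B)
    {w : MonoidAlgebra (ResidueField L) A} {ε : MonoidAlgebra Ω A} (h : ε ∈ IrD p s d w) :
    me Ω f ε ∈ IrD p s d (me _ f w) := by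
  obtain ⟨⟨b, hb, hw, hε⟩, hd⟩ := h
  refine ⟨⟨me L f b, me_isBlock f hb, by rw [red_me, hw], me_isBlock f hε.1, ?_⟩, ?_⟩
  · rw [red_me, ← map_mul, hε.2]
  · unfold HasDef at hd ⊢
    rw [dg_me, ← Nat.card_congr f.toEquiv]
    exact hd

theorem card_IrD_me {p : ℕ} {s : L →+* Ω} {d : ℕ} {A B : Type} [Group A] [Group B] (f : A ≃* B)
    (w : MonoidAlgebra (ResidueField L) A) :
    Nat.card (IrD p s d (me _ f w)) = Nat.card (IrD p s d w) := by
  symm
  refine Nat.card_congr
    { toFun := fun ε => ⟨me Ω f ε, mem_IrD_me f ε.2⟩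
      invFun := fun ε => ⟨me Ω f.symm ε, by
        have := mem_IrD_me f.symm ε.2
        rwa [me_symm_me] at this⟩
      left_inv := fun ε => Subtype.ext (me_symm_me f _)
      right_inv := fun ε => Subtype.ext (me_me_symm f _) }

end defs

namespace Mon

section one

variable {L : Type} [CommRing L] [IsDomain L] [IsLocalRing L] {p : ℕ} [hp : Fact p.Prime]
  {Ω : Type} [Field Ω] {X V G : Type} [Group X] [Group V] [Group G]
  [Fintype X] [Fintype V] [Finite G] (I : Mon L X V G) {u : L}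
  (hu : u * (Fintype.card V : L) = 1) (s : L →+* Ω) (hs : Function.Injective s)
  (hV : ¬ p ∣ Nat.card V) (hlam : ∀ v, rs L (I.lam v : L) = 1 → I.lam v = 1)

include hu hV in
theorem hasDef_cen {d : ℕ} {ε : MonoidAlgebra Ω G} (hε : ε * ε = ε) (h0 : ε ≠ 0) :
    HasDef p d ((I.om s hs).cen (s u) ε) ↔ HasDef p d ε := by
  have hu' := hu_om hu s
  have h1 : dg ε ≠ 0 := dg_pos h0
  haveI : Nonempty (I.om s hs).Q := ⟨QuotientGroup.mk 1⟩
  have h2 : Fintype.card (I.om s hs).Q ≠ 0 := Fintype.card_ne_zero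
  have h3 : Nat.card I.Q = Fintype.card (I.om s hs).Q := Nat.card_eq_fintype_card
  have h4 : Nat.card V ≠ 0 := Nat.card_pos.ne'
  have h5 : Nat.card G ≠ 0 := Nat.card_pos.ne'
  have h6 : Nat.card X = Nat.card I.Q * (Nat.card V * Nat.card G) := by
    rw [← I.card_Y, mul_comm]
    exact (I.Y.card_mul_index).symm
  unfold HasDef
  rw [(I.om s hs).dg_cen hu' hε, h6, h3, padicValNat.mul h2 (mul_ne_zero h2 h1),
    padicValNat.mul h2 h1, padicValNat.mul h2 (mul_ne_zero h4 h5), padicValNat.mul h4 h5,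
    padicValNat.eq_zero_of_not_dvd hV]
  constructor
  · intro h
    omega
  · intro h
    omega

include hu hV hs in
theorem mem_IrD_cen {d : ℕ} {w : MonoidAlgebra (ResidueField L) G} {ε : MonoidAlgebra Ω G}
    (h : ε ∈ IrD p s d w) :
    (I.om s hs).cen (s u) ε ∈ IrD p s d ((I.map (rs L) hlam).cen (rs L u) w) := by
  obtain ⟨⟨f, hf, hw, hε⟩, hd⟩ := h
  refine ⟨⟨I.cen u f, I.cen_isBlock hu hf, by rw [I.red_cen (rs L) hlam, hw],
    I.ir_cen hu s hs hε⟩, (I.hasDef_cen hu s hs hV hε.1.idem hε.1.ne_zero).mpr hd⟩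

include hu hV hs in
theorem IrD_cen_surj {d : ℕ} {w : MonoidAlgebra (ResidueField L) G} (hw : IsBlock w)
    {ε' : MonoidAlgebra Ω X}
    (h : ε' ∈ IrD p s d ((I.map (rs L) hlam).cen (rs L u) w)) :
    ∃ ε ∈ IrD p s d w, (I.om s hs).cen (s u) ε = ε' := by
  obtain ⟨⟨f', hf', hw', hε'⟩, hd⟩ := h
  have hu1 : rs L u * (Fintype.card V : ResidueField L) = 1 := by
    rw [← map_natCast (rs L), ← map_mul, hu, map_one]
  have h1 : f' * I.ep u ≠ 0 := by
    intro h0
    have h2 := congrArg (red (rs L)) h0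
    rw [map_mul, map_zero, hw', I.red_ep (rs L) hlam,
      (I.map (rs L) hlam).cen_ep hu1 hw.central] at h2
    exact hw.ne_zero ((I.map (rs L) hlam).ep_io_inj hu1 (by rw [h2, map_zero, mul_zero]))
  obtain ⟨f, hf, hff⟩ := I.exists_cor hu hf' h1
  rw [← hff] at hε' hw'
  obtain ⟨ε, hε, hεε⟩ := I.ir_surj hu s hs hε'
  refine ⟨ε, ⟨⟨f, hf, ?_, hε⟩, ?_⟩, hεε⟩
  · rw [I.red_cen (rs L) hlam] at hw'
    exact (I.map (rs L) hlam).cen_inj hu1 hw'
  · rw [← hεε] at hd
    exact (I.hasDef_cen hu s hs hV hε.1.idem hε.1.ne_zero).mp hd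

include hu hV hs in
theorem card_IrD_cen {d : ℕ} {w : MonoidAlgebra (ResidueField L) G} (hw : IsBlock w) :
    Nat.card (IrD p s d ((I.map (rs L) hlam).cen (rs L u) w)) = Nat.card (IrD p s d w) := by
  symm
  refine Nat.card_congr (Equiv.ofBijective
    (fun ε => ⟨(I.om s hs).cen (s u) ε, I.mem_IrD_cen hu s hs hV hlam ε.2⟩) ⟨?_, ?_⟩)
  · intro a b h
    exact Subtype.ext ((I.om s hs).cen_inj (hu_om hu s) (congrArg Subtype.val h))
  · rintro ⟨ε', h⟩
    obtain ⟨ε, hε, h1⟩ := I.IrD_cen_surj hu s hs hV hlam hw h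
    exact ⟨⟨ε, hε⟩, Subtype.ext h1⟩

end one

end Mon

end Pool.Agent.H373.MN
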