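import Pool.Agent.H373.MN.W5

/-!
# The `k(B)` conjecture and Broué's conjecture for groups with three normal subgroups
-/

set_option autoImplicit false
set_option linter.unusedSectionVars false
set_option linter.style.haveILetI false

open scoped BigOperators Classical MatrixGroups

noncomputable section

namespace Pool.Agent.H373.MN

open Pool.Agent.H373.BU hiding Ind

open MonoidAlgebra hiding coeff_sum

/-- `X` is isomorphic to a primitive permutation group, and it has exactly three normal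
subgroups. -/
def PrimitiveThree (X : Type) [Group X] : Prop :=
  IsPrimitiveGroup X ∧ Nat.card {N : Subgroup X // N.Normal} = 3

theorem primitiveThree_XP {p q : ℕ} (h : Good p q) {n : ℕ} (hn : 5 ≤ n) :
    PrimitiveThree (XP n q) :=
  ⟨primitive_XP h hn, (threeNormal_XP h hn).1⟩

theorem kB_three (p : ℕ) [hp : Fact p.Prime] :
    (∀ N : ℕ, ∃ q, N < q ∧ Good p q) ∧
    ∀ q, Good p q →
      (∀ n, 5 ≤ n → ThreeNormal p q n (XP n q) ∧ IsPrimitiveGroup (XP n q)) ∧
      ∀ (k : Type) [Field k] [IsAlgClosed k] [CharP k p],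
        (∀ (P : Type) [Group P] (m : ℕ) (G : Type) [Group G] [Finite G], Att k P m G →
          ∀ n, Nat.card G ^ 2 + 3 * Nat.card G ≤ n → Att k P m (XP n q)) ∧
        (∀ S : Set ℕ, S.Infinite →
          ((∀ (G : Type) [Group G] [Finite G], KB k G) ↔ ∀ n ∈ S, KB k (XP n q))) ∧
        ((∀ (G : Type) [Group G] [Finite G], KB k G) ↔
          ∀ (X : Type) [Group X] [Finite X], PrimitiveThree X → KB k X) := by
  refine ⟨exists_good p, fun q h => ⟨fun n hn => ⟨threeNormal_XP h hn, primitive_XP h hn⟩, ?_⟩⟩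
  intro k _ _ _
  haveI : NeZero q := ⟨h.prime.ne_zero⟩
  have key : ∀ S : Set ℕ, S.Infinite → (∀ n ∈ S, KB k (XP n q)) →
      ∀ (G : Type) [Group G] [Finite G], KB k G := by
    intro S hS h1 G _ _ e he D hD
    obtain ⟨n, hnS, hn⟩ := hS.exists_gt (Nat.card G ^ 2 + 3 * Nat.card G)
    obtain ⟨e', D', he', hD', ⟨f⟩, hm⟩ := att_XP h
      (⟨e, D, he, hD, ⟨MulEquiv.refl _⟩, rfl⟩ : Att k D (kB e) G) hn.le
    rw [← hm, ← Nat.card_congr f.toEquiv]
    exact h1 n hnS e' he' D' hD'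
  refine ⟨fun P _ m G _ _ hA n hn => att_XP h hA hn, fun S hS => ⟨?_, key S hS⟩, ?_, ?_⟩
  · exact fun h1 n _ => h1 (XP n q)
  · exact fun h1 X _ _ _ => h1 X
  · intro h1
    exact key {n | 5 ≤ n} (Set.infinite_of_not_bddAbove fun ⟨m, hm⟩ => by
      have := hm (show m + 5 ∈ {n | 5 ≤ n} from Nat.le_add_left _ _)
      omega) fun n hn => h1 (XP n q) (primitiveThree_XP h hn)

end Pool.Agent.H373.MN

open Pool.Agent.H373.BU Pool.Agent.H373.MN IsLocalRing in
theorem Pool.Agent.H373.MN.broue_three (p : ℕ) [hp : Fact p.Prime] :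
    (∀ N : ℕ, ∃ q, N < q ∧ Good p q) ∧
    ∀ q, Good p q →
      (∀ n, 5 ≤ n → ThreeNormal p q n (XP n q) ∧ IsPrimitiveGroup (XP n q)) ∧
      ∀ (L : Type) [CommRing L] [IsDomain L] [IsDiscreteValuationRing L]
        [IsAdicComplete (maximalIdeal L) L] [CharP (ResidueField L) p],
        (IsAlgClosed (ResidueField L) → ∃ ζ : L, IsPrimitiveRoot ζ ((q - 1) / 2)) ∧
        ((∃ ζ : L, IsPrimitiveRoot ζ ((q - 1) / 2)) →
          (∀ (G : Type) [Group G] [Finite G] (n : ℕ), Nat.card G ^ 2 + 3 * Nat.card G ≤ n →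
            Reproduces p L G (XP n q)) ∧
          (∀ S : Set ℕ, S.Infinite →
            ((∀ (G : Type) [Group G] [Finite G], Broue p L G) ↔ ∀ n ∈ S, Broue p L (XP n q))) ∧
          ((∀ (G : Type) [Group G] [Finite G], Broue p L G) ↔
            ∀ (X : Type) [Group X] [Finite X], PrimitiveThree X → Broue p L X)) := by
  refine ⟨exists_good p, fun q h => ⟨fun n hn => ⟨threeNormal_XP h hn, primitive_XP h hn⟩, ?_⟩⟩
  intro L _ _ _ _ _
  haveI : NeZero q := ⟨h.prime.ne_zero⟩
  refine ⟨fun _ => exists_root_L (p := p) h.ndvd.1, fun hζ => ?_⟩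
  have key : ∀ S : Set ℕ, S.Infinite → (∀ n ∈ S, Broue p L (XP n q)) →
      ∀ (G : Type) [Group G] [Finite G], Broue p L G := by
    intro S hS h1 G _ _
    obtain ⟨n, hnS, hn⟩ := hS.exists_gt (Nat.card G ^ 2 + 3 * Nat.card G)
    exact broue_of_step (h1 n hnS) (repro_XP h hζ G hn.le)
  refine ⟨fun G _ _ n hn => repro_XP h hζ G hn, fun S hS => ⟨?_, key S hS⟩, ?_, ?_⟩
  · exact fun h1 n _ => h1 (XP n q)
  · exact fun h1 X _ _ _ => h1 X
  · intro h1
    exact key {n | 5 ≤ n} (Set.infinite_of_not_bddAbove fun ⟨m, hm⟩ => by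
      have := hm (show m + 5 ∈ {n | 5 ≤ n} from Nat.le_add_left _ _)
      omega) fun n hn => h1 (XP n q) (primitiveThree_XP h hn)
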