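import Pool.Agent.H373.MN.H6
import Pool.Agent.H373.MN.W6

/-!
# Alperin's weight conjecture for groups with three normal subgroups
-/

set_option autoImplicit false
set_option linter.unusedSectionVars false
set_option linter.style.haveILetI false

open scoped BigOperators Classical MatrixGroups

noncomputable section

namespace Pool.Agent.H373.MN

open Pool.Agent.H373.BU hiding Ind

open MonoidAlgebra hiding coeff_sum

section main

variable {p : ℕ} [hp : Fact p.Prime] {k : Type} [Field k] [CharP k p]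

theorem repro_of_mon {X V G : Type} [Group X] [Group V] [Group G] [Fintype X] [Fintype V]
    [Finite G] (I : Mon k X V G) (hV : ¬ p ∣ Nat.card V) : Repro p k G X := by
  rintro ⟨e, he⟩
  have hV0 : (Fintype.card V : k) ≠ 0 := by
    rw [← Nat.card_eq_fintype_card, Ne, CharP.cast_eq_zero_iff k p]
    exact hV
  have hu : ((Fintype.card V : k)⁻¹) * (Fintype.card V : k) = 1 := inv_mul_cancel₀ hV0
  haveI : Nonempty I.Q := ⟨QuotientGroup.mk 1⟩
  refine ⟨⟨I.cen _ e, I.cen_isBlock hu he⟩, ⟨Fintype.card I.Q, Fintype.card_pos, ⟨?_⟩⟩, ?_,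
    I.nSimple_cen hu he, I.wts_cen hV hu he.central he.idem⟩
  · exact ((Matrix.reindexAlgEquiv ℤ (BlockAlg he) (Fintype.equivFin I.Q).symm).toRingEquiv).trans
      (I.blockEquiv hu he)
  · rintro D ⟨hD, hD'⟩
    exact ⟨D.map I.j, ⟨hD.map I.j, I.cen_isMinTr hu he hD'⟩,
      ⟨(D.equivMapOfInjective I.j I.j_inj).symm⟩⟩

/-- the data over an algebraically closed field -/
theorem exists_monK [IsAlgClosed k] {q : ℕ} (h : Good p q) (G : Type) [Group G] [Finite G]
    {n : ℕ} (hn : Nat.card G ^ 2 + 3 * Nat.card G ≤ n) :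
    ∃ (V : Type) (_ : Group V) (_ : Finite V) (_ : Mon k (XP n q) V G), ¬ p ∣ Nat.card V := by
  haveI : Fact q.Prime := ⟨h.prime⟩
  haveI := Fintype.ofFinite G
  have hk : ∀ m : ℕ, ¬ p ∣ m → (m : k) ≠ 0 := fun m hm => by
    rwa [Ne, CharP.cast_eq_zero_iff k p]
  obtain ⟨ζ, hζ⟩ := exists_root (p := p) k (hk _ h.ndvd.1)
  obtain ⟨C, hC⟩ := exists_col h hζ
  obtain ⟨S, ι, hS0, hι, hs, hS⟩ := Irr.exists_rel (H := G) (n := n) (by
    rwa [← Nat.card_eq_fintype_card])
  exact ⟨_, inferInstance, inferInstance, xMon C S hS0 ι hι hs hS, C.card_W _ hC⟩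

theorem repro_XPk [IsAlgClosed k] {q : ℕ} (h : Good p q) (G : Type) [Group G]
    [Finite G] {n : ℕ} (hn : Nat.card G ^ 2 + 3 * Nat.card G ≤ n) : Repro p k G (XP n q) := by
  haveI : Fact q.Prime := ⟨h.prime⟩
  obtain ⟨V, _, _, I, hV⟩ := exists_monK (k := k) h G hn
  haveI := Fintype.ofFinite (XP n q)
  haveI := Fintype.ofFinite V
  exact repro_of_mon I hV

end main

theorem infinite_five : {n : ℕ | 5 ≤ n}.Infinite :=
  Set.infinite_of_not_bddAbove fun ⟨m, hm⟩ => by
    have := hm (show m + 5 ∈ {n | 5 ≤ n} from Nat.le_add_left _ _)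
    omega

end Pool.Agent.H373.MN

open Pool.Agent.H373.BU Pool.Agent.H373.MN in
theorem Pool.Agent.H373.MN.awc_three (p : ℕ) [hp : Fact p.Prime] :
    (∀ N : ℕ, ∃ q, N < q ∧ Good p q) ∧
    ∀ q, Good p q →
      (∀ n, 5 ≤ n → ThreeNormal p q n (XP n q) ∧ IsPrimitiveGroup (XP n q)) ∧
      ∀ (k : Type) [Field k] [IsAlgClosed k] [CharP k p],
        (∀ (G : Type) [Group G] [Finite G] (n : ℕ), Nat.card G ^ 2 + 3 * Nat.card G ≤ n →
          Repro p k G (XP n q)) ∧
        (∀ S : Set ℕ, S.Infinite →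
          ((∀ (G : Type) [Group G] [Finite G], AWC p k G) ↔ ∀ n ∈ S, AWC p k (XP n q))) ∧
        ((∀ (G : Type) [Group G] [Finite G], AWC p k G) ↔
          ∀ (X : Type) [Group X] [Finite X], PrimitiveThree X → AWC p k X) ∧
        ∀ R : ℕ → ℕ → Prop, (∀ (G : Type) [Group G] [Finite G] (B : Blk k G), R B.l (B.w p)) ↔
          ∀ (X : Type) [Group X] [Finite X], PrimitiveThree X → ∀ B : Blk k X,
            R B.l (B.w p) := by
  refine ⟨exists_good p, fun q h => ⟨fun n hn => ⟨threeNormal_XP h hn, primitive_XP h hn⟩, ?_⟩⟩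
  intro k _ _ _
  haveI : NeZero q := ⟨h.prime.ne_zero⟩
  have key : ∀ R : ℕ → ℕ → Prop, ∀ S : Set ℕ, S.Infinite →
      (∀ n ∈ S, ∀ B : Blk k (XP n q), R B.l (B.w p)) →
        ∀ (G : Type) [Group G] [Finite G] (B : Blk k G), R B.l (B.w p) := by
    intro R S hS h1 G _ _ B
    obtain ⟨n, hnS, hn⟩ := hS.exists_gt (Nat.card G ^ 2 + 3 * Nat.card G)
    obtain ⟨B', -, -, h2, h3⟩ := repro_XPk (k := k) h G hn.le B
    rw [← h2, ← h3]
    exact h1 n hnS B'
  refine ⟨fun G _ _ n hn => repro_XPk h G hn, fun S hS => ⟨?_, key Eq S hS⟩, ⟨?_, ?_⟩, ?_⟩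
  · exact fun h1 n _ => h1 (XP n q)
  · exact fun h1 X _ _ _ => h1 X
  · exact fun h1 => key Eq _ infinite_five fun n hn => h1 (XP n q) (primitiveThree_XP h hn)
  · refine fun R => ⟨fun h1 X _ _ _ => h1 X, fun h1 => ?_⟩
    exact key R _ infinite_five fun n hn => h1 (XP n q) (primitiveThree_XP h hn)
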