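import Pool.Agent.H373.MN.K1
import Pool.Agent.H373.MN.H7

/-!
# The Alperin–McKay conjecture for groups with three normal subgroups
-/

set_option autoImplicit false
set_option linter.unusedSectionVars false
set_option linter.style.haveILetI false

open scoped BigOperators Classical MatrixGroups

noncomputable section

namespace Pool.Agent.H373.MN

open Pool.Agent.H373.BU hiding Ind

open MonoidAlgebra hiding coeff_sum

open IsLocalRing

section main

variable {L : Type} [CommRing L] [IsDomain L] [IsDiscreteValuationRing L]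
  [IsAdicComplete (maximalIdeal L) L] {p : ℕ} [hp : Fact p.Prime] [CharP (ResidueField L) p]

/-- the number of the irreducible characters of height zero of a block -/
def k0 {Ω G : Type} [Field Ω] [Group G] (s : L →+* Ω) (B : BlockData p L G) : ℕ :=
  Nat.card (B.HZ s)

/-- the number of the irreducible characters of height zero of the Brauer correspondent -/
def k0c {Ω G : Type} [Field Ω] [Group G] (s : L →+* Ω) (B : BlockData p L G) : ℕ :=
  Nat.card (B.HZc s)

/-- **The Alperin–McKay conjecture** for the block `B`. -/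
def AM {Ω G : Type} [Field Ω] [Group G] (s : L →+* Ω) (B : BlockData p L G) : Prop :=
  k0 s B = k0c s B

/-- The blocks of `ΛG` are reproduced by blocks of `ΛY`: block algebras up to matrix rings, defect
groups, irreducible characters with their heights, all this also for the Brauer correspondents; in
particular the numbers of characters of height zero are the same. -/
def ReproA {Ω : Type} [Field Ω] (p : ℕ) [Fact p.Prime] [CharP (ResidueField L) p] (s : L →+* Ω)
    (G Y : Type) [Group G] [Group Y] : Prop :=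
  ∀ B : BlockData p L G, ∃ B' : BlockData p L Y, Nonempty (B'.D ≃* B.D) ∧
    (∃ r : ℕ, 0 < r ∧ Nonempty (Matrix (Fin r) (Fin r) B.Alg ≃+* B'.Alg)) ∧
    (∃ r : ℕ, 0 < r ∧ Nonempty (Matrix (Fin r) (Fin r) B.Cor ≃+* B'.Cor)) ∧
    EqHt p s B.e B.D.index B'.e B'.D.index ∧
    EqHt p s B.c (B.D.subgroupOf (Subgroup.normalizer (B.D : Set G))).index
      B'.c (B'.D.subgroupOf (Subgroup.normalizer (B'.D : Set Y))).index ∧
    k0 s B' = k0 s B ∧ k0c s B' = k0c s B

theorem am_mon {Ω X V G : Type} [Field Ω] [Group X] [Group V] [Group G] [Fintype X]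
    [Fintype V] [Finite G] (I : Mon L X V G) (hV : ¬ p ∣ Nat.card V) {u : L}
    (hu : u * (Fintype.card V : L) = 1) (s : L →+* Ω) (hs : Function.Injective s) :
    ReproA p s G X := by
  rintro ⟨e, he, D, hD, c, hc, hec⟩
  have hlam : ∀ v, rs L (I.lam v : L) = 1 → I.lam v = 1 := by
    intro v hv
    apply Units.ext
    refine root_one (p := p) (q := Nat.card V) hV ?_ hv
    rw [← Units.val_pow_eq_pow_val, ← map_pow, pow_card_eq_one', map_one, Units.val_one]
  let I0 := I.nor D hD.1 hV
  have hlam0 : ∀ v, rs L (I0.lam v : L) = 1 → I0.lam v = 1 := fun v hv => hlam v.1 hv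
  have hu1 : rs L u * (Fintype.card V : ResidueField L) = 1 := by
    rw [← map_natCast (rs L), ← map_mul, hu, map_one]
  have hVL : ∀ m : ℕ, ¬ p ∣ m → IsUnit ((m : ℕ) : L) := by
    intro m hm
    rw [← IsLocalRing.notMem_maximalIdeal, ← IsLocalRing.residue_eq_zero_iff, map_natCast,
      CharP.cast_eq_zero_iff (ResidueField L) p]
    exact hm
  have hV0 : ¬ p ∣ Nat.card (I.V0 D) := fun h => hV (h.trans (Subgroup.card_subgroup_dvd_card _))
  obtain ⟨u0, hu0⟩ := (isUnit_iff_exists_inv'.mp (hVL _ hV0))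
  have hu0' : u0 * (Fintype.card (I.V0 D) : L) = 1 := by
    rw [← Nat.card_eq_fintype_card, hu0]
  have hru : rs L u0 = rs L u := by
    have h1 : (Fintype.card V : ResidueField L) = (Nat.card (I.V0 D) : ResidueField L) :=
      (I.map (rs L) hlam).card_V0 D hD.1 hV
    have h2 : rs L u0 * (Nat.card (I.V0 D) : ResidueField L) = 1 := by
      rw [← map_natCast (rs L), ← map_mul, hu0, map_one]
    have h3 : (Nat.card (I.V0 D) : ResidueField L) ≠ 0 := by
      intro h
      rw [h, mul_zero] at h2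
      exact zero_ne_one h2
    apply mul_right_cancel₀ h3
    rw [h2, ← h1, hu1]
  have hred := red_isBlock he
  have hredc := red_isBlock hc
  have hdef : IsDefect p (I.cen u e) (D.map I.j) := by
    refine ⟨hD.1.map I.j, ?_⟩
    rw [I.red_cen (rs L) hlam]
    exact (I.map (rs L) hlam).cen_isMinTr hu1 hred hD.2
  have hcorr : IsCorr (I.cen u e) (D.map I.j) (I0.cen u0 c) := by
    unfold IsCorr
    rw [I.red_cen (rs L) hlam, I0.red_cen (rs L) hlam0, hru]
    exact (I.map (rs L) hlam).cen_isBr D hD.1 hV hu1 hred.central hD.2.1 hredc.central hec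
  have hsub : (D.subgroupOf (Subgroup.normalizer (D : Set G))).map I0.j =
      (D.map I.j).subgroupOf (Subgroup.normalizer ((D.map I.j : Subgroup X) : Set X)) := by
    ext x
    rw [Subgroup.mem_subgroupOf]
    constructor
    · rintro ⟨g, hg, rfl⟩
      exact ⟨(g : G), hg, rfl⟩
    · rintro ⟨d, hd, h⟩
      exact ⟨⟨d, Subgroup.le_normalizer hd⟩, hd, Subtype.ext h⟩
  have hE := I.eqHt hu s hs hV (e := e) D
  have hE0 := I0.eqHt hu0' s hs hV0 (e := c) (D.subgroupOf (Subgroup.normalizer (D : Set G)))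
  rw [hsub] at hE0
  refine ⟨⟨I.cen u e, I.cen_isBlock hu he, D.map I.j, hdef, I0.cen u0 c,
    I0.cen_isBlock hu0' hc, hcorr⟩, ⟨(D.equivMapOfInjective I.j I.j_inj).symm⟩, ?_, ?_, hE, hE0,
    hE.card, hE0.card⟩
  · haveI : Nonempty I.Q := ⟨QuotientGroup.mk 1⟩
    refine ⟨Fintype.card I.Q, Fintype.card_pos, ⟨?_⟩⟩
    exact ((Matrix.reindexAlgEquiv ℤ (BlockAlg he) (Fintype.equivFin I.Q).symm).toRingEquiv).trans
      (I.blockEquiv hu he)
  · haveI : Nonempty I0.Q := ⟨QuotientGroup.mk 1⟩
    refine ⟨Fintype.card I0.Q, Fintype.card_pos, ⟨?_⟩⟩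
    exact ((Matrix.reindexAlgEquiv ℤ (BlockAlg hc)
      (Fintype.equivFin I0.Q).symm).toRingEquiv).trans (I0.blockEquiv hu0' hc)

theorem am_XP {Ω : Type} [Field Ω] {q : ℕ} (h : Good p q)
    (hζ : ∃ ζ : L, IsPrimitiveRoot ζ ((q - 1) / 2)) (s : L →+* Ω) (hs : Function.Injective s)
    (G : Type) [Group G] [Finite G] {n : ℕ} (hn : Nat.card G ^ 2 + 3 * Nat.card G ≤ n) :
    ReproA p s G (XP n q) := by
  haveI : Fact q.Prime := ⟨h.prime⟩
  obtain ⟨V, _, _, I, hV⟩ := exists_mon h hζ G hn
  haveI := Fintype.ofFinite (XP n q)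
  haveI := Fintype.ofFinite V
  have hVu : IsUnit ((Nat.card V : ℕ) : L) := by
    rw [← IsLocalRing.notMem_maximalIdeal, ← IsLocalRing.residue_eq_zero_iff, map_natCast,
      CharP.cast_eq_zero_iff (ResidueField L) p]
    exact hV
  obtain ⟨u, hu⟩ := (isUnit_iff_exists_inv'.mp hVu)
  rw [Nat.card_eq_fintype_card] at hu
  exact am_mon I hV hu s hs

end main

end Pool.Agent.H373.MN

open Pool.Agent.H373.BU Pool.Agent.H373.MN IsLocalRing in
theorem Pool.Agent.H373.MN.am_three (p : ℕ) [hp : Fact p.Prime] :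
    (∀ N : ℕ, ∃ q, N < q ∧ Good p q) ∧
    ∀ q, Good p q →
      (∀ n, 5 ≤ n → ThreeNormal p q n (XP n q) ∧ IsPrimitiveGroup (XP n q)) ∧
      ∀ (L : Type) [CommRing L] [IsDomain L] [IsDiscreteValuationRing L]
        [IsAdicComplete (maximalIdeal L) L] [CharP (ResidueField L) p] (W : Type) [Field W]
        (s : L →+* W), Function.Injective s →
        (IsAlgClosed (ResidueField L) → ∃ ζ : L, IsPrimitiveRoot ζ ((q - 1) / 2)) ∧
        ((∃ ζ : L, IsPrimitiveRoot ζ ((q - 1) / 2)) →
          (∀ (G : Type) [Group G] [Finite G] (n : ℕ), Nat.card G ^ 2 + 3 * Nat.card G ≤ n →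
            ReproA p s G (XP n q)) ∧
          (∀ S : Set ℕ, S.Infinite →
            ((∀ (G : Type) [Group G] [Finite G] (B : BlockData p L G), AM s B) ↔
              ∀ n ∈ S, ∀ B : BlockData p L (XP n q), AM s B)) ∧
          ((∀ (G : Type) [Group G] [Finite G] (B : BlockData p L G), AM s B) ↔
            ∀ (X : Type) [Group X] [Finite X], PrimitiveThree X →
              ∀ B : BlockData p L X, AM s B) ∧
          ∀ R : ℕ → ℕ → Prop,
            (∀ (G : Type) [Group G] [Finite G] (B : BlockData p L G), R (k0 s B) (k0c s B)) ↔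
            ∀ (X : Type) [Group X] [Finite X], PrimitiveThree X →
              ∀ B : BlockData p L X, R (k0 s B) (k0c s B)) := by
  refine ⟨exists_good p, fun q h => ⟨fun n hn => ⟨threeNormal_XP h hn, primitive_XP h hn⟩, ?_⟩⟩
  intro L _ _ _ _ _ W _ s hs
  haveI : NeZero q := ⟨h.prime.ne_zero⟩
  refine ⟨fun _ => exists_root_L (p := p) h.ndvd.1, fun hζ => ?_⟩
  have key : ∀ R : ℕ → ℕ → Prop, ∀ S : Set ℕ, S.Infinite →
      (∀ n ∈ S, ∀ B : BlockData p L (XP n q), R (k0 s B) (k0c s B)) →
      ∀ (G : Type) [Group G] [Finite G] (B : BlockData p L G), R (k0 s B) (k0c s B) := by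
    intro R S hS h1 G _ _ B
    obtain ⟨n, hnS, hn⟩ := hS.exists_gt (Nat.card G ^ 2 + 3 * Nat.card G)
    obtain ⟨B', -, -, -, -, -, h2, h3⟩ := am_XP h hζ s hs G hn.le B
    rw [← h2, ← h3]
    exact h1 n hnS B'
  refine ⟨fun G _ _ n hn => am_XP h hζ s hs G hn, fun S hS => ⟨?_, key Eq S hS⟩, ⟨?_, ?_⟩, ?_⟩
  · exact fun h1 n _ => h1 (XP n q)
  · exact fun h1 X _ _ _ => h1 X
  · exact fun h1 => key Eq _ infinite_five fun n hn => h1 (XP n q) (primitiveThree_XP h hn)
  · refine fun R => ⟨fun h1 X _ _ _ => h1 X, fun h1 => ?_⟩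
    exact key R _ infinite_five fun n hn => h1 (XP n q) (primitiveThree_XP h hn)
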