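import Pool.Agent.H373.MN.D2
import Pool.Agent.H373.MN.K2

/-!
# Dade's alternating sums: definitions
-/

set_option autoImplicit false
set_option linter.unusedSectionVars false
set_option linter.style.haveILetI false

open scoped BigOperators Classical

noncomputable section

namespace Pool.Agent.H373.MN

open Pool.Agent.H373.BU hiding Ind

open MonoidAlgebra hiding coeff_sum

open IsLocalRing

section defs

variable {L : Type} [CommRing L] [IsLocalRing L] {Ω : Type} [Field Ω] {G : Type} [Group G]

/-- The irreducible character `ε` of `K` has `p`-defect `d`. -/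
def HasDef (p d : ℕ) {K : Type} [Group K] (ε : MonoidAlgebra Ω K) : Prop :=
  padicValNat p (dg ε) + 2 * d = 2 * padicValNat p (Nat.card K)

/-- The irreducible characters of `N_G(C)` of defect `d` in the blocks of `Λ N_G(C)` which correspond
to the block `b` of `ΛG` (i.e. which induce `b`): the blocks `f` whose reductions satisfy
`f Br_C(b) = f`. Here `Br_C` is the Brauer homomorphism of the largest subgroup in the chain `C`. -/
def IrC (p : ℕ) (s : L →+* Ω) (d : ℕ) (C : Set (Subgroup G)) (b : MonoidAlgebra L G) :
    Set (MonoidAlgebra Ω (NC C)) :=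
  {ε | (∃ f : MonoidAlgebra L (NC C), IsBlock f ∧
      red (rs L) f * brc C (red (rs L) b) = red (rs L) f ∧ ε ∈ Ir s f) ∧ HasDef p d ε}

/-- Dade's alternating sum of the numbers `k^d(B_C)` over the classes of the chains. -/
def dadeSum (p : ℕ) (s : L →+* Ω) (d : ℕ) (b : MonoidAlgebra L G) : ℤ :=
  ∑ᶠ c : Quotient (cjs (pch p G)),
    (-1) ^ ((c.out : Set (Subgroup G)).ncard - 1) *
      (Nat.card (IrC p s d (c.out : Set (Subgroup G)) b) : ℤ)

end defs

section defs

variable {L : Type} [CommRing L] [IsDomain L] [IsDiscreteValuationRing L]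
  {Ω : Type} [Field Ω]

/-- The blocks of `ΛG` are reproduced by blocks of `ΛY`: a matrix ring over the block algebra is
isomorphic to the new one, the defect groups are isomorphic, and all of Dade's alternating sums are the
same. -/
def ReproD (p : ℕ) (s : L →+* Ω) (G Y : Type) [Group G] [Group Y] : Prop :=
  ∀ (b : MonoidAlgebra L G) (hb : IsBlock b), ∃ (b' : MonoidAlgebra L Y) (hb' : IsBlock b'),
    (∃ r : ℕ, 0 < r ∧ Nonempty (Matrix (Fin r) (Fin r) (BlockAlg hb) ≃+* BlockAlg hb')) ∧
    (∀ D : Subgroup G, IsDefect p b D → ∃ D' : Subgroup Y, IsDefect p b' D' ∧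
      Nonempty (D' ≃* D)) ∧
    (PosDefect (red (rs L) b') ↔ PosDefect (red (rs L) b)) ∧
    ∀ d : ℕ, dadeSum p s d b' = dadeSum p s d b

/-- **Dade's conjecture** for the blocks of `ΛG` with nontrivial defect groups: all the alternating
sums vanish. -/
def Dade (p : ℕ) (s : L →+* Ω) (G : Type) [Group G] : Prop :=
  ∀ b : MonoidAlgebra L G, IsBlock b → PosDefect (red (rs L) b) → ∀ d : ℕ, dadeSum p s d b = 0

end defs

end Pool.Agent.H373.MN
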