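import Pool.Agent.H373.MN.D3

/-!
# Dade's alternating sums for groups with three normal subgroups
-/

set_option autoImplicit false
set_option linter.unusedSectionVars false
set_option linter.style.haveILetI false

open scoped BigOperators Classical MatrixGroups

noncomputable section

namespace Pool.Agent.H373.MN

open Pool.Agent.H373.BU hiding Ind

open MonoidAlgebra hiding coeff_sum

open IsLocalRing

section eq

variable {L : Type} [CommRing L] [IsDomain L] [IsDiscreteValuationRing L]
  [IsAdicComplete (maximalIdeal L) L] {Ω : Type} [Field Ω] {G : Type} [Group G] [Finite G]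

theorem finite_Ir {K : Type} [Group K] [Finite K] {S : Set (MonoidAlgebra Ω K)}
    (hS : ∀ ε ∈ S, IsBlock ε) : Finite S := by
  haveI : FiniteDimensional Ω (MonoidAlgebra Ω K) := by
    haveI := Fintype.ofFinite K
    exact inferInstance
  have h : LinearIndependent Ω (fun ε : S => (ε : MonoidAlgebra Ω K)) := by
    rw [linearIndependent_iff']
    intro t g hg ε hε
    have h1 := congrArg (· * (ε : MonoidAlgebra Ω K)) hg
    simp only [Finset.sum_mul, zero_mul] at h1
    rw [Finset.sum_eq_single ε] at h1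
    · rw [smul_mul_assoc, (hS _ ε.2).idem] at h1
      exact (smul_eq_zero.mp h1).resolve_right (hS _ ε.2).ne_zero
    · intro δ _ hδ
      rw [smul_mul_assoc]
      have h2 : (δ : MonoidAlgebra Ω K) * ε = 0 := by
        by_contra h3
        exact hδ (Subtype.ext (blk_eq (hS _ δ.2) (hS _ ε.2) h3))
      rw [h2, smul_zero]
    · intro h2
      exact absurd hε h2
  exact h.finite

theorem card_IrC {p : ℕ} (s : L →+* Ω) (d : ℕ) {C : Set (Subgroup G)}
    (hC : sInf C = ⊥) (b : MonoidAlgebra L G) :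
    Nat.card (IrC p s d C b) = ∑ᶠ w : SB C (red (rs L) b),
      Nat.card (IrD p s d (w : MonoidAlgebra (ResidueField L) (KC C))) := by
  have hfin : ∀ w : MonoidAlgebra (ResidueField L) (KC C), Finite (IrD p s d w) :=
    fun w => finite_Ir fun ε h => h.1.choose_spec.2.2.1
  haveI : Finite (SB C (red (rs L) b)) := finite_Ir fun ε h => h.1
  haveI := Fintype.ofFinite (SB C (red (rs L) b))
  rw [finsum_eq_sum_of_fintype]
  have h1 : Nat.card (IrC p s d C b) = Nat.card (Σ w : SB C (red (rs L) b),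
      IrD p s d (w : MonoidAlgebra (ResidueField L) (KC C))) := by
    refine (Nat.card_congr (Equiv.ofBijective
      (fun t : (Σ w : SB C (red (rs L) b),
        IrD p s d (w : MonoidAlgebra (ResidueField L) (KC C))) =>
        (⟨me Ω (pkE hC).symm t.2, ?_⟩ : IrC p s d C b)) ⟨?_, ?_⟩)).symm
    · obtain ⟨⟨w, hw, hwb⟩, ⟨ε, ⟨f, hf, hfw, hε⟩, hd⟩⟩ := t
      have h2 := mem_IrD_me (p := p) (s := s) (d := d) (pkE hC).symm (w := w) (ε := ε)
        ⟨⟨f, hf, hfw, hε⟩, hd⟩
      obtain ⟨⟨f', hf', hfw', hε'⟩, hd'⟩ := h2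
      refine ⟨⟨f', hf', ?_, hε'⟩, hd'⟩
      rw [hfw']
      have h := congrArg (me (ResidueField L) (pkE hC).symm) hwb
      rw [map_mul] at h
      have h2 : me (ResidueField L) (pkE hC).symm (bq C (red (rs L) b)) =
        brc C (red (rs L) b) := me_symm_me (pkE hC) (brc C (red (rs L) b))
      rwa [h2] at h
    · rintro ⟨⟨w, hw⟩, ⟨ε, ⟨f, hf, hfw, hε⟩, hd⟩⟩ ⟨⟨w', hw'⟩, ⟨ε', ⟨f', hf', hfw', hε'⟩, hd'⟩⟩ h
      have h2 : ε = ε' := (me Ω (pkE hC).symm).injective (congrArg Subtype.val h)
      subst h2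
      have h3 : f = f' := by
        apply blk_eq hf hf'
        intro h4
        apply hε.1.ne_zero
        rw [← hε'.2, ← hε.2, mul_assoc, ← map_mul, h4, map_zero, mul_zero]
      subst h3
      have h4 : w = w' := hfw.symm.trans hfw'
      subst h4
      rfl
    · rintro ⟨ε, ⟨f, hf, hfb, hε⟩, hd⟩
      have hw : me (ResidueField L) (pkE hC) (red (rs L) f) ∈ SB C (red (rs L) b) := by
        refine ⟨me_isBlock _ (red_isBlock hf), ?_⟩
        have h := congrArg (me (ResidueField L) (pkE hC)) hfb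
        rw [map_mul] at h
        exact h
      refine ⟨⟨⟨_, hw⟩, ⟨me Ω (pkE hC) ε, mem_IrD_me (pkE hC) ⟨⟨f, hf, rfl, hε⟩, hd⟩⟩⟩, ?_⟩
      exact Subtype.ext (me_symm_me _ _)
  rw [h1]
  haveI : ∀ w : SB C (red (rs L) b),
      Finite (IrD p s d (w : MonoidAlgebra (ResidueField L) (KC C))) := fun w => hfin w
  haveI : ∀ w : SB C (red (rs L) b),
      Fintype (IrD p s d (w : MonoidAlgebra (ResidueField L) (KC C))) :=
    fun w => Fintype.ofFinite _
  rw [Nat.card_sigma]

theorem dadeSum_eq (p : ℕ) (s : L →+* Ω) (d : ℕ) (b : MonoidAlgebra L G) :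
    dadeSum p s d b = chSum (pch p G) (red (rs L) b)
      (fun C w => (-1) ^ (C.ncard - 1) * (Nat.card (IrD p s d w) : ℤ)) := by
  unfold dadeSum chSum
  refine finsum_congr fun c => ?_
  rw [card_IrC s d (pch_sInf c.out.2)]
  haveI : Finite (SB (c.out : Set (Subgroup G)) (red (rs L) b)) := finite_Ir fun ε h => h.1
  haveI := Fintype.ofFinite (SB (c.out : Set (Subgroup G)) (red (rs L) b))
  rw [finsum_eq_sum_of_fintype, finsum_eq_sum_of_fintype, Nat.cast_sum, Finset.mul_sum]

end eq

namespace Mon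

section main

variable {L : Type} [CommRing L] [IsDomain L] [IsDiscreteValuationRing L]
  [IsAdicComplete (maximalIdeal L) L] {p : ℕ} [hp : Fact p.Prime] [CharP (ResidueField L) p]
  {Ω : Type} [Field Ω] {X V G : Type} [Group X] [Group V] [Group G]
  [Fintype X] [Fintype V] [Finite G] (I : Mon L X V G) {u : L}
  (hu : u * (Fintype.card V : L) = 1) (s : L →+* Ω) (hs : Function.Injective s)
  (hV : ¬ p ∣ Nat.card V)

include hV in
theorem lam_red (v : V) (hv : rs L (I.lam v : L) = 1) : I.lam v = 1 := by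
  apply Units.ext
  refine root_one (p := p) (q := Nat.card V) hV ?_ hv
  rw [← Units.val_pow_eq_pow_val, ← map_pow, pow_card_eq_one', map_one, Units.val_one]

include hs in
theorem card_IrD_lev {d : ℕ} {C : Set (Subgroup G)} (hC : C.Nonempty)
    (hT : IsPGroup p (sSup C : Subgroup G)) (hlam : ∀ v, rs L (I.lam v : L) = 1 → I.lam v = 1)
    (hu1 : rs L u * (Fintype.card V : ResidueField L) = 1)
    {w : MonoidAlgebra (ResidueField L) (KC C)} (hw : IsBlock w) :
    Nat.card (IrD p s d (((I.map (rs L) hlam).lev C hC hT hV).cen (rs L u) w)) =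
      Nat.card (IrD p s d w) := by
  have hV0 : ¬ p ∣ Nat.card (I.V0 (sSup C)) :=
    fun h => hV (h.trans (Subgroup.card_subgroup_dvd_card _))
  have hVL : ∀ m : ℕ, ¬ p ∣ m → IsUnit ((m : ℕ) : L) := by
    intro m hm
    rw [← IsLocalRing.notMem_maximalIdeal, ← IsLocalRing.residue_eq_zero_iff, map_natCast,
      CharP.cast_eq_zero_iff (ResidueField L) p]
    exact hm
  obtain ⟨u0, hu0⟩ := (isUnit_iff_exists_inv'.mp (hVL _ hV0))
  have hu0' : u0 * (Fintype.card (I.V0 (sSup C)) : L) = 1 := by
    rw [← Nat.card_eq_fintype_card, hu0]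
  have hru : rs L u0 = rs L u := by
    have h1 : (Fintype.card V : ResidueField L) = (Nat.card (I.V0 (sSup C)) : ResidueField L) :=
      (I.map (rs L) hlam).card_V0 (sSup C) hT hV
    have h2 : rs L u0 * (Nat.card (I.V0 (sSup C)) : ResidueField L) = 1 := by
      rw [← map_natCast (rs L), ← map_mul, hu0, map_one]
    have h3 : (Nat.card (I.V0 (sSup C)) : ResidueField L) ≠ 0 := by
      intro h
      rw [h, mul_zero] at h2
      exact zero_ne_one h2
    apply mul_right_cancel₀ h3
    rw [h2, ← h1, hu1]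
  have h := (I.lev C hC hT hV).card_IrD_cen hu0' s hs hV0
    (fun v hv => hlam (v : V) hv) (d := d) hw
  rw [hru] at h
  exact h

include hu hs hV in
/-- the alternating sums agree -/
theorem dadeSum_cen {d : ℕ} {b : MonoidAlgebra L G} (hb : IsBlock b) :
    dadeSum p s d (I.cen u b) = dadeSum p s d b := by
  have hlam : ∀ v, rs L (I.lam v : L) = 1 → I.lam v = 1 := I.lam_red hV
  have hu1 : rs L u * (Fintype.card V : ResidueField L) = 1 := by
    rw [← map_natCast (rs L), ← map_mul, hu, map_one]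
  have hbr := red_isBlock hb
  rw [dadeSum_eq, dadeSum_eq, I.red_cen (rs L) hlam]
  refine (I.map (rs L) hlam).chSum_transfer hV hu1 (fun C hC => pch_prop hC)
    (fun C hC => pch_prop hC)
    (fun C => I.jS_pch C) (fun x C C' h hC => pch_conj h hC) hbr.central hbr.idem
    (fun C hC g h => pch_NC hC h)
    (fun C hC g h => pch_NC hC h) _ _ ?_ ?_ ?_
  · intro g C₁ C₂ h w _
    rw [card_IrD_me]
    unfold Cj at h
    rw [← h, Set.ncard_image_of_injective]
    exact fun P Q hPQ => by
      rw [← cs_inv_cs g P, hPQ, cs_inv_cs]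
  · intro g C₁ C₂ h w _
    rw [card_IrD_me]
    unfold Cj at h
    rw [← h, Set.ncard_image_of_injective]
    exact fun P Q hPQ => by
      rw [← cs_inv_cs g P, hPQ, cs_inv_cs]
  · intro C hC w hw
    rw [I.card_IrD_lev s hs hV (pch_prop hC).1 (pch_prop hC).2 hlam hu1 hw]
    congr 2
    rw [(I.map (rs L) hlam).ncard_jS]

end main

end Mon

end Pool.Agent.H373.MN
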