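import Pool.Agent.H373.MN.D4

/-!
# Dade's conjecture for groups with three normal subgroups
-/

set_option autoImplicit false
set_option linter.unusedSectionVars false
set_option linter.style.haveILetI false

open scoped BigOperators Classical MatrixGroups

noncomputable section

namespace Pool.Agent.H373.MN

open Pool.Agent.H373.BU hiding Ind

open MonoidAlgebra hiding coeff_sum

open IsLocalRing

section main

variable {L : Type} [CommRing L] [IsDomain L] [IsDiscreteValuationRing L]
  [IsAdicComplete (maximalIdeal L) L] {p : ℕ} [hp : Fact p.Prime] [CharP (ResidueField L) p]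
  {Ω : Type} [Field Ω]

theorem reproD_of_mon {X V G : Type} [Group X] [Group V] [Group G] [Fintype X] [Fintype V]
    [Finite G] (I : Mon L X V G) (hV : ¬ p ∣ Nat.card V) {u : L}
    (hu : u * (Fintype.card V : L) = 1) (s : L →+* Ω) (hs : Function.Injective s) :
    ReproD p s G X := by
  intro e he
  have hlam : ∀ v, rs L (I.lam v : L) = 1 → I.lam v = 1 := I.lam_red hV
  have hu1 : rs L u * (Fintype.card V : ResidueField L) = 1 := by
    rw [← map_natCast (rs L), ← map_mul, hu, map_one]
  have hred := red_isBlock he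
  haveI : Nonempty I.Q := ⟨QuotientGroup.mk 1⟩
  refine ⟨I.cen u e, I.cen_isBlock hu he, ⟨Fintype.card I.Q, Fintype.card_pos, ⟨?_⟩⟩, ?_, ?_,
    fun d => I.dadeSum_cen hu s hs hV he⟩
  · exact ((Matrix.reindexAlgEquiv ℤ (BlockAlg he) (Fintype.equivFin I.Q).symm).toRingEquiv).trans
      (I.blockEquiv hu he)
  · intro D hD
    refine ⟨D.map I.j, ⟨hD.1.map I.j, ?_⟩, ⟨(D.equivMapOfInjective I.j I.j_inj).symm⟩⟩
    rw [I.red_cen (rs L) hlam]
    exact (I.map (rs L) hlam).cen_isMinTr hu1 hred hD.2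
  · rw [I.red_cen (rs L) hlam]
    exact not_congr ((I.map (rs L) hlam).isTr_cen_iff hu1 hred)

theorem reproD_XP {q : ℕ} (h : Good p q)
    (hζ : ∃ ζ : L, IsPrimitiveRoot ζ ((q - 1) / 2)) (s : L →+* Ω) (hs : Function.Injective s)
    (G : Type) [Group G] [Finite G] {n : ℕ} (hn : Nat.card G ^ 2 + 3 * Nat.card G ≤ n) :
    ReproD p s G (XP n q) := by
  haveI : Fact q.Prime := ⟨h.prime⟩
  obtain ⟨V, _, _, I, hV⟩ := exists_mon h hζ G hn
  haveI := Fintype.ofFinite (XP n q)
  haveI := Fintype.ofFinite V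
  have hVu : IsUnit ((Nat.card V : ℕ) : L) := by
    rw [← IsLocalRing.notMem_maximalIdeal, ← IsLocalRing.residue_eq_zero_iff, map_natCast,
      CharP.cast_eq_zero_iff (ResidueField L) p]
    exact hV
  obtain ⟨u, hu⟩ := (isUnit_iff_exists_inv'.mp hVu)
  rw [Nat.card_eq_fintype_card] at hu
  exact reproD_of_mon I hV hu s hs

end main

end Pool.Agent.H373.MN

open Pool.Agent.H373.BU Pool.Agent.H373.MN IsLocalRing in
theorem Pool.Agent.H373.MN.dade_three (p : ℕ) [hp : Fact p.Prime] :
    (∀ N : ℕ, ∃ q, N < q ∧ Good p q) ∧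
    ∀ q, Good p q →
      (∀ n, 5 ≤ n → ThreeNormal p q n (XP n q) ∧ IsPrimitiveGroup (XP n q) ∧
        NoCore p (XP n q)) ∧
      ∀ (L : Type) [CommRing L] [IsDomain L] [IsDiscreteValuationRing L]
        [IsAdicComplete (maximalIdeal L) L] [CharP (ResidueField L) p] (W : Type) [Field W]
        (s : L →+* W), Function.Injective s →
        (IsAlgClosed (ResidueField L) → ∃ ζ : L, IsPrimitiveRoot ζ ((q - 1) / 2)) ∧
        ((∃ ζ : L, IsPrimitiveRoot ζ ((q - 1) / 2)) →
          (∀ (G : Type) [Group G] [Finite G] (n : ℕ), Nat.card G ^ 2 + 3 * Nat.card G ≤ n →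
            ReproD p s G (XP n q)) ∧
          (∀ S : Set ℕ, S.Infinite →
            ((∀ (G : Type) [Group G] [Finite G], NoCore p G → Dade p s G) ↔
              ∀ n ∈ S, 5 ≤ n → Dade p s (XP n q))) ∧
          ((∀ (G : Type) [Group G] [Finite G], NoCore p G → Dade p s G) ↔
            ∀ (X : Type) [Group X] [Finite X], PrimitiveThree X → NoCore p X → Dade p s X) ∧
          ∀ R : (ℕ → ℤ) → Prop,
            (∀ (G : Type) [Group G] [Finite G], NoCore p G → ∀ b : MonoidAlgebra L G,
              IsBlock b → PosDefect (red (rs L) b) → R fun d => dadeSum p s d b) ↔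
            ∀ (X : Type) [Group X] [Finite X], PrimitiveThree X → NoCore p X →
              ∀ b : MonoidAlgebra L X, IsBlock b → PosDefect (red (rs L) b) →
                R fun d => dadeSum p s d b) := by
  refine ⟨exists_good p, fun q h => ⟨fun n hn => ⟨threeNormal_XP h hn, primitive_XP h hn,
    noCore_XP h hn⟩, ?_⟩⟩
  intro L _ _ _ _ _ W _ s hs
  haveI : NeZero q := ⟨h.prime.ne_zero⟩
  refine ⟨fun _ => exists_root_L (p := p) h.ndvd.1, fun hζ => ?_⟩
  have key : ∀ R : (ℕ → ℤ) → Prop, ∀ S : Set ℕ, S.Infinite →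
      (∀ n ∈ S, 5 ≤ n → ∀ b : MonoidAlgebra L (XP n q), IsBlock b →
        PosDefect (red (rs L) b) → R fun d => dadeSum p s d b) →
      ∀ (G : Type) [Group G] [Finite G] (b : MonoidAlgebra L G), IsBlock b →
        PosDefect (red (rs L) b) → R fun d => dadeSum p s d b := by
    intro R S hS h1 G _ _ b hb hb0
    obtain ⟨n, hnS, hn⟩ := hS.exists_gt (Nat.card G ^ 2 + 3 * Nat.card G + 5)
    obtain ⟨b', hb', -, -, h2, h3⟩ := reproD_XP h hζ s hs G (n := n) (by omega) b hb
    have h4 := h1 n hnS (by omega) b' hb' (h2.mpr hb0)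
    have h5 : (fun d => dadeSum p s d b') = fun d => dadeSum p s d b := funext h3
    rwa [h5] at h4
  refine ⟨fun G _ _ n hn => reproD_XP h hζ s hs G hn, fun S hS => ⟨?_, ?_⟩, ⟨?_, ?_⟩, ?_⟩
  · exact fun h1 n _ hn => h1 (XP n q) (noCore_XP h hn)
  · intro h1 G _ _ _ b hb hb0 d
    exact congrFun (f := fun d => dadeSum p s d b) (g := fun _ => 0)
      (key (fun z => z = fun _ => 0) S hS
        (fun n hn h5 b' hb' h0 => funext fun d => h1 n hn h5 b' hb' h0 d) G b hb hb0) d
  · exact fun h1 X _ _ _ => h1 X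
  · intro h1 G _ _ _ b hb hb0 d
    exact congrFun (f := fun d => dadeSum p s d b) (g := fun _ => 0)
      (key (fun z => z = fun _ => 0) _ infinite_five
        (fun n hn _ b' hb' h0 => funext fun d => h1 (XP n q) (primitiveThree_XP h hn)
          (noCore_XP h hn) b' hb' h0 d) G b hb hb0) d
  · refine fun R => ⟨fun h1 X _ _ _ => h1 X, fun h1 G _ _ _ => ?_⟩
    exact key R _ infinite_five
      (fun n hn _ => h1 (XP n q) (primitiveThree_XP h hn) (noCore_XP h hn)) G
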