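import Pool.Agent.H373.MN.M9
import Pool.Agent.H373.CH.F6
import Pool.Agent.H373.CH.G1

set_option autoImplicit false
set_option linter.unusedSectionVars false
set_option linter.style.haveILetI false

open scoped BigOperators Classical

noncomputable section

namespace Pool.Agent.H373.MN

open Pool.Agent.H373.BU hiding Ind

open MonoidAlgebra hiding coeff_sum

namespace Mon

section ep

variable {R X V G : Type} [CommRing R] [Group X] [Group V] [Group G] [Fintype X] [Fintype V]
  [IsDomain R] (I : Mon R X V G) {u : R} (hu : u * (Fintype.card V : R) = 1)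

include hu in
theorem sg_ep_io (b : MonoidAlgebra R G) : I.sg (I.ep u * I.io b) = b := by
  have h1 := I.sg_ep hu 1 (I.io b)
  rw [el_one, one_mul] at h1
  have h2 := I.sg_io_mul b (el R (1 : X))
  rw [el_one, mul_one] at h2
  have h3 := I.sg_el (1 : X)
  rw [el_one] at h3
  rw [h1, wt_one, one_mul, h2, h3, wt_one, mul_one]

include hu in
theorem ep_io_inj {a b : MonoidAlgebra R G} (h : I.ep u * I.io a = I.ep u * I.io b) : a = b := by
  rw [← I.sg_ep_io hu a, h, I.sg_ep_io hu]

include hu in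
theorem Pi_ep_io {z : MonoidAlgebra R G} (hz : ∀ a, z * a = a * z) (p q : I.Q) :
    I.Pi (I.ep u * I.io z) p q = z * (I.wt p.out⁻¹ * I.wt q.out) := by
  rw [Pi_apply]
  have h : el R p.out⁻¹ * (I.ep u * I.io z) * el R q.out =
      el R p.out⁻¹ * I.ep u * (I.io z * el R q.out) := by simp only [mul_assoc]
  rw [h, I.sg_ep hu, sg_io_mul, sg_el, ← mul_assoc, ← hz, mul_assoc]

include hu in
theorem El_ep : I.El u * I.ep u = I.ep u := by
  have h1 : ∀ p q, I.Pi (I.ep u) p q = I.wt p.out⁻¹ * I.wt q.out := by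
    intro p q
    have := I.Pi_ep_io hu (z := 1) (fun a => by rw [one_mul, mul_one]) p q
    rwa [map_one, mul_one, one_mul] at this
  have h2 : (QuotientGroup.mk 1 : I.Q).out ∈ I.Y := by
    have : (1 : X)⁻¹ * (QuotientGroup.mk 1 : I.Q).out ∈ I.Y := by
      rw [← QuotientGroup.eq, QuotientGroup.out_eq']
    rwa [inv_one, one_mul] at this
  have h3 : ∀ p : I.Q, p ≠ QuotientGroup.mk 1 → p.out ∉ I.Y := by
    intro p hp h
    apply hp
    rw [← QuotientGroup.out_eq' p, QuotientGroup.eq, mul_one]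
    exact I.Y.inv_mem h
  rw [← Psi_Pi_left, Psi_apply, Finset.sum_eq_single (QuotientGroup.mk 1 : I.Q)]
  · rw [Finset.sum_eq_single (QuotientGroup.mk 1 : I.Q)]
    · rw [h1, ← I.wt_mul_left (I.Y.inv_mem h2), inv_mul_cancel, wt_one, map_one, mul_one,
        I.ep_comm u h2, mul_assoc, el_mul_inv, mul_one]
    · intro q _ hq
      rw [h1, I.wt_not (h3 q hq), mul_zero, map_zero, mul_zero, zero_mul]
    · intro h
      exact absurd (Finset.mem_univ _) h
  · intro p _ hp
    refine Finset.sum_eq_zero fun q _ => ?_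
    rw [h1, I.wt_not (x := p.out⁻¹), zero_mul, map_zero, mul_zero, zero_mul]
    intro h
    exact h3 p hp (by
      have := I.Y.inv_mem h
      rwa [inv_inv] at this)
  · intro h
    exact absurd (Finset.mem_univ _) h

include hu in
theorem cen_ep {z : MonoidAlgebra R G} (hz : ∀ a, z * a = a * z) :
    I.cen u z * I.ep u = I.ep u * I.io z := by
  have h1 : ∀ a, I.El u * a = a → a = I.Psi u (I.Pi a) := fun a ha => by
    rw [Psi_Pi_left, ha]
  have h2 : I.El u * (I.cen u z * I.ep u) = I.cen u z * I.ep u := by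
    rw [← mul_assoc, I.El_cen hu]
  have h3 : I.El u * (I.ep u * I.io z) = I.ep u * I.io z := by
    rw [← mul_assoc, I.El_ep hu]
  rw [h1 _ h2, h1 _ h3]
  congr 1
  ext1 p q
  rw [I.Pi_ep_io hu hz, map_mul, I.Pi_cen hu, Matrix.scalar_apply, Matrix.diagonal_mul]
  have := I.Pi_ep_io hu (z := 1) (fun a => by rw [one_mul, mul_one]) p q
  rw [map_one, mul_one, one_mul] at this
  rw [this]

include hu in
theorem isBlock_of_cen {z : MonoidAlgebra R G} (hz : ∀ a, z * a = a * z)
    (h : IsBlock (I.cen u z)) : IsBlock z where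
  idem := I.cen_inj hu (by rw [I.cen_mul hu, h.idem])
  central := hz
  ne_zero h0 := h.ne_zero (by rw [h0, cen_zero])
  primitive f hf hfc := by
    rcases h.primitive (I.cen u f) (by rw [← I.cen_mul hu, hf]) (I.cen_comm hu hfc) with h1 | h1
    · left
      apply I.cen_inj hu
      rw [I.cen_mul hu, h1, cen_zero]
    · right
      apply I.cen_inj hu
      rw [I.cen_mul hu, h1]

include hu in
theorem exists_cor {w' : MonoidAlgebra R X} (hw : IsBlock w') (h : w' * I.ep u ≠ 0) :
    ∃ w, IsBlock w ∧ I.cen u w = w' := by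
  have h1 : I.El u * I.El u = I.El u := by
    rw [← Psi_one, ← I.Psi_mul hu, mul_one]
  have h2 : I.El u * w' = w' := by
    rcases hw.primitive (I.El u) h1 (I.El_comm u) with h2 | h2
    · exfalso
      apply h
      rw [← I.El_ep hu, ← mul_assoc, ← I.El_comm, h2, zero_mul]
    · exact h2
  obtain ⟨w, hw1, hw2⟩ := I.exists_cen hu hw.central h2
  refine ⟨w, I.isBlock_of_cen hu hw1 ?_, hw2⟩
  rwa [hw2]

end ep

section quo

variable {R X V G X' G' : Type} [CommRing R] [Group X] [Group V] [Group G] [Group X']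
  [Group G'] (I : Mon R X V G) (π : X →* X') (hπ : Function.Surjective π) (ρ : G →* G')
  (hρ : Function.Surjective ρ) (h1 : ∀ g, ρ g = 1 → π (I.j g) = 1)
  (h2 : ∀ x, π x = 1 → ∃ g, ρ g = 1 ∧ I.j g = x) (h3 : ∀ g, ρ g = 1 → ∀ v, I.act g v = v)

/-- the embedding of the quotient -/
def quoJ : G' →* X' :=
  (ρ.liftOfRightInverse _ (Function.rightInverse_surjInv hρ)) ⟨π.comp I.j, fun g hg => h1 g hg⟩

theorem quoJ_apply (g : G) : I.quoJ π ρ hρ h1 (ρ g) = π (I.j g) :=
  MonoidHom.liftOfRightInverse_comp_apply ρ _ (Function.rightInverse_surjInv hρ) _ g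

/-- the action of the quotient -/
def quoA : G' →* MulAut V :=
  (ρ.liftOfRightInverse _ (Function.rightInverse_surjInv hρ)) ⟨I.act, fun g hg => by
    apply MulEquiv.ext
    intro v
    exact h3 g hg v⟩

theorem quoA_apply (g : G) : I.quoA ρ hρ h3 (ρ g) = I.act g :=
  MonoidHom.liftOfRightInverse_comp_apply ρ _ (Function.rightInverse_surjInv hρ) _ g

include hπ h2 in
theorem quo_form (x : X) (h : ∃ v g', (π.comp I.i) v * I.quoJ π ρ hρ h1 g' = π x) :
    ∃ v g, I.i v * I.j g = x := by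
  obtain ⟨v, g', h⟩ := h
  obtain ⟨g, rfl⟩ := hρ g'
  rw [quoJ_apply, MonoidHom.comp_apply, ← map_mul] at h
  have h4 : π (x⁻¹ * (I.i v * I.j g)) = 1 := by
    rw [map_mul, map_inv, h, inv_mul_cancel]
  obtain ⟨g1, hg1, hg2⟩ := h2 _ h4
  refine ⟨v, g * g1⁻¹, ?_⟩
  rw [map_mul, map_inv, hg2]
  group

/-- the data for quotient groups -/
def quo : Mon R X' V G' where
  i := π.comp I.i
  j := I.quoJ π ρ hρ h1
  act := I.quoA ρ hρ h3
  lam := I.lam
  act_spec g' v := by
    obtain ⟨g, rfl⟩ := hρ g'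
    rw [quoA_apply, quoJ_apply, MonoidHom.comp_apply, MonoidHom.comp_apply, I.act_spec, map_mul,
      map_mul, map_inv]
  lam_act g' v := by
    obtain ⟨g, rfl⟩ := hρ g'
    rw [quoA_apply, I.lam_act]
  inj v g' h := by
    obtain ⟨g, rfl⟩ := hρ g'
    rw [quoJ_apply, MonoidHom.comp_apply, ← map_mul] at h
    obtain ⟨g1, hg1, hg2⟩ := h2 _ h
    have h4 := I.uniq (v := v) (v' := 1) (g := g) (g' := g1) (by rw [map_one, one_mul, hg2])
    exact ⟨h4.1, by rw [h4.2, hg1]⟩
  mackey x' hx' := by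
    obtain ⟨x, rfl⟩ := hπ x'
    obtain ⟨v, v', h4, h5⟩ := I.mackey x (by
      rintro ⟨v, g, rfl⟩
      exact hx' ⟨v, ρ g, by rw [quoJ_apply, MonoidHom.comp_apply, ← map_mul]⟩)
    exact ⟨v, v', by rw [MonoidHom.comp_apply, MonoidHom.comp_apply, h4, map_mul, map_mul, map_inv],
      h5⟩

theorem quo_i (v : V) : (I.quo π hπ ρ hρ h1 h2 h3).i v = π (I.i v) := rfl

theorem quo_j (g : G) : (I.quo π hπ ρ hρ h1 h2 h3).j (ρ g) = π (I.j g) :=
  I.quoJ_apply π ρ hρ h1 g

variable [Fintype X] [Fintype X'] [Fintype V]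

theorem quo_io (a : MonoidAlgebra R G) :
    (I.quo π hπ ρ hρ h1 h2 h3).io (mp R ρ a) = mp R π (I.io a) := by
  induction a using MonoidAlgebra.induction_linear with
  | zero => simp
  | add a b ha hb => rw [map_add, map_add, ha, hb, map_add, map_add]
  | single x r => rw [mp_single, io_single, io_single, mp_single, quo_j]

theorem quo_ep (u : R) : (I.quo π hπ ρ hρ h1 h2 h3).ep u = mp R π (I.ep u) := by
  unfold ep
  rw [map_sum]
  refine Finset.sum_congr rfl fun v _ => ?_
  rw [mp_single]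
  rfl

end quo

section norC

variable {R X V G : Type} [CommRing R] [Group X] [Group V] [Group G] (I : Mon R X V G)

/-- the images of the subgroups in `C` -/
def jS (C : Set (Subgroup G)) : Set (Subgroup X) := (fun P => P.map I.j) '' C

theorem sSup_jS (C : Set (Subgroup G)) : sSup (I.jS C) = (sSup C).map I.j := by
  unfold jS
  rw [sSup_image]
  exact ((Subgroup.gc_map_comap I.j).l_sSup (s := C)).symm

theorem mem_sInf_jS {C : Set (Subgroup G)} (hC : C.Nonempty) {x : X} :
    x ∈ sInf (I.jS C) ↔ ∃ g ∈ sInf C, I.j g = x := by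
  constructor
  · intro h
    rw [Subgroup.mem_sInf] at h
    obtain ⟨P, hP⟩ := hC
    obtain ⟨g, -, hg⟩ := h _ ⟨P, hP, rfl⟩
    refine ⟨g, ?_, hg⟩
    rw [Subgroup.mem_sInf]
    intro Q hQ
    obtain ⟨g', hg', hgg⟩ := h _ ⟨Q, hQ, rfl⟩
    have : g' = g := I.j_inj (hgg.trans hg.symm)
    exact this ▸ hg'
  · rintro ⟨g, hg, rfl⟩
    rw [Subgroup.mem_sInf] at hg ⊢
    rintro _ ⟨P, hP, rfl⟩
    exact ⟨g, hg P hP, rfl⟩

theorem mem_N_iff (P : Subgroup G) (x : X) : x ∈ I.N P ↔ cs x (P.map I.j) = P.map I.j :=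
  mem_nor_iff

theorem mem_NC_jS {C : Set (Subgroup G)} {x : X} : x ∈ NC (I.jS C) ↔ ∀ P ∈ C, x ∈ I.N P := by
  rw [mem_NC]
  constructor
  · intro h P hP
    rw [mem_N_iff]
    exact h _ ⟨P, hP, rfl⟩
  · rintro h _ ⟨P, hP, rfl⟩
    exact (I.mem_N_iff P x).mp (h P hP)

theorem V0_sSup {C : Set (Subgroup G)} {v : V} : v ∈ I.V0 (sSup C) ↔ ∀ P ∈ C, v ∈ I.V0 P := by
  constructor
  · intro h P hP d hd
    exact h d ((le_sSup hP : P ≤ sSup C) hd)
  · intro h
    let S : Subgroup G :=
      { carrier := {d | I.act d v = v}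
        one_mem' := by
          change I.act 1 v = v
          rw [map_one]
          rfl
        mul_mem' := by
          intro a b ha hb
          change I.act (a * b) v = v
          rw [map_mul]
          change I.act a (I.act b v) = v
          change I.act a v = v at ha
          change I.act b v = v at hb
          rw [hb, ha]
        inv_mem' := by
          intro a ha
          change I.act a⁻¹ v = v
          change I.act a v = v at ha
          conv_lhs => rw [← ha]
          rw [← MulAut.mul_apply, ← map_mul, inv_mul_cancel, map_one]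
          rfl }
    have h1 : sSup C ≤ S := sSup_le fun P hP d hd => h P hP d hd
    intro d hd
    exact h1 hd

theorem form_mem_NC {C : Set (Subgroup G)} {v : V} {g : G} (hv : v ∈ I.V0 (sSup C))
    (hg : g ∈ NC C) : I.i v * I.j g ∈ NC (I.jS C) := by
  rw [mem_NC_jS]
  intro P hP
  exact I.form_mem_N P (I.V0_sSup.mp hv P hP) (mem_nor_iff.mpr (mem_NC.mp hg P hP))

theorem of_form_mem_NC {C : Set (Subgroup G)} {v : V} {g : G}
    (h : I.i v * I.j g ∈ NC (I.jS C)) : v ∈ I.V0 (sSup C) ∧ g ∈ NC C := by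
  rw [mem_NC_jS] at h
  refine ⟨I.V0_sSup.mpr fun P hP => (I.of_form_mem_N P (h P hP)).1, mem_NC.mpr fun P hP => ?_⟩
  exact mem_nor_iff.mp (I.of_form_mem_N P (h P hP)).2

theorem NC_jS_le (C : Set (Subgroup G)) : NC (I.jS C) ≤ I.N (sSup C) := by
  have := NC_le (I.jS C)
  rwa [sSup_jS] at this

variable [Finite V] [Finite G]

/-- the data for the stabiliser of a chain -/
def norC {p : ℕ} [hp : Fact p.Prime] (C : Set (Subgroup G))
    (hT : IsPGroup p (sSup C : Subgroup G)) (hV : ¬ p ∣ Nat.card V) :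
    Mon R (NC (I.jS C)) (I.V0 (sSup C)) (NC C) where
  i :=
    { toFun := fun v => ⟨I.i v, by
        have := I.form_mem_NC v.2 (NC C).one_mem
        rwa [map_one, mul_one] at this⟩
      map_one' := Subtype.ext (by simp)
      map_mul' := fun v w => Subtype.ext (by simp) }
  j :=
    { toFun := fun g => ⟨I.j g, by
        have := I.form_mem_NC (I.V0 (sSup C)).one_mem g.2
        rwa [map_one, one_mul] at this⟩
      map_one' := Subtype.ext (by simp)
      map_mul' := fun v w => Subtype.ext (by simp) }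
  act := (I.act0 (sSup C)).comp (Subgroup.inclusion (NC_le C))
  lam := I.lam.comp (I.V0 (sSup C)).subtype
  act_spec x v := Subtype.ext (I.act_spec (x : G) (v : V))
  lam_act x v := I.lam_act (x : G) (v : V)
  inj v g h := by
    obtain ⟨h1, h2⟩ := I.inj v g (congrArg Subtype.val h)
    exact ⟨Subtype.ext h1, Subtype.ext h2⟩
  mackey x hx := by
    have hxY : (x : X) ∉ I.Y := by
      rintro ⟨v, g, hvg⟩
      have h5 := I.of_form_mem_NC (C := C) (v := v) (g := g) (by rw [hvg]; exact x.2)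
      exact hx ⟨⟨v, h5.1⟩, ⟨g, h5.2⟩, Subtype.ext hvg⟩
    obtain ⟨v, v', h1, h2, h3, h4⟩ := I.mackey0 (sSup C) hT hV (I.NC_jS_le C x.2) hxY
    exact ⟨⟨v, h3⟩, ⟨v', h4⟩, Subtype.ext h1, h2⟩

/-- the data for the quotient of the stabiliser of a chain by the smallest subgroup -/
def lev {p : ℕ} [hp : Fact p.Prime] (C : Set (Subgroup G)) (hC : C.Nonempty)
    (hT : IsPGroup p (sSup C : Subgroup G)) (hV : ¬ p ∣ Nat.card V) :
    Mon R (KC (I.jS C)) (I.V0 (sSup C)) (KC C) :=
  (I.norC C hT hV).quo (pk (I.jS C)) (pk_surj _) (pk C) (pk_surj _)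
    (fun g hg => pk_one.mpr ((I.mem_sInf_jS hC).mpr ⟨g, pk_one.mp hg, rfl⟩))
    (fun x hx => by
      obtain ⟨g, hg, hgx⟩ := (I.mem_sInf_jS hC).mp (pk_one.mp hx)
      have h2 := I.of_form_mem_NC (C := C) (v := 1) (g := g) (by
        rw [map_one, one_mul, hgx]
        exact x.2)
      exact ⟨⟨g, h2.2⟩, pk_one.mpr hg, Subtype.ext hgx⟩)
    (fun g hg v => by
      apply Subtype.ext
      obtain ⟨P, hP⟩ := hC
      have h1 : (g : G) ∈ sSup C :=
        (le_sSup hP : P ≤ sSup C) ((sInf_le hP : sInf C ≤ P) (pk_one.mp hg))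
      exact v.2 (g : G) h1)

end norC

end Mon

end Pool.Agent.H373.MN
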