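import Pool.Agent.H373.MN.H2

set_option autoImplicit false
set_option linter.unusedSectionVars false
set_option linter.style.haveILetI false

open scoped BigOperators Classical

noncomputable section

namespace Pool.Agent.H373.MN

open Pool.Agent.H373.BU hiding Ind

open MonoidAlgebra hiding coeff_sum

namespace Mon

section conj

variable {R X V G : Type} [CommRing R] [Group X] [Group V] [Group G]
  (I : Mon R X V G) [Finite V]

/-- a `p`-subgroup of the stabiliser is conjugate by an element of `V` to a subgroup of `G` -/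
theorem exists_conj' {p : ℕ} [hp : Fact p.Prime] (D : Subgroup X) [Finite D] (hD : IsPGroup p D)
    (hV : ¬ p ∣ Nat.card V) {y : X} (hy : ∀ d ∈ D, y⁻¹ * d * y ∈ I.Y) :
    ∃ v : V, ∀ d ∈ D, ∃ g, I.j g = (y * I.i v)⁻¹ * d * (y * I.i v) := by
  letI : MulAction D (X ⧸ I.j.range) := MulAction.compHom _ D.subtype
  have hsm : ∀ (d : D) (x : X), d • (QuotientGroup.mk x : X ⧸ I.j.range) =
      QuotientGroup.mk (d * x) := fun _ _ => rfl
  have key : ∀ (d : D) (v : V), ∃ v' : V, (QuotientGroup.mk (d * (y * I.i v)) :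
      X ⧸ I.j.range) = QuotientGroup.mk (y * I.i v') := by
    intro d v
    obtain ⟨a, b, hab⟩ := hy d d.2
    refine ⟨a * I.act b v, ?_⟩
    rw [QuotientGroup.eq]
    refine ⟨b⁻¹, ?_⟩
    have h1 : (d : X) * (y * I.i v) = y * (I.i a * I.j b) * I.i v := by
      rw [hab]
      group
    rw [h1, map_inv, map_mul, I.act_spec]
    group
  let S : SubMulAction D (X ⧸ I.j.range) :=
    { carrier := {c | ∃ v : V, c = QuotientGroup.mk (y * I.i v)}
      smul_mem' := by
        rintro d _ ⟨v, rfl⟩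
        obtain ⟨v', h⟩ := key d v
        exact ⟨v', by rw [hsm, h]⟩ }
  have hcard : Nat.card V = Nat.card S := by
    refine Nat.card_congr (Equiv.ofBijective
      (fun v => (⟨QuotientGroup.mk (y * I.i v), v, rfl⟩ : S)) ⟨?_, ?_⟩)
    · intro v w h
      have h1 := QuotientGroup.eq.mp (congrArg Subtype.val h)
      obtain ⟨g, hg⟩ := h1
      have h2 : I.i w * I.j 1 = I.i v * I.j g := by
        rw [hg, map_one]
        group
      exact (I.uniq h2).1.symm
    · rintro ⟨_, v, rfl⟩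
      exact ⟨v, rfl⟩
  haveI : Finite S := Nat.finite_of_card_ne_zero (by rw [← hcard]; exact Nat.card_pos.ne')
  obtain ⟨⟨c, v, hv⟩, hc⟩ := hD.nonempty_fixed_point_of_prime_not_dvd_card S (by rwa [← hcard])
  refine ⟨v, fun d hd => ?_⟩
  have h1 : ((⟨d, hd⟩ : D) • c) = c := congrArg Subtype.val (hc ⟨d, hd⟩)
  rw [hv, hsm] at h1
  have h2 := QuotientGroup.eq.mp h1.symm
  obtain ⟨g, hg⟩ := h2
  refine ⟨g, ?_⟩
  rw [hg]
  group

/-- conjugation by an element of the stabiliser -/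
theorem cj_form {C₁ C₂ : Set (Subgroup G)} {a : V} {g : G}
    (h : Cj (I.i a * I.j g) (I.jS C₁) (I.jS C₂)) : Cj g C₁ C₂ ∧ a ∈ I.V0 (sSup C₂) := by
  have key : ∀ P Q : Subgroup G, cs (I.i a * I.j g) (P.map I.j) = Q.map I.j →
      cs g P = Q ∧ a ∈ I.V0 Q := by
    intro P Q hPQ
    have h1 : ∀ d ∈ P, g * d * g⁻¹ ∈ Q ∧ I.act (g * d * g⁻¹) a = a := by
      intro d hd
      have h2 : (I.i a * I.j g) * I.j d * (I.i a * I.j g)⁻¹ ∈ Q.map I.j := by
        rw [← hPQ, cs_mem]
        exact ⟨d, hd, rfl⟩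
      obtain ⟨d', hd', h3⟩ := h2
      change I.j d' = _ at h3
      rw [I.conj_form] at h3
      have h4 := I.uniq (v := 1) (g := d') (v' := a * I.act (g * d * g⁻¹) a⁻¹)
        (g' := g * d * g⁻¹) (by rw [map_one, one_mul]; exact h3)
      refine ⟨h4.2 ▸ hd', ?_⟩
      have h5 := h4.1
      rw [map_inv, eq_mul_inv_iff_mul_eq, one_mul] at h5
      exact h5
    have h6 : ∀ d' ∈ Q, ∃ d ∈ P, d' = g * d * g⁻¹ := by
      intro d' hd'
      have h7 : I.j d' ∈ cs (I.i a * I.j g) (P.map I.j) := by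
        rw [hPQ]
        exact ⟨d', hd', rfl⟩
      rw [mem_cs] at h7
      obtain ⟨d, hd, h8⟩ := h7
      change I.j d = _ at h8
      refine ⟨d, hd, ?_⟩
      have h9 : I.j d' = (I.i a * I.j g) * I.j d * (I.i a * I.j g)⁻¹ := by
        rw [h8]
        group
      rw [I.conj_form] at h9
      exact (I.uniq (v := 1) (g := d') (v' := a * I.act (g * d * g⁻¹) a⁻¹)
        (by rw [map_one, one_mul]; exact h9)).2
    constructor
    · ext x
      constructor
      · intro hx
        have h7 := (h1 _ (mem_cs.mp hx)).1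
        have h8 : g * (g⁻¹ * x * g) * g⁻¹ = x := by group
        rwa [h8] at h7
      · intro hx
        obtain ⟨d, hd, rfl⟩ := h6 x hx
        exact cs_mem.mpr hd
    · intro d' hd'
      obtain ⟨d, hd, rfl⟩ := h6 d' hd'
      exact (h1 d hd).2
  have h1 : ∀ P ∈ C₁, ∃ Q ∈ C₂, cs g P = Q ∧ a ∈ I.V0 Q := by
    intro P hP
    obtain ⟨Q, hQ, hPQ⟩ := h.mem (P := P.map I.j) ⟨P, hP, rfl⟩
    exact ⟨Q, hQ, key P Q hPQ.symm⟩
  have h2 : ∀ Q ∈ C₂, ∃ P ∈ C₁, cs g P = Q ∧ a ∈ I.V0 Q := by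
    intro Q hQ
    have h3 : Q.map I.j ∈ cs (I.i a * I.j g) '' I.jS C₁ := by
      unfold Cj at h
      rw [h]
      exact ⟨Q, hQ, rfl⟩
    obtain ⟨_, ⟨P, hP, rfl⟩, h4⟩ := h3
    exact ⟨P, hP, key P Q h4⟩
  constructor
  · unfold Cj
    ext Q
    constructor
    · rintro ⟨P, hP, rfl⟩
      obtain ⟨Q, hQ, h3, -⟩ := h1 P hP
      rwa [h3]
    · intro hQ
      obtain ⟨P, hP, h3, -⟩ := h2 Q hQ
      exact ⟨P, hP, h3⟩
  · rw [I.V0_sSup]
    intro Q hQ
    obtain ⟨P, hP, -, h3⟩ := h2 Q hQ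
    exact h3

theorem cj_j {C₁ C₂ : Set (Subgroup G)} {g : G} (h : Cj g C₁ C₂) :
    Cj (I.j g) (I.jS C₁) (I.jS C₂) := by
  have key : ∀ P : Subgroup G, cs (I.j g) (P.map I.j) = (cs g P).map I.j := by
    intro P
    ext x
    constructor
    · intro hx
      rw [mem_cs] at hx
      obtain ⟨d, hd, hdx⟩ := hx
      change I.j d = _ at hdx
      refine ⟨g * d * g⁻¹, cs_mem.mpr hd, ?_⟩
      rw [map_mul, map_mul, map_inv, hdx]
      group
    · rintro ⟨d, hd, rfl⟩
      rw [mem_cs]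
      refine ⟨g⁻¹ * d * g, mem_cs.mp hd, ?_⟩
      rw [map_mul, map_mul, map_inv]
  unfold Cj at h ⊢
  rw [← h]
  unfold jS
  rw [Set.image_image, Set.image_image]
  exact Set.image_congr fun P _ => key P

end conj

section main

variable {p : ℕ} [hp : Fact p.Prime] {k X V G : Type} [Field k] [CharP k p] [Group X]
  [Group V] [Group G] [Fintype X] [Fintype V] [Finite G] (I : Mon k X V G)
  (hV : ¬ p ∣ Nat.card V)

theorem norC_Y {C : Set (Subgroup G)} (hT : IsPGroup p (sSup C : Subgroup G))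
    (n : NC (I.jS C)) : n ∈ (I.norC C hT hV).Y ↔ (n : X) ∈ I.Y := by
  constructor
  · rintro ⟨v, g, h⟩
    exact ⟨v, g, congrArg Subtype.val h⟩
  · rintro ⟨v, g, h⟩
    have h1 := I.of_form_mem_NC (C := C) (v := v) (g := g) (by rw [h]; exact n.2)
    exact ⟨⟨v, h1.1⟩, ⟨g, h1.2⟩, Subtype.ext h⟩

theorem brc_ep_io {C : Set (Subgroup G)} (hT : IsPGroup p (sSup C : Subgroup G)) (u : k)
    (b : MonoidAlgebra k G) : brc (I.jS C) (I.ep u * I.io b) =
      (I.norC C hT hV).ep u * (I.norC C hT hV).io (brc C b) := by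
  apply ext_coeff
  intro n
  rw [brc_coeff]
  have hcn : (n : X) ∈ Subgroup.centralizer ((sSup (I.jS C) : Subgroup X) : Set X) ↔
      I.Cn (sSup C) n := by
    rw [I.sSup_jS]
    exact I.cn_iff (sSup C) n
  by_cases hY : (n : X) ∈ I.Y
  · obtain ⟨v, g, hn⟩ := hY
    have h1 := I.of_form_mem_NC (C := C) (v := v) (g := g) (by rw [hn]; exact n.2)
    have h2 : (I.norC C hT hV).i ⟨v, h1.1⟩ * (I.norC C hT hV).j ⟨g, h1.2⟩ = n := Subtype.ext hn
    have h3 : ((I.norC C hT hV).ep u * (I.norC C hT hV).io (brc C b)).coeff n =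
        u * ((I.lam v⁻¹ : kˣ) : k) * (brc C b).coeff ⟨g, h1.2⟩ := by
      rw [← h2, (I.norC C hT hV).coeff_form]
      rfl
    rw [h3, brc_coeff]
    by_cases h : g ∈ Subgroup.centralizer ((sSup C : Subgroup G) : Set G)
    · rw [if_pos h, if_pos, ← hn, I.coeff_form]
      rw [hcn, ← hn]
      refine I.form_cn (sSup C) h1.1 fun d hd => ?_
      exact (Subgroup.mem_centralizer_iff.mp h d hd).symm
    · rw [if_neg h, if_neg, mul_zero]
      intro h4
      apply h
      rw [hcn, ← hn] at h4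
      rw [Subgroup.mem_centralizer_iff]
      intro d hd
      exact (I.cn_form (sSup C) h4 d hd).symm
  · have h1 : n ∉ (I.norC C hT hV).Y := by
      rwa [I.norC_Y hV hT]
    rw [(I.norC C hT hV).coeff_not _ h1, I.coeff_not _ hY, ite_self]

theorem bq_ep_io {C : Set (Subgroup G)} (hC : C.Nonempty)
    (hT : IsPGroup p (sSup C : Subgroup G)) (u : k) (b : MonoidAlgebra k G) :
    bq (I.jS C) (I.ep u * I.io b) =
      (I.lev C hC hT hV).ep u * (I.lev C hC hT hV).io (bq C b) := by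
  unfold bq lev
  rw [I.brc_ep_io hV hT, map_mul, quo_ep, quo_io]

end main

end Mon

end Pool.Agent.H373.MN
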