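import Mathlib

/-!
# Every finite group is the automorphism group of an irreflexive binary relation

The vertices and the arguments are those of the library module
`Pool.Graph.R_pool_sql_team_seeded_9f66d723.W5h64.UM.Rel`; the relation is made irreflexive, and the
labels are recognised by well-foundedness.
-/

set_option autoImplicit false
set_option linter.unusedSectionVars false

open scoped BigOperators Classical

noncomputable section

namespace Pool.Agent.H373.MN.Irr

/-- The vertices: two copies of `H`, the arcs `(x, y)`, and the labels. -/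
inductive Vx (H : Type) (m : ℕ) : Type
  | a : H → Vx H m
  | t : H → Vx H m
  | e : H → H → Vx H m
  | l : Fin m → Vx H m

open Vx

variable {H : Type} [Group H] {m : ℕ}

/-- the relation -/
def Rl (ℓ : H → Fin m) : Vx H m → Vx H m → Prop
  | l i, l j => i < j
  | e x y, l i => i = ℓ (x⁻¹ * y)
  | a x, e x' _ => x = x'
  | e _ y, a y' => y = y'
  | t x, a x' => x = x'
  | _, _ => False

theorem Rl_irrefl (ℓ : H → Fin m) (u : Vx H m) : ¬ Rl ℓ u u := by
  cases u <;> simp [Rl]

/-- the action of `H` -/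
def act (g : H) : Vx H m → Vx H m
  | a x => a (g * x)
  | t x => t (g * x)
  | e x y => e (g * x) (g * y)
  | l i => l i

theorem act_one (u : Vx H m) : act (1 : H) u = u := by
  cases u <;> simp [act]

theorem act_mul (g h : H) (u : Vx H m) : act (g * h) u = act g (act h u) := by
  cases u <;> simp [act, mul_assoc]

/-- the action as a homomorphism -/
def actH (H : Type) [Group H] (m : ℕ) : H →* Equiv.Perm (Vx H m) where
  toFun g :=
    { toFun := act g
      invFun := act g⁻¹
      left_inv := fun u => by rw [← act_mul, inv_mul_cancel, act_one]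
      right_inv := fun u => by rw [← act_mul, mul_inv_cancel, act_one] }
  map_one' := Equiv.ext fun u => act_one u
  map_mul' g h := Equiv.ext fun u => act_mul g h u

theorem actH_apply (g : H) (u : Vx H m) : actH H m g u = act g u := rfl

theorem actH_inj : Function.Injective (actH H m) := by
  intro g h hgh
  have h1 := congrArg (fun σ : Equiv.Perm (Vx H m) => σ (a 1)) hgh
  have h2 : (a (g * 1) : Vx H m) = a (h * 1) := h1
  injection h2 with h3
  rwa [mul_one, mul_one] at h3

theorem Rl_act (ℓ : H → Fin m) (g : H) (u v : Vx H m) :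
    Rl ℓ (act g u) (act g v) ↔ Rl ℓ u v := by
  cases u <;> cases v <;> simp [act, Rl, mul_assoc]

/-! ### the automorphisms -/

section aut

variable {ℓ : H → Fin m}

/-- the labels are the vertices from which all directed paths are finite -/
theorem label_iff (u : Vx H m) : (∃ i, u = l i) ↔ Acc (fun v u => Rl ℓ u v) u := by
  constructor
  · rintro ⟨i, rfl⟩
    induction h : m - (i : ℕ) using Nat.strong_induction_on generalizing i with
    | _ k ih =>
      refine ⟨_, fun v hv => ?_⟩
      cases v with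
      | l j =>
        have hij : (i : ℕ) < (j : ℕ) := hv
        have := j.isLt
        exact ih (m - (j : ℕ)) (by omega) j rfl
      | a x => exact absurd hv (by simp [Rl])
      | t x => exact absurd hv (by simp [Rl])
      | e x y => exact absurd hv (by simp [Rl])
  · intro h
    induction h with
    | intro u _ ih =>
      cases u with
      | l i => exact ⟨i, rfl⟩
      | a x =>
        obtain ⟨i, hi⟩ := ih (e x x) rfl
        cases hi
      | t x =>
        obtain ⟨i, hi⟩ := ih (a x) rfl
        cases hi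
      | e x y =>
        obtain ⟨i, hi⟩ := ih (a y) rfl
        cases hi

theorem arc_iff (u : Vx H m) :
    (∃ x y, u = e x y) ↔ (¬ ∃ i, u = l i) ∧ ∃ i, Rl ℓ u (l i) := by
  cases u <;> simp [Rl]

theorem a_iff (u : Vx H m) :
    (∃ x, u = a x) ↔ (¬ ∃ i, u = l i) ∧ (¬ ∃ i, Rl ℓ u (l i)) ∧ ∃ v, Rl ℓ v u := by
  cases u with
  | a x => simpa [Rl] using ⟨t x, rfl⟩
  | t x =>
    simp only [reduceCtorEq, exists_false, false_iff, not_and, not_exists]
    intro _ _ v
    cases v <;> simp [Rl]
  | e x y => simp [Rl]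
  | l i => simp [Rl]

theorem t_iff (u : Vx H m) :
    (∃ x, u = t x) ↔ (¬ ∃ i, u = l i) ∧ (¬ ∃ i, Rl ℓ u (l i)) ∧ ¬ ∃ v, Rl ℓ v u := by
  cases u with
  | a x =>
    simp only [reduceCtorEq, exists_false, false_iff, not_and, not_not]
    intro _ _
    exact ⟨t x, rfl⟩
  | t x =>
    simp only [t.injEq, exists_eq', true_iff]
    refine ⟨?_, fun ⟨i, h⟩ => h, fun ⟨v, hv⟩ => ?_⟩
    · rintro ⟨i, hi⟩
      cases hi
    · cases v <;> simp [Rl] at hv
  | e x y => simp [Rl]
  | l i => simp [Rl]

theorem mono_id {φ : Fin m → Fin m} (h : ∀ i j, φ i < φ j ↔ i < j) (i : Fin m) : φ i = i := by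
  have hinj : Function.Injective φ := fun i j hij => by
    by_contra hne
    rcases lt_or_gt_of_ne hne with h1 | h1
    · exact absurd ((h i j).mpr h1) (by rw [hij]; exact lt_irrefl _)
    · exact absurd ((h j i).mpr h1) (by rw [hij]; exact lt_irrefl _)
  have hb : Function.Bijective φ := Finite.injective_iff_bijective.mp hinj
  let E : Fin m ≃o Fin m :=
    { Equiv.ofBijective φ hb with
      map_rel_iff' := fun {i j} => by
        change φ i ≤ φ j ↔ i ≤ j
        rw [← not_lt, h, not_lt] }
  have h1 : E = OrderIso.refl _ := Subsingleton.elim _ _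
  exact congrArg (fun E : Fin m ≃o Fin m => E i) h1

variable {f : Equiv.Perm (Vx H m)} (hf : ∀ u v, Rl ℓ (f u) (f v) ↔ Rl ℓ u v)

include hf

theorem aut_label (u : Vx H m) : (∃ i, f u = l i) ↔ ∃ i, u = l i := by
  rw [label_iff (ℓ := ℓ), label_iff (ℓ := ℓ)]
  constructor
  · intro h
    generalize hw : f u = w at h
    induction h generalizing u with
    | intro w _ ih =>
      subst hw
      exact ⟨_, fun v hv => ih (f v) ((hf _ _).mpr hv) v rfl⟩
  · intro h
    induction h with
    | intro u _ ih =>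
      refine ⟨_, fun v hv => ?_⟩
      have h1 := ih (f.symm v) (by
        rw [← hf, Equiv.apply_symm_apply]
        exact hv)
      rwa [Equiv.apply_symm_apply] at h1

theorem aut_l (i : Fin m) : f (l i) = l i := by
  have h1 : ∀ i, ∃ j, f (l i) = l j := fun i => (aut_label hf _).mpr ⟨i, rfl⟩
  choose φ hφ using h1
  rw [hφ, mono_id (φ := φ)]
  intro i j
  have := hf (l i) (l j)
  rw [hφ, hφ] at this
  exact this

theorem aut_out (u : Vx H m) : (∃ i, Rl ℓ (f u) (l i)) ↔ ∃ i, Rl ℓ u (l i) := by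
  constructor
  · rintro ⟨i, hi⟩
    refine ⟨i, (hf _ _).mp ?_⟩
    rwa [aut_l hf]
  · rintro ⟨i, hi⟩
    have := (hf _ _).mpr hi
    rw [aut_l hf] at this
    exact ⟨i, this⟩

theorem aut_in (u : Vx H m) : (∃ v, Rl ℓ v (f u)) ↔ ∃ v, Rl ℓ v u := by
  constructor
  · rintro ⟨v, hv⟩
    refine ⟨f.symm v, (hf _ _).mp ?_⟩
    rwa [Equiv.apply_symm_apply]
  · rintro ⟨v, hv⟩
    exact ⟨f v, (hf _ _).mpr hv⟩

theorem aut_e (x y : H) : ∃ x' y', f (e x y) = e x' y' := by
  rw [arc_iff (ℓ := ℓ), aut_label hf, aut_out hf]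
  exact (arc_iff _).mp ⟨x, y, rfl⟩

theorem aut_a (x : H) : ∃ x', f (a x) = a x' := by
  rw [a_iff (ℓ := ℓ), aut_label hf, aut_out hf, aut_in hf]
  exact (a_iff _).mp ⟨x, rfl⟩

theorem aut_t (x : H) : ∃ x', f (t x) = t x' := by
  rw [t_iff (ℓ := ℓ), aut_label hf, aut_out hf, aut_in hf]
  exact (t_iff _).mp ⟨x, rfl⟩

theorem aut_act (hℓ : Function.Injective ℓ) : ∃ g, actH H m g = f := by
  choose α hα using aut_a hf
  choose τ hτ using aut_t hf
  choose β γ hβ using aut_e hf
  have h1 : ∀ x y, β x y = α x := fun x y => by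
    have h := (hf (a x) (e x y)).mpr rfl
    rw [hα, hβ] at h
    exact Eq.symm h
  have h2 : ∀ x y, γ x y = α y := fun x y => by
    have h := (hf (e x y) (a y)).mpr rfl
    rw [hα, hβ] at h
    exact h
  have h3 : ∀ x, τ x = α x := fun x => by
    have h := (hf (t x) (a x)).mpr rfl
    rw [hα, hτ] at h
    exact h
  have h4 : ∀ y, α y = α 1 * y := fun y => by
    have h := (hf (e 1 y) (l (ℓ (1⁻¹ * y)))).mpr rfl
    rw [hβ, aut_l hf] at h
    have h5 := hℓ h
    rw [h1, h2, inv_one, one_mul] at h5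
    exact eq_mul_of_inv_mul_eq h5.symm
  refine ⟨α 1, Equiv.ext fun u => ?_⟩
  rw [actH_apply]
  cases u with
  | a x => rw [hα, h4 x]; rfl
  | t x => rw [hτ, h3, h4 x]; rfl
  | e x y => rw [hβ, h1, h2, h4 x, h4 y]; rfl
  | l i => rw [aut_l hf]; rfl

end aut

/-! ### the sign -/

/-- the vertices as a sum -/
def eqS (H : Type) (m : ℕ) : Vx H m ≃ (H ⊕ H) ⊕ ((H × H) ⊕ Fin m) where
  toFun
    | a x => Sum.inl (Sum.inl x)
    | t x => Sum.inl (Sum.inr x)
    | e x y => Sum.inr (Sum.inl (x, y))
    | l i => Sum.inr (Sum.inr i)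
  invFun
    | Sum.inl (Sum.inl x) => a x
    | Sum.inl (Sum.inr x) => t x
    | Sum.inr (Sum.inl (x, y)) => e x y
    | Sum.inr (Sum.inr i) => l i
  left_inv u := by cases u <;> rfl
  right_inv u := by rcases u with (u | u) | (⟨u, v⟩ | u) <;> rfl

variable [Fintype H]

instance : Fintype (Vx H m) := Fintype.ofEquiv _ (eqS H m).symm

theorem card_Vx : Fintype.card (Vx H m) = Fintype.card H ^ 2 + 2 * Fintype.card H + m := by
  rw [Fintype.card_congr (eqS H m), Fintype.card_sum, Fintype.card_sum, Fintype.card_sum,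
    Fintype.card_prod, Fintype.card_fin]
  ring

theorem sign_prod (σ : Equiv.Perm H) : Equiv.Perm.sign (Equiv.prodCongr σ σ) = 1 := by
  have h1 : Equiv.prodCongr σ σ = (Equiv.prodCongr σ (1 : Equiv.Perm H)) *
      (Equiv.prodCongr (1 : Equiv.Perm H) σ) := by
    ext x <;> rfl
  have h2 : Equiv.Perm.sign (Equiv.prodCongr σ (1 : Equiv.Perm H)) =
      Equiv.Perm.sign (Equiv.prodCongr (1 : Equiv.Perm H) σ) :=
    Equiv.Perm.sign_eq_sign_of_equiv _ _ (Equiv.prodComm H H) (fun x => rfl)
  rw [h1, Equiv.Perm.sign_mul, h2, Int.units_mul_self]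

theorem sign_act (g : H) : Equiv.Perm.sign (actH H m g) = 1 := by
  rw [Equiv.Perm.sign_eq_sign_of_equiv (actH H m g)
    (Equiv.Perm.sumCongr (Equiv.Perm.sumCongr (Equiv.mulLeft g) (Equiv.mulLeft g))
      (Equiv.Perm.sumCongr (Equiv.prodCongr (Equiv.mulLeft g) (Equiv.mulLeft g)) 1))
    (eqS H m) (fun u => by cases u <;> rfl), Equiv.Perm.sign_sumCongr,
    Equiv.Perm.sign_sumCongr, Equiv.Perm.sign_sumCongr, sign_prod, Int.units_mul_self,
    Equiv.Perm.sign_one, one_mul, one_mul]

/-- **Every finite group `H` is the automorphism group of an irreflexive binary relation on `n`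
points**, for each `n ≥ |H| ^ 2 + 3 |H|`, and it acts by even permutations. -/
theorem exists_rel {n : ℕ} (hn : Fintype.card H ^ 2 + 3 * Fintype.card H ≤ n) :
    ∃ (R : Fin n → Fin n → Prop) (ι : H →* Equiv.Perm (Fin n)), (∀ i, ¬ R i i) ∧
      Function.Injective ι ∧ (∀ g, Equiv.Perm.sign (ι g) = 1) ∧
      ∀ σ : Equiv.Perm (Fin n), (∀ i j, R (σ i) (σ j) ↔ R i j) ↔ ∃ g, ι g = σ := by
  obtain ⟨m, hm⟩ : ∃ m, n = Fintype.card H ^ 2 + 2 * Fintype.card H + m :=
    ⟨n - (Fintype.card H ^ 2 + 2 * Fintype.card H), by omega⟩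
  have hHm : Fintype.card H ≤ m := by omega
  obtain ⟨ℓ, hℓ⟩ : ∃ ℓ : H → Fin m, Function.Injective ℓ := by
    refine ⟨fun x => Fin.castLE hHm (Fintype.equivFin H x), fun x y h => ?_⟩
    exact (Fintype.equivFin H).injective (Fin.castLE_injective hHm h)
  have hcard : Fintype.card (Vx H m) = n := by rw [card_Vx, hm]
  let E : Vx H m ≃ Fin n := Fintype.equivFinOfCardEq hcard
  let c : Equiv.Perm (Vx H m) ≃* Equiv.Perm (Fin n) := E.permCongrHom
  have hc : ∀ σ u, c σ (E u) = E (σ u) := fun σ u => by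
    change E (σ (E.symm (E u))) = _
    rw [Equiv.symm_apply_apply]
  refine ⟨fun i j => Rl ℓ (E.symm i) (E.symm j), c.toMonoidHom.comp (actH H m),
    fun i => Rl_irrefl ℓ _, c.injective.comp actH_inj, fun g => ?_, fun σ => ?_⟩
  · change Equiv.Perm.sign (E.permCongr (actH H m g)) = 1
    rw [Equiv.Perm.sign_permCongr, sign_act]
  · obtain ⟨f, rfl⟩ := c.surjective σ
    constructor
    · intro h
      obtain ⟨g, hg⟩ := aut_act (f := f) (ℓ := ℓ) (fun u v => by
        have h1 := h (E u) (E v)
        rw [hc, hc] at h1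
        beta_reduce at h1
        rwa [Equiv.symm_apply_apply, Equiv.symm_apply_apply, Equiv.symm_apply_apply,
          Equiv.symm_apply_apply] at h1) hℓ
      exact ⟨g, congrArg c hg⟩
    · rintro ⟨g, hg⟩
      have hg' : actH H m g = f := c.injective hg
      intro i j
      obtain ⟨u, rfl⟩ := E.surjective i
      obtain ⟨v, rfl⟩ := E.surjective j
      rw [hc, hc]
      beta_reduce
      rw [Equiv.symm_apply_apply, Equiv.symm_apply_apply, Equiv.symm_apply_apply,
        Equiv.symm_apply_apply, ← hg']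
      exact Rl_act ℓ g u v

end Pool.Agent.H373.MN.Irr
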