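import Pool.Agent.H373.MN.W4
import Pool.Agent.H373.MN.Rel
import Pool.Agent.H373.BU.E2

/-!
# The permutational wreath products of `PSL(2, q)` and `A_n` (on ordered pairs)
-/

set_option autoImplicit false
set_option linter.unusedSectionVars false
set_option linter.style.haveILetI false

open scoped BigOperators Classical MatrixGroups

noncomputable section

namespace Pool.Agent.H373.MN

open Pool.Agent.H373.BU hiding Ind

open MonoidAlgebra hiding coeff_sum

/-- The ordered pairs `(i, j)` with `i ≠ j`, where `i, j` are among `n` points. -/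
def Arc (n : ℕ) : Type := {ω : Fin n × Fin n // ω.1 ≠ ω.2}

instance (n : ℕ) : Fintype (Arc n) :=
  (inferInstance : Fintype {ω : Fin n × Fin n // ω.1 ≠ ω.2})

/-- The alternating group acts on the ordered pairs of distinct points. -/
instance (n : ℕ) : MulAction (alternatingGroup (Fin n)) (Arc n) where
  smul σ ω := ⟨((σ : Equiv.Perm (Fin n)) ω.1.1, (σ : Equiv.Perm (Fin n)) ω.1.2),
    fun h => ω.2 ((σ : Equiv.Perm (Fin n)).injective h)⟩
  one_smul _ := rfl
  mul_smul _ _ _ := rfl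

theorem smul_arc_fst {n : ℕ} (σ : alternatingGroup (Fin n)) (ω : Arc n) :
    (σ • ω).1.1 = (σ : Equiv.Perm (Fin n)) ω.1.1 := rfl

theorem smul_arc_snd {n : ℕ} (σ : alternatingGroup (Fin n)) (ω : Arc n) :
    (σ • ω).1.2 = (σ : Equiv.Perm (Fin n)) ω.1.2 := rfl

/-- The permutational wreath product `PSL(2, q) ^ (n (n - 1)) ⋊ A_n`: the alternating group of
degree `n` permutes the factors, which are indexed by the ordered pairs of distinct points. -/
def XP (n q : ℕ) : Type := Wr PSL(2, ZMod q) (Arc n) (alternatingGroup (Fin n))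

instance (n q : ℕ) : Group (XP n q) :=
  (inferInstance : Group (Wr PSL(2, ZMod q) (Arc n) (alternatingGroup (Fin n))))

instance finite_XP (n q : ℕ) [NeZero q] : Finite (XP n q) :=
  (inferInstance : Finite (Wr PSL(2, ZMod q) (Arc n) (alternatingGroup (Fin n))))

theorem card_arc (n : ℕ) : Fintype.card (Arc n) = n * (n - 1) := by
  have h1 : Fintype.card (Arc n) = Fintype.card (Fin 2 ↪ Fin n) := by
    refine Fintype.card_congr
      { toFun := fun ω => ⟨fun i => if i = 0 then ω.1.1 else ω.1.2, fun i j hij => ?_⟩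
        invFun := fun f => ⟨(f 0, f 1), fun h => absurd (f.injective h) (by decide)⟩
        left_inv := fun ω => rfl
        right_inv := fun f => ?_ }
    · have h2 := ω.2
      fin_cases i <;> fin_cases j
      · rfl
      · exact absurd hij h2
      · exact absurd hij.symm h2
      · rfl
    · ext i
      fin_cases i <;> rfl
  rw [h1, Fintype.card_embedding_eq, Fintype.card_fin, Fintype.card_fin, Nat.descFactorial_succ,
    Nat.descFactorial_one, mul_comm]

section arc

variable {n : ℕ} (hn : 5 ≤ n)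

include hn in
theorem nonempty_arc : Nonempty (Arc n) :=
  ⟨⟨(⟨0, by omega⟩, ⟨1, by omega⟩), fun h => absurd (congrArg Fin.val h) (by
    change ¬ (0 = 1)
    decide)⟩⟩

include hn in
theorem faithful_arc : FaithfulSMul (alternatingGroup (Fin n)) (Arc n) where
  eq_of_smul_eq_smul {a b} h := by
    apply Subtype.ext
    ext i
    have h1 : ∃ j : Fin n, i ≠ j := by
      haveI : Nontrivial (Fin n) := Fin.nontrivial_iff_two_le.mpr (by omega)
      obtain ⟨j, hj⟩ := exists_ne i
      exact ⟨j, hj.symm⟩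
    obtain ⟨j, hj⟩ := h1
    have h2 := congrArg (fun ω : Arc n => ω.1.1) (h ⟨(i, j), hj⟩)
    exact congrArg Fin.val h2

include hn in
theorem transitive_arc : MulAction.IsPretransitive (alternatingGroup (Fin n)) (Arc n) where
  exists_smul_eq x y := by
    haveI := alternatingGroup.isMultiplyPretransitive (Fin n)
    have h1 : MulAction.IsMultiplyPretransitive (alternatingGroup (Fin n)) (Fin n) 2 :=
      MulAction.isMultiplyPretransitive_of_le (n := Nat.card (Fin n) - 2)
        (by rw [Nat.card_eq_fintype_card, Fintype.card_fin]; omega) (Nat.sub_le _ _)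
    let f : Arc n → (Fin 2 ↪ Fin n) := fun ω =>
      ⟨fun i => if i = 0 then ω.1.1 else ω.1.2, fun i j hij => by
        have h2 := ω.2
        fin_cases i <;> fin_cases j
        · rfl
        · exact absurd hij h2
        · exact absurd hij.symm h2
        · rfl⟩
    obtain ⟨g, hg⟩ := h1.exists_smul_eq (f x) (f y)
    refine ⟨g, Subtype.ext (Prod.ext ?_ ?_)⟩
    · exact congrArg (fun F : Fin 2 ↪ Fin n => F 0) hg
    · exact congrArg (fun F : Fin 2 ↪ Fin n => F 1) hg

end arc

/-- `q > 7` is a prime with `p ∣ q + 1`, and `4 ∣ q + 1` if `p = 2`. -/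
structure Good (p q : ℕ) : Prop where
  prime : q.Prime
  lt : 7 < q
  dvd : p ∣ q + 1
  four : p = 2 → 4 ∣ q + 1

theorem exists_good (p : ℕ) [hp : Fact p.Prime] (N : ℕ) : ∃ q, N < q ∧ Good p q := by
  haveI : NeZero (4 * p) := ⟨by have := hp.out.pos; omega⟩
  obtain ⟨q, h1, h2, h3⟩ := Nat.forall_exists_prime_gt_and_eq_mod (q := 4 * p) (a := -1)
    (isUnit_one.neg) (max N 7)
  have h4 : 4 * p ∣ q + 1 := by
    rw [← ZMod.natCast_eq_zero_iff, Nat.cast_add, h3, Nat.cast_one, neg_add_cancel]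
  exact ⟨q, lt_of_le_of_lt (le_max_left _ _) h1, h2, lt_of_le_of_lt (le_max_right _ _) h1,
    (Dvd.intro_left _ rfl).trans h4, fun _ => (Dvd.intro _ rfl).trans h4⟩

section good

variable {p q : ℕ} [hp : Fact p.Prime] (h : Good p q)

include h in
theorem Good.ndvd : ¬ p ∣ (q - 1) / 2 ∧ 5 ≤ (q - 1) / 2 ∧ q - 1 = 2 * ((q - 1) / 2) ∧
    Nat.gcd (2 * p) (q - 1) ∣ 2 ∧ ¬ q ∣ p := by
  have hodd : q % 2 = 1 := by
    rcases h.prime.eq_two_or_odd with h1 | h1
    · have := h.lt
      omega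
    · exact h1
  have hlt := h.lt
  have h9 : q ≠ 9 := by
    rintro rfl
    exact absurd h.prime (by norm_num)
  have h5 : 5 ≤ (q - 1) / 2 := by omega
  have hm : q - 1 = 2 * ((q - 1) / 2) := by omega
  have h1 : ¬ p ∣ (q - 1) / 2 := by
    intro h1
    have h2 : p ∣ q - 1 := hm ▸ h1.mul_left 2
    have h3 : p ∣ 2 := by
      have h4 := Nat.dvd_sub h.dvd h2
      have h5 : q + 1 - (q - 1) = 2 := by omega
      rwa [h5] at h4
    have h4 : p = 2 := (Nat.prime_dvd_prime_iff_eq hp.out Nat.prime_two).mp h3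
    have h6 := h.four h4
    rw [h4] at h1
    omega
  refine ⟨h1, h5, hm, ?_, ?_⟩
  · rw [hm, Nat.gcd_mul_left]
    have : Nat.gcd p ((q - 1) / 2) = 1 := (Nat.Prime.coprime_iff_not_dvd hp.out).mpr h1
    rw [this]
  · intro h2
    have h3 : q = p := (Nat.prime_dvd_prime_iff_eq h.prime hp.out).mp h2
    have h4 : q ∣ 1 := by
      have h5 := h.dvd
      rw [← h3] at h5
      exact (Nat.dvd_add_right (dvd_refl q)).mp h5
    exact h.prime.one_lt.ne' (Nat.dvd_one.mp h4)

include h in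
theorem exists_col {R : Type} [CommRing R] {ζ : Rˣ} (hζ : IsPrimitiveRoot ζ ((q - 1) / 2)) :
    ∃ C : Col R PSL(2, ZMod q), ∀ c, ¬ p ∣ Nat.card (C.B c) := by
  haveI : Fact q.Prime := ⟨h.prime⟩
  obtain ⟨h1, h2, h3, h4, h5⟩ := h.ndvd
  have hu : Nat.card (ZMod q)ˣ = q - 1 := by
    rw [Nat.card_eq_fintype_card, ZMod.card_units]
  obtain ⟨θ, hθ, ha⟩ := exists_theta (F := ZMod q) (m := (q - 1) / 2) (by rw [hu, ← h3]) hζ h2
  refine ⟨col θ hθ ha, fun c => ?_⟩
  refine card_up (F := ZMod q) ?_ ?_ (by rw [hu]; exact h4)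
  · intro h6
    have h7 : ((2 : ℕ) : ZMod q) = 0 := by exact_mod_cast h6
    rw [ZMod.natCast_eq_zero_iff] at h7
    have := Nat.le_of_dvd (by norm_num) h7
    have := h.lt
    omega
  · intro h6
    rw [ZMod.natCast_eq_zero_iff] at h6
    exact h5 h6

end good

section struct

variable {p q : ℕ} (h : Good p q)

include h in
theorem threeNormal_XP {n : ℕ} (hn : 5 ≤ n) : ThreeNormal p q n (XP n q) := by
  haveI : Fact q.Prime := ⟨h.prime⟩
  haveI := nonempty_arc hn
  haveI := faithful_arc hn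
  haveI := transitive_arc hn
  exact threeNormal_wr h.dvd h.lt hn (card_arc n)

include h in
theorem primitive_XP {n : ℕ} (hn : 5 ≤ n) : IsPrimitiveGroup (XP n q) := by
  haveI : Fact q.Prime := ⟨h.prime⟩
  haveI := nonempty_arc hn
  haveI := faithful_arc hn
  haveI := transitive_arc hn
  exact primitive_wr h.lt

end struct

section data

variable {R : Type} [CommRing R] [IsDomain R] {q : ℕ} (C : Col R PSL(2, ZMod q))
  {G : Type} [Group G]

/-- the data for the group `XP n q` -/
def xMon {n : ℕ} (S : Fin n → Fin n → Prop) (hS0 : ∀ i, ¬ S i i) (ι : G →* Equiv.Perm (Fin n))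
    (hι : Function.Injective ι) (hs : ∀ g, Equiv.Perm.sign (ι g) = 1)
    (hS : ∀ σ : Equiv.Perm (Fin n), (∀ i j, S (σ i) (σ j) ↔ S i j) ↔ ∃ g, ι g = σ) :
    Mon R (XP n q) (C.W fun ω : Arc n => decide (S ω.1.1 ω.1.2)) G :=
  C.mon (H := alternatingGroup (Fin n)) (fun ω : Arc n => decide (S ω.1.1 ω.1.2))
    (ι.codRestrict (alternatingGroup (Fin n)) fun g =>
      Equiv.Perm.mem_alternatingGroup.mpr (hs g))
    (fun a b hab => hι (congrArg Subtype.val hab)) (by
      intro h
      have h1 : (∀ ω : Arc n, decide (S (h • ω).1.1 (h • ω).1.2) = decide (S ω.1.1 ω.1.2)) ↔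
          ∀ i j, S ((h : Equiv.Perm (Fin n)) i) ((h : Equiv.Perm (Fin n)) j) ↔ S i j := by
        constructor
        · intro h2 i j
          by_cases hij : i = j
          · subst hij
            exact ⟨fun h3 => absurd h3 (hS0 _), fun h3 => absurd h3 (hS0 _)⟩
          · exact decide_eq_decide.mp (h2 ⟨(i, j), hij⟩)
        · exact fun h2 ω => decide_eq_decide.mpr (h2 _ _)
      rw [h1, hS]
      exact ⟨fun ⟨g, hg⟩ => ⟨g, Subtype.ext hg⟩, fun ⟨g, hg⟩ => ⟨g, congrArg Subtype.val hg⟩⟩)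

end data

section kb

variable {p q : ℕ} [hp : Fact p.Prime] (h : Good p q)

include h in
theorem att_XP {k : Type} [Field k] [IsAlgClosed k] [CharP k p] {P : Type} [Group P] {m : ℕ}
    {G : Type} [Group G] [Finite G] (hA : Att k P m G) {n : ℕ}
    (hn : Nat.card G ^ 2 + 3 * Nat.card G ≤ n) : Att k P m (XP n q) := by
  haveI : Fact q.Prime := ⟨h.prime⟩
  haveI := Fintype.ofFinite G
  haveI := Fintype.ofFinite (XP n q)
  have hk : ∀ m : ℕ, ¬ p ∣ m → (m : k) ≠ 0 := fun m hm => by
    rwa [Ne, CharP.cast_eq_zero_iff k p]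
  obtain ⟨ζ, hζ⟩ := exists_root (p := p) k (hk _ h.ndvd.1)
  obtain ⟨C, hC⟩ := exists_col h hζ
  obtain ⟨S, ι, hS0, hι, hs, hS⟩ := Irr.exists_rel (H := G) (n := n) (by
    rwa [← Nat.card_eq_fintype_card])
  let I := xMon C S hS0 ι hι hs hS
  haveI := Fintype.ofFinite (C.W fun ω : Arc n => decide (S ω.1.1 ω.1.2))
  have hV : (Fintype.card (C.W fun ω : Arc n => decide (S ω.1.1 ω.1.2)) : k) ≠ 0 := by
    rw [← Nat.card_eq_fintype_card]
    exact hk _ (C.card_W _ hC)
  have hu := inv_mul_cancel₀ hV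
  obtain ⟨e, D, he, hD, ⟨f⟩, hm⟩ := hA
  refine ⟨I.cen _ e, D.map I.j, I.cen_isBlock hu he, I.cen_isMinTr hu he hD,
    ⟨(D.equivMapOfInjective I.j I.j_inj).symm.trans f⟩, ?_⟩
  rw [I.kB_cen hu he.idem he.central, hm]

end kb

section broue

open IsLocalRing

variable {L : Type} [CommRing L] [IsDomain L] [IsDiscreteValuationRing L]
  [IsAdicComplete (maximalIdeal L) L] {p : ℕ} [hp : Fact p.Prime] [CharP (ResidueField L) p]
  {q : ℕ} (h : Good p q)

include h in
/-- the data over a complete discrete valuation ring -/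
theorem exists_mon (hζ : ∃ ζ : L, IsPrimitiveRoot ζ ((q - 1) / 2)) (G : Type) [Group G] [Finite G]
    {n : ℕ} (hn : Nat.card G ^ 2 + 3 * Nat.card G ≤ n) :
    ∃ (V : Type) (_ : Group V) (_ : Finite V) (_ : Mon L (XP n q) V G), ¬ p ∣ Nat.card V := by
  haveI : Fact q.Prime := ⟨h.prime⟩
  haveI := Fintype.ofFinite G
  obtain ⟨ζ, hζ⟩ := hζ
  have h5 := h.ndvd.2.1
  have hζ' : IsPrimitiveRoot (hζ.isUnit (by omega)).unit ((q - 1) / 2) :=
    IsPrimitiveRoot.coe_units_iff.mp (by rwa [IsUnit.unit_spec])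
  obtain ⟨C, hC⟩ := exists_col h hζ'
  obtain ⟨S, ι, hS0, hι, hs, hS⟩ := Irr.exists_rel (H := G) (n := n) (by
    rwa [← Nat.card_eq_fintype_card])
  exact ⟨_, inferInstance, inferInstance, xMon C S hS0 ι hι hs hS, C.card_W _ hC⟩

include h in
theorem repro_XP (hζ : ∃ ζ : L, IsPrimitiveRoot ζ ((q - 1) / 2)) (G : Type) [Group G] [Finite G]
    {n : ℕ} (hn : Nat.card G ^ 2 + 3 * Nat.card G ≤ n) : Reproduces p L G (XP n q) := by
  haveI : Fact q.Prime := ⟨h.prime⟩
  obtain ⟨V, _, _, I, hV⟩ := exists_mon h hζ G hn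
  haveI := Fintype.ofFinite (XP n q)
  haveI := Fintype.ofFinite V
  have hVu : IsUnit ((Nat.card V : ℕ) : L) := by
    rw [← IsLocalRing.notMem_maximalIdeal, ← IsLocalRing.residue_eq_zero_iff, map_natCast,
      CharP.cast_eq_zero_iff (ResidueField L) p]
    exact hV
  obtain ⟨u, hu⟩ := (isUnit_iff_exists_inv'.mp hVu)
  rw [Nat.card_eq_fintype_card] at hu
  rintro ⟨e, he, D, hD, c, hc, hec⟩
  obtain ⟨e', he', D', c', hc', hD', hec', h1, h2, h3, h4⟩ :=
    ind_step I hV hu e he D hD c hc hec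
  exact ⟨⟨e', he', D', hD', c', hc', hec'⟩, h1, h2, h3, h4⟩

end broue

end Pool.Agent.H373.MN
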