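import Pool.Agent.H373.MN.H4
import Pool.Agent.H373.MN.W5
import Pool.Agent.H373.CH.G2

set_option autoImplicit false
set_option linter.unusedSectionVars false
set_option linter.style.haveILetI false

open scoped BigOperators Classical

noncomputable section

namespace Pool.Agent.H373.MN

open Pool.Agent.H373.BU hiding Ind

open MonoidAlgebra hiding coeff_sum

namespace Mon

variable {p : ℕ} [hp : Fact p.Prime] {k X V G : Type} [Field k] [CharP k p] [Group X]
  [Group V] [Group G] [Fintype X] [Fintype V] [Finite G] (I : Mon k X V G)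
  (hV : ¬ p ∣ Nat.card V) {u : k} (hu : u * (Fintype.card V : k) = 1)
  {FG : Set (Set (Subgroup G))} {FX : Set (Set (Subgroup X))}
  (hG : ∀ C ∈ FG, C.Nonempty ∧ IsPGroup p (sSup C : Subgroup G))
  (hX : ∀ C ∈ FX, C.Nonempty ∧ IsPGroup p (sSup C : Subgroup X))
  (hj : ∀ C, I.jS C ∈ FX ↔ C ∈ FG) (hXc : ∀ x C C', Cj x C C' → C ∈ FX → C' ∈ FX)
  {b : MonoidAlgebra k G} (hb : ∀ a, b * a = a * b) (hi : b * b = b)

/-- the correspondence of the pairs -/
def phi (s : PS FG b) : PS FX (I.cen u b) :=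
  ⟨⟨I.jS s.1, (hj _).mpr s.1.2⟩, ⟨(I.lev s.1 (hG _ s.1.2).1 (hG _ s.1.2).2 hV).cen u s.2,
    I.cor_mem hV hu (hG _ s.1.2).1 (hG _ s.1.2).2 hb hi s.2.2⟩⟩

theorem phi_wd (s t : PS FG b) (h : (pcs FG b).r s t) :
    (pcs FX (I.cen u b)).r (I.phi hV hu hG hj hb hi s) (I.phi hV hu hG hj hb hi t) := by
  obtain ⟨g, hg, hw⟩ := h
  exact ⟨I.j g, I.cj_j hg, I.cor_wd hV hu (hG _ s.1.2).1 (hG _ t.1.2).1 (hG _ s.1.2).2
    (hG _ t.1.2).2 hg s.2.2.1 hw⟩

/-- the correspondence of the classes of the pairs -/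
def phiQ : Quotient (pcs FG b) → Quotient (pcs FX (I.cen u b)) :=
  Quotient.map (sa := pcs FG b) (sb := pcs FX (I.cen u b)) (I.phi hV hu hG hj hb hi)
    (I.phi_wd hV hu hG hj hb hi)

include hX hXc in
theorem phiQ_bij : Function.Bijective (I.phiQ hV hu hG hj hb hi) := by
  constructor
  · intro a b'
    induction a using Quotient.inductionOn with
    | h s =>
      induction b' using Quotient.inductionOn with
      | h t =>
        intro h
        obtain ⟨x, hx, hw⟩ := Quotient.exact h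
        obtain ⟨g, hg, hw'⟩ := I.cor_inj hV hu (hG _ s.1.2).1 (hG _ t.1.2).1 (hG _ s.1.2).2
          (hG _ t.1.2).2 hx s.2.2.1 t.2.2.1 hw
        exact Quotient.sound ⟨g, hg, hw'⟩
  · intro a
    induction a using Quotient.inductionOn with
    | h t =>
      obtain ⟨⟨C', hC'⟩, ⟨w', hw'⟩⟩ := t
      obtain ⟨x, C, hx, hCn, hCT, hne⟩ := I.anchor hV hu hb (hX _ hC').1 (hX _ hC').2 hw'
      obtain ⟨w, hw, hww⟩ := I.cor_surj hV hu hCn hCT hb hi (me_isBlock _ hw'.1) hne
      have hC : C ∈ FG := (hj C).mp (hXc _ _ _ hx.inv hC')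
      refine ⟨Quotient.mk _ ⟨⟨C, hC⟩, ⟨w, hw⟩⟩, ?_⟩
      refine Quotient.sound ⟨x, hx, ?_⟩
      change me k (kck hx) ((I.lev C _ _ hV).cen u w) = w'
      rw [hww, kck_inv']

include hX hj hXc hu hi hb in
theorem chSum_transfer {M : Type} [AddCommMonoid M]
    (hFG : ∀ C ∈ FG, ∀ g, Cj g C C → g ∈ NC C) (hFX : ∀ C ∈ FX, ∀ g, Cj g C C → g ∈ NC C)
    (f : ∀ C : Set (Subgroup G), MonoidAlgebra k (KC C) → M)
    (f' : ∀ C : Set (Subgroup X), MonoidAlgebra k (KC C) → M)
    (hf : ∀ (g : G) (C₁ C₂ : Set (Subgroup G)) (h : Cj g C₁ C₂) (w : MonoidAlgebra k (KC C₁)),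
      IsBlock w → f C₂ (me k (kck h) w) = f C₁ w)
    (hf' : ∀ (g : X) (C₁ C₂ : Set (Subgroup X)) (h : Cj g C₁ C₂) (w : MonoidAlgebra k (KC C₁)),
      IsBlock w → f' C₂ (me k (kck h) w) = f' C₁ w)
    (hff : ∀ (C : Set (Subgroup G)) (hC : C ∈ FG) (w : MonoidAlgebra k (KC C)), IsBlock w →
      f' (I.jS C) ((I.lev C (hG _ hC).1 (hG _ hC).2 hV).cen u w) = f C w) :
    chSum FX (I.cen u b) f' = chSum FG b f := by
  rw [chSum_eq FX hFX (I.cen_comm hu hb) f' hf', chSum_eq FG hFG hb f hf]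
  symm
  refine finsum_eq_of_bijective (I.phiQ hV hu hG hj hb hi)
    (I.phiQ_bij hV hu hG hX hj hXc hb hi) fun o => ?_
  induction o using Quotient.inductionOn with
  | h s =>
    have h1 : (pcs FG b).r s (Quotient.out (Quotient.mk (pcs FG b) s)) :=
      Quotient.exact (Quotient.out_eq _).symm
    have h2 : (pcs FX (I.cen u b)).r (I.phi hV hu hG hj hb hi s)
        (Quotient.out (I.phiQ hV hu hG hj hb hi (Quotient.mk (pcs FG b) s))) :=
      Quotient.exact (Quotient.out_eq _).symm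
    obtain ⟨g, hg, hw⟩ := h1
    obtain ⟨x, hx, hw'⟩ := h2
    rw [← hw, ← hw', hf g _ _ hg _ s.2.2.1, hf' x _ _ hx _ (I.phi hV hu hG hj hb hi s).2.2.1]
    exact (hff _ s.1.2 _ s.2.2.1).symm

end Mon

namespace Mon

variable {p : ℕ} [hp : Fact p.Prime] {k X V G : Type} [Field k] [CharP k p] [Group X]
  [Group V] [Group G] [Fintype X] [Fintype V] [Finite G] (I : Mon k X V G)
  (hV : ¬ p ∣ Nat.card V) {u : k} (hu : u * (Fintype.card V : k) = 1)

theorem jS_single (Q : Subgroup G) : I.jS {Q} = {Q.map I.j} := Set.image_singleton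

include hu in
theorem isTr_cen_iff {w : MonoidAlgebra k G} (hw : IsBlock w) :
    IsTr (⊥ : Subgroup X) (I.cen u w) ↔ IsTr (⊥ : Subgroup G) w := by
  constructor
  · intro h
    obtain ⟨P, x, hP, hP'⟩ := I.isTr_of_cen hu hw h
    have h1 : P = ⊥ := by
      rw [eq_bot_iff]
      intro g hg
      have h2 := hP g hg
      rw [Subgroup.mem_bot] at h2 ⊢
      have h3 : I.j g = 1 := by
        have h4 : I.j g = x * (x⁻¹ * I.j g * x) * x⁻¹ := by group
        rw [h4, h2, mul_one, mul_inv_cancel]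
      exact (I.inj 1 g (by rw [map_one, one_mul, h3])).2
    rwa [h1] at hP'
  · intro h
    have h1 := I.cen_isTr hu h
    rwa [Subgroup.map_bot] at h1

include hV hu in
/-- the numbers of weights agree -/
theorem wts_cen {b : MonoidAlgebra k G} (hb : ∀ a, b * a = a * b) (hi : b * b = b) :
    wts p (I.cen u b) = wts p b := by
  rw [wts_eq (I.cen_comm hu hb), wts_eq hb]
  refine I.chSum_transfer hV hu (fun C hC => sing_prop hC) (fun C hC => sing_prop hC) ?_
    (fun x C C' h hC => sing_conj h hC) hb hi (fun C hC g h => sing_NC hC h)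
    (fun C hC g h => sing_NC hC h) fz fz (fun g C₁ C₂ h w _ => fz_kck h w)
    (fun g C₁ C₂ h w _ => fz_kck h w) ?_
  · intro C
    constructor
    · rintro ⟨Q', hQ', h⟩
      have h1 : ∀ P ∈ C, P.map I.j = Q' := by
        intro P hP
        have : P.map I.j ∈ I.jS C := ⟨P, hP, rfl⟩
        rw [h] at this
        exact this
      have h2 : (I.jS C).Nonempty := by
        rw [h]
        exact ⟨Q', rfl⟩
      obtain ⟨_, P, hP, -⟩ := h2
      refine ⟨P, ?_, ?_⟩
      · have h3 := hQ'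
        rw [← h1 P hP] at h3
        have h4 := h3.comap_of_injective I.j I.j_inj
        rwa [Subgroup.comap_map_eq_self_of_injective I.j_inj] at h4
      · ext P'
        constructor
        · intro hP'
          exact Subgroup.map_injective I.j_inj ((h1 P' hP').trans (h1 P hP).symm)
        · rintro rfl
          exact hP
    · rintro ⟨Q, hQ, rfl⟩
      exact ⟨Q.map I.j, hQ.map I.j, I.jS_single Q⟩
  · intro C hC w hw
    unfold fz
    have h1 := (I.lev C (sing_prop hC).1 (sing_prop hC).2 hV).isTr_cen_iff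
      (I.u_V0 hV hu (sing_prop hC).2) hw
    simp only [h1]

include hu in
/-- the numbers of simple modules agree -/
theorem nSimple_cen {b : MonoidAlgebra k G} (hb : IsBlock b) :
    nSimple (BlockAlg (I.cen_isBlock hu hb)) = nSimple (BlockAlg hb) := by
  haveI : Nonempty I.Q := ⟨QuotientGroup.mk 1⟩
  rw [← nSimple_eq (ModuleCat.restrictScalarsEquivalenceOfRingEquiv (I.blockEquiv hu hb)).symm,
    ← nSimple_eq (ModuleCat.matrixEquivalence (BlockAlg hb)
      (Classical.arbitrary I.Q))]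

end Mon

end Pool.Agent.H373.MN
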