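import Pool.Agent.H373.MN.H6
import Pool.Agent.H373.MN.W6
import Pool.Agent.H373.CH.K3

set_option autoImplicit false
set_option linter.unusedSectionVars false
set_option linter.style.haveILetI false

open scoped BigOperators Classical

noncomputable section

namespace Pool.Agent.H373.MN

open Pool.Agent.H373.BU hiding Ind

open MonoidAlgebra hiding coeff_sum

open IsLocalRing

/-- There is a bijection between the irreducible characters in the block `e` of `G` and those in the
block `e'` of `X` which preserves heights, where `m` and `m'` are the indices of the defect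
groups. -/
def EqHt {L Ω G X : Type} [CommRing L] [Field Ω] [Group G] [Group X] (p : ℕ) (s : L →+* Ω)
    (e : MonoidAlgebra L G) (m : ℕ) (e' : MonoidAlgebra L X) (m' : ℕ) : Prop :=
  ∃ F : Ir s e ≃ Ir s e', ∀ ε : Ir s e,
    padicValNat p (dg (F ε : MonoidAlgebra Ω X)) + 2 * padicValNat p m =
      padicValNat p (dg (ε : MonoidAlgebra Ω G)) + 2 * padicValNat p m'

theorem EqHt.card {L Ω G X : Type} [CommRing L] [Field Ω] [Group G] [Group X] {p : ℕ}
    {s : L →+* Ω} {e : MonoidAlgebra L G} {m : ℕ} {e' : MonoidAlgebra L X} {m' : ℕ}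
    (h : EqHt p s e m e' m') : Nat.card (Ir0 p s e' m') = Nat.card (Ir0 p s e m) := by
  obtain ⟨F, h2⟩ := h
  symm
  refine Nat.card_congr
    { toFun := fun ε => ⟨F ⟨ε.1, ε.2.1⟩, (F ⟨ε.1, ε.2.1⟩).2, by
        have h4 := h2 ⟨ε.1, ε.2.1⟩
        have h5 := ε.2.2
        change _ = padicValNat p (dg ε.1) + _ at h4
        omega⟩
      invFun := fun ε => ⟨F.symm ⟨ε.1, ε.2.1⟩, (F.symm ⟨ε.1, ε.2.1⟩).2, by
        have h4 := h2 (F.symm ⟨ε.1, ε.2.1⟩)
        rw [F.apply_symm_apply] at h4
        have h5 := ε.2.2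
        change padicValNat p (dg ε.1) + _ = _ at h4
        omega⟩
      left_inv := fun ε => by
        apply Subtype.ext
        change (F.symm ⟨F ⟨ε.1, ε.2.1⟩, _⟩ : MonoidAlgebra Ω G) = ε.1
        rw [Subtype.coe_eta, F.symm_apply_apply]
      right_inv := fun ε => by
        apply Subtype.ext
        change (F ⟨F.symm ⟨ε.1, ε.2.1⟩, _⟩ : MonoidAlgebra Ω X) = ε.1
        rw [Subtype.coe_eta, F.apply_symm_apply] }

namespace Mon

section dg

variable {Ω X V G : Type} [Field Ω] [Group X] [Group V] [Group G] [Fintype X] [Fintype V]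
  (I : Mon Ω X V G) {u : Ω} (hu : u * (Fintype.card V : Ω) = 1)

include hu in
theorem dg_cen {ε : MonoidAlgebra Ω G} (hε : ε * ε = ε) :
    dg (I.cen u ε) = Fintype.card I.Q * (Fintype.card I.Q * dg ε) := by
  let W := LinearMap.range (LinearMap.mulRight Ω ε)
  have hW : ∀ a : MonoidAlgebra Ω G, a ∈ W ↔ a * ε = a := by
    intro a
    constructor
    · rintro ⟨b, rfl⟩
      change b * ε * ε = b * ε
      rw [mul_assoc, hε]
    · intro h
      exact ⟨a, h⟩
  have hce : I.cen u ε * I.cen u ε = I.cen u ε := by rw [← I.cen_mul hu, hε]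
  let F : (I.Q → I.Q → W) →ₗ[Ω] LinearMap.range (LinearMap.mulRight Ω (I.cen u ε)) :=
    { toFun := fun m => ⟨I.Psi u (Matrix.of fun p q => (m p q : MonoidAlgebra Ω G)),
        I.Psi u (Matrix.of fun p q => (m p q : MonoidAlgebra Ω G)), by
          change I.Psi u _ * I.cen u ε = _
          rw [cen, ← I.Psi_mul hu]
          congr 1
          ext1 p q
          rw [Matrix.scalar_apply, Matrix.mul_diagonal]
          exact (hW _).mp (m p q).2⟩
      map_add' := fun m n => by
        apply Subtype.ext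
        exact map_add (I.Psi u) (Matrix.of fun p q => (m p q : MonoidAlgebra Ω G))
          (Matrix.of fun p q => (n p q : MonoidAlgebra Ω G))
      map_smul' := fun r m => by
        apply Subtype.ext
        exact map_smul (I.Psi u) r (Matrix.of fun p q => (m p q : MonoidAlgebra Ω G)) }
  have hF : Function.Bijective F := by
    constructor
    · intro m n h
      have h1 := I.Psi_inj hu (congrArg Subtype.val h)
      funext p q
      exact Subtype.ext (congrFun (congrFun h1 p) q)
    · rintro ⟨_, b, rfl⟩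
      have h2 : I.Pi (b * I.cen u ε) * Matrix.scalar I.Q ε = I.Pi (b * I.cen u ε) := by
        rw [← I.Pi_cen hu, ← map_mul, mul_assoc, hce]
      refine ⟨fun p q => ⟨I.Pi (b * I.cen u ε) p q, (hW _).mpr ?_⟩, ?_⟩
      · have := congrFun (congrFun h2 p) q
        rwa [Matrix.scalar_apply, Matrix.mul_diagonal] at this
      · apply Subtype.ext
        change I.Psi u (Matrix.of fun p q => I.Pi (b * I.cen u ε) p q) = b * I.cen u ε
        have h3 : (Matrix.of fun p q => I.Pi (b * I.cen u ε) p q) = I.Pi (b * I.cen u ε) := rfl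
        rw [h3, I.Psi_Pi_right, mul_assoc, ← I.El_comm, I.El_cen hu]
  have h1 := (LinearEquiv.ofBijective F hF).finrank_eq
  haveI : Finite G := Finite.of_injective I.j I.j_inj
  haveI : FiniteDimensional Ω (MonoidAlgebra Ω G) := by
    haveI := Fintype.ofFinite G
    exact inferInstance
  haveI : Module.Finite Ω W := inferInstance
  unfold dg
  rw [← h1, Module.finrank_pi_fintype]
  simp only [Module.finrank_pi_fintype, Finset.sum_const, Finset.card_univ, smul_eq_mul]
  rfl

end dg

end Mon

namespace Mon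

section ir

variable {L Ω X V G : Type} [CommRing L] [IsDomain L] [Field Ω] [Group X] [Group V] [Group G]
  [Fintype X] [Fintype V] (I : Mon L X V G) {u : L} (hu : u * (Fintype.card V : L) = 1)
  (s : L →+* Ω) (hs : Function.Injective s)

include hs in
theorem lam_inj (v : V) (h : s (I.lam v : L) = 1) : I.lam v = 1 := by
  apply Units.ext
  apply hs
  rw [h, Units.val_one, map_one]

/-- the data over `Ω` -/
abbrev om : Mon Ω X V G := I.map s (I.lam_inj s hs)

include hu in
theorem hu_om : s u * (Fintype.card V : Ω) = 1 := by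
  rw [← map_natCast s, ← map_mul, hu, map_one]

include hu in
theorem ir_cen {e : MonoidAlgebra L G} {ε : MonoidAlgebra Ω G} (h : ε ∈ Ir s e) :
    (I.om s hs).cen (s u) ε ∈ Ir s (I.cen u e) := by
  have hu' := hu_om hu s
  refine ⟨(I.om s hs).cen_isBlock hu' h.1, ?_⟩
  rw [I.red_cen s (I.lam_inj s hs), ← (I.om s hs).cen_mul hu', h.2]

include hu in
theorem ir_surj {e : MonoidAlgebra L G} {ε' : MonoidAlgebra Ω X} (h : ε' ∈ Ir s (I.cen u e)) :
    ∃ ε ∈ Ir s e, (I.om s hs).cen (s u) ε = ε' := by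
  have hu' := hu_om hu s
  have h2 := h.2
  rw [I.red_cen s (I.lam_inj s hs)] at h2
  have h3 : (I.om s hs).El (s u) * ε' = ε' := by
    rw [← h2, (I.om s hs).El_comm, mul_assoc, ← (I.om s hs).El_comm, (I.om s hs).El_cen hu']
  obtain ⟨ε, h4, h5⟩ := (I.om s hs).exists_cen hu' h.1.central h3
  have h6 : IsBlock ε := (I.om s hs).isBlock_of_cen hu' h4 (by rw [h5]; exact h.1)
  refine ⟨ε, ⟨h6, ?_⟩, h5⟩
  apply (I.om s hs).cen_inj hu'
  rw [(I.om s hs).cen_mul hu', h5, h2]

/-- the correspondence of the characters -/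
def irE (e : MonoidAlgebra L G) : Ir s e ≃ Ir s (I.cen u e) :=
  Equiv.ofBijective (fun ε => ⟨(I.om s hs).cen (s u) ε, I.ir_cen hu s hs ε.2⟩) (by
    constructor
    · intro a b h
      exact Subtype.ext ((I.om s hs).cen_inj (hu_om hu s) (congrArg Subtype.val h))
    · rintro ⟨ε', h⟩
      obtain ⟨ε, hε, h1⟩ := I.ir_surj hu s hs h
      exact ⟨⟨ε, hε⟩, Subtype.ext h1⟩)

theorem irE_apply (e : MonoidAlgebra L G) (ε : Ir s e) :
    ((I.irE hu s hs e ε : Ir s (I.cen u e)) : MonoidAlgebra Ω X) =
      (I.om s hs).cen (s u) ε := rfl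

end ir

end Mon

namespace Mon

section card

variable {R X V G : Type} [CommRing R] [Group X] [Group V] [Group G] [Finite X] [Finite V]
  [Finite G] (I : Mon R X V G)

theorem card_Y : Nat.card I.Y = Nat.card V * Nat.card G := by
  rw [← Nat.card_prod]
  refine (Nat.card_congr (Equiv.ofBijective
    (fun t : V × G => (⟨I.i t.1 * I.j t.2, I.form_mem _ _⟩ : I.Y)) ⟨?_, ?_⟩)).symm
  · rintro ⟨v, g⟩ ⟨v', g'⟩ h
    obtain ⟨h1, h2⟩ := I.uniq (congrArg Subtype.val h)
    exact Prod.ext h1 h2
  · rintro ⟨x, v, g, rfl⟩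
    exact ⟨(v, g), rfl⟩

theorem index_map (D : Subgroup G) :
    (D.map I.j).index = Nat.card I.Q * (Nat.card V * D.index) := by
  have h1 := (D.map I.j).card_mul_index
  have h2 := I.Y.card_mul_index
  have h3 := D.card_mul_index
  have h4 : Nat.card (D.map I.j) = Nat.card D :=
    (Nat.card_congr (D.equivMapOfInjective I.j I.j_inj).toEquiv).symm
  have h5 : Nat.card I.Q = I.Y.index := rfl
  rw [h4] at h1
  rw [I.card_Y] at h2
  have h6 : 0 < Nat.card D := Nat.card_pos
  apply Nat.eq_of_mul_eq_mul_left h6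
  rw [h1, ← h2, ← h3, h5]
  ring

end card

section eq

variable {L Ω X V G : Type} [CommRing L] [IsDomain L] [Field Ω] [Group X] [Group V] [Group G]
  [Fintype X] [Fintype V] [Finite G] (I : Mon L X V G) {u : L}
  (hu : u * (Fintype.card V : L) = 1) (s : L →+* Ω) (hs : Function.Injective s)
  {p : ℕ} [hp : Fact p.Prime] (hV : ¬ p ∣ Nat.card V)

include hu hs hV in
theorem eqHt {e : MonoidAlgebra L G} (D : Subgroup G) :
    EqHt p s e D.index (I.cen u e) (D.map I.j).index := by
  have hu' := hu_om hu s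
  refine ⟨I.irE hu s hs e, ?_⟩
  intro ε
  have h1 : dg (ε : MonoidAlgebra Ω G) ≠ 0 := dg_pos ε.2.1.ne_zero
  haveI : Nonempty (I.om s hs).Q := ⟨QuotientGroup.mk 1⟩
  have h2 : Fintype.card (I.om s hs).Q ≠ 0 := Fintype.card_ne_zero
  have h3 : Nat.card I.Q = Fintype.card (I.om s hs).Q := Nat.card_eq_fintype_card
  have h4 : Nat.card V ≠ 0 := Nat.card_pos.ne'
  have h5 : D.index ≠ 0 := Subgroup.index_ne_zero_of_finite
  rw [irE_apply, (I.om s hs).dg_cen hu' ε.2.1.idem, I.index_map D, h3,
    padicValNat.mul h2 (mul_ne_zero h2 h1), padicValNat.mul h2 h1,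
    padicValNat.mul h2 (mul_ne_zero h4 h5), padicValNat.mul h4 h5,
    padicValNat.eq_zero_of_not_dvd hV]
  ring

end eq

end Mon

end Pool.Agent.H373.MN
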