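import Pool.Agent.H373.BU.C5

/-!
# Linear characters of subgroups with Mackey's condition, over group rings

`X` is a group, `V` a subgroup, `lam` a linear character of `V` with values in a commutative ring
`R`, and `G` a group of elements which normalise `V` and fix `lam`, such that for all elements `x`
outside of `V ⋊ G` the characters `lam` and its conjugate are different on the intersection of `V` and
its conjugate.
-/

set_option autoImplicit false
set_option linter.unusedSectionVars false

open scoped BigOperators Classical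

noncomputable section

namespace Pool.Agent.H373.MN

open Pool.Agent.H373.BU hiding Ind

/-- `i : V → X` and `j : G → X` are homomorphisms, `i(V)` is normalised by `j(G)`, the linear
character `lam` of `V` is invariant, `i(V) ∩ j(G) = 1`, and for all elements `x` outside of
`i(V) j(G)` there is an element of `i(V) ∩ x⁻¹ i(V) x` at which `lam` and the conjugate of `lam` are
different (Mackey's condition). -/
structure Mon (R X V G : Type) [CommRing R] [Group X] [Group V] [Group G] where
  i : V →* X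
  j : G →* X
  act : G →* MulAut V
  lam : V →* Rˣ
  act_spec : ∀ g v, i (act g v) = j g * i v * (j g)⁻¹
  lam_act : ∀ g v, lam (act g v) = lam v
  inj : ∀ v g, i v * j g = 1 → v = 1 ∧ g = 1
  mackey : ∀ x, (¬ ∃ v g, i v * j g = x) → ∃ v v', i v' = x * i v * x⁻¹ ∧ lam v' ≠ lam v

variable {R X V G : Type} [CommRing R] [Group X] [Group V] [Group G]


namespace Mon

variable (I : Mon R X V G)

theorem uniq {v v' : V} {g g' : G} (h : I.i v * I.j g = I.i v' * I.j g') : v = v' ∧ g = g' := by
  have h1 : I.i (v'⁻¹ * v) * I.j (g * g'⁻¹) = 1 := by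
    rw [map_mul, map_mul, map_inv, map_inv]
    calc (I.i v')⁻¹ * I.i v * (I.j g * (I.j g')⁻¹)
        = (I.i v')⁻¹ * (I.i v * I.j g) * (I.j g')⁻¹ := by group
      _ = 1 := by rw [h]; group
  obtain ⟨h2, h3⟩ := I.inj _ _ h1
  exact ⟨(inv_mul_eq_one.mp h2).symm, mul_inv_eq_one.mp h3⟩

theorem conj_i (g : G) (v : V) : I.j g * I.i v = I.i (I.act g v) * I.j g := by
  rw [I.act_spec]
  group

theorem mul_form (v v' : V) (g g' : G) :
    I.i v * I.j g * (I.i v' * I.j g') = I.i (v * I.act g v') * I.j (g * g') := by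
  rw [map_mul, map_mul, I.act_spec]
  group

/-- the subgroup `V G` -/
def Y : Subgroup X where
  carrier := {x | ∃ v g, I.i v * I.j g = x}
  one_mem' := ⟨1, 1, by simp⟩
  mul_mem' := by
    rintro _ _ ⟨v, g, rfl⟩ ⟨v', g', rfl⟩
    exact ⟨_, _, (I.mul_form v v' g g').symm⟩
  inv_mem' := by
    rintro _ ⟨v, g, rfl⟩
    refine ⟨I.act g⁻¹ v⁻¹, g⁻¹, ?_⟩
    rw [I.act_spec, map_inv, map_inv]
    group

theorem mem_Y {x : X} : x ∈ I.Y ↔ ∃ v g, I.i v * I.j g = x := Iff.rfl

theorem i_mem (v : V) : I.i v ∈ I.Y := ⟨v, 1, by simp⟩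

theorem j_mem (g : G) : I.j g ∈ I.Y := ⟨1, g, by simp⟩

theorem form_mem (v : V) (g : G) : I.i v * I.j g ∈ I.Y := ⟨v, g, rfl⟩

/-- the weight of an element: `lam v • g` for the elements `v g` of the stabiliser, and zero for the
others -/
def wt (x : X) : MonoidAlgebra R G :=
  if h : ∃ v g, I.i v * I.j g = x then
    MonoidAlgebra.single h.choose_spec.choose ((I.lam h.choose : Rˣ) : R) else 0

theorem wt_form (v : V) (g : G) :
    I.wt (I.i v * I.j g) = MonoidAlgebra.single g ((I.lam v : Rˣ) : R) := by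
  have h : ∃ v' g', I.i v' * I.j g' = I.i v * I.j g := ⟨v, g, rfl⟩
  unfold wt
  rw [dif_pos h]
  obtain ⟨h1, h2⟩ := I.uniq h.choose_spec.choose_spec
  congr 1
  rw [h1]

theorem wt_not {x : X} (h : x ∉ I.Y) : I.wt x = 0 := dif_neg h

theorem wt_mul_left {y : X} (hy : y ∈ I.Y) (x : X) : I.wt (y * x) = I.wt y * I.wt x := by
  obtain ⟨v, g, rfl⟩ := hy
  by_cases hx : x ∈ I.Y
  · obtain ⟨v', g', rfl⟩ := hx
    rw [I.mul_form, wt_form, wt_form, wt_form, MonoidAlgebra.single_mul_single, map_mul,
      I.lam_act, Units.val_mul]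
  · rw [I.wt_not hx, mul_zero, I.wt_not]
    intro h
    exact hx ((I.Y.mul_mem_cancel_left (I.form_mem v g)).mp h)

theorem wt_mul_right (x : X) {y : X} (hy : y ∈ I.Y) : I.wt (x * y) = I.wt x * I.wt y := by
  by_cases hx : x ∈ I.Y
  · exact I.wt_mul_left hx y
  · rw [I.wt_not hx, zero_mul, I.wt_not]
    intro h
    exact hx ((I.Y.mul_mem_cancel_right hy).mp h)

theorem wt_one : I.wt 1 = 1 := by
  have := I.wt_form 1 1
  rw [map_one, map_one, mul_one, map_one] at this
  rw [this]
  rfl

theorem wt_i (v : V) : I.wt (I.i v) = MonoidAlgebra.single 1 ((I.lam v : Rˣ) : R) := by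
  have := I.wt_form v 1
  rwa [map_one, mul_one] at this

theorem wt_j (g : G) : I.wt (I.j g) = MonoidAlgebra.single g 1 := by
  have := I.wt_form 1 g
  rwa [map_one, one_mul, map_one] at this

variable [Fintype X]

/-- the linear map from `RX` to `RG` given by the weights -/
def sg : MonoidAlgebra R X →ₗ[R] MonoidAlgebra R G where
  toFun a := ∑ x, a.coeff x • I.wt x
  map_add' a b := by
    rw [← Finset.sum_add_distrib]
    refine Finset.sum_congr rfl fun x _ => ?_
    rw [← add_smul]
    rfl
  map_smul' r a := by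
    rw [Finset.smul_sum]
    refine Finset.sum_congr rfl fun x _ => ?_
    rw [← mul_smul]
    rfl

theorem sg_single (x : X) (r : R) : I.sg (MonoidAlgebra.single x r) = r • I.wt x := by
  change ∑ y, (MonoidAlgebra.single x r).coeff y • I.wt y = _
  rw [Finset.sum_eq_single x]
  · rw [MonoidAlgebra.coeff_single, Finsupp.single_eq_same]
  · intro y _ hy
    rw [MonoidAlgebra.coeff_single, Finsupp.single_apply, if_neg (Ne.symm hy), zero_smul]
  · intro h
    exact absurd (Finset.mem_univ _) h

theorem sg_el (x : X) : I.sg (el R x) = I.wt x := by rw [sg_single, one_smul]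

theorem sg_el_mul {y : X} (hy : y ∈ I.Y) (a : MonoidAlgebra R X) :
    I.sg (el R y * a) = I.wt y * I.sg a := by
  induction a using MonoidAlgebra.induction_linear with
  | zero => simp
  | add a b ha hb => rw [mul_add, map_add, ha, hb, map_add, mul_add]
  | single x r =>
    rw [single_eq, mul_smul_comm, map_smul, map_smul, el_mul, sg_el, sg_el, I.wt_mul_left hy,
      mul_smul_comm]

theorem sg_mul_el (a : MonoidAlgebra R X) {y : X} (hy : y ∈ I.Y) :
    I.sg (a * el R y) = I.sg a * I.wt y := by
  induction a using MonoidAlgebra.induction_linear with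
  | zero => simp
  | add a b ha hb => rw [add_mul, map_add, ha, hb, map_add, add_mul]
  | single x r =>
    rw [single_eq, smul_mul_assoc, map_smul, map_smul, el_mul, sg_el, sg_el, I.wt_mul_right _ hy,
      smul_mul_assoc]

/-- the embedding of `RG` -/
def io : MonoidAlgebra R G →ₐ[R] MonoidAlgebra R X := MonoidAlgebra.mapDomainAlgHom R R I.j

theorem io_single (g : G) (r : R) :
    I.io (MonoidAlgebra.single g r) = MonoidAlgebra.single (I.j g) r := by
  unfold io
  simp [MonoidAlgebra.mapDomainAlgHom]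

theorem sg_io_mul (b : MonoidAlgebra R G) (a : MonoidAlgebra R X) :
    I.sg (I.io b * a) = b * I.sg a := by
  induction b using MonoidAlgebra.induction_linear with
  | zero => simp
  | add b c hb hc => rw [map_add, add_mul, map_add, hb, hc, add_mul]
  | single g r =>
    rw [io_single, single_eq, smul_mul_assoc, map_smul, I.sg_el_mul (I.j_mem g), wt_j,
      single_eq g r, smul_mul_assoc]

theorem sg_mul_io (b : MonoidAlgebra R G) (a : MonoidAlgebra R X) :
    I.sg (a * I.io b) = I.sg a * b := by
  induction b using MonoidAlgebra.induction_linear with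
  | zero => simp
  | add b c hb hc => rw [map_add, mul_add, map_add, hb, hc, mul_add]
  | single g r =>
    rw [io_single, single_eq, mul_smul_comm, map_smul, I.sg_mul_el _ (I.j_mem g), wt_j,
      single_eq g r, mul_smul_comm]

variable [Fintype V]

/-- the idempotent of the linear character; `u` is the inverse of `|V|` -/
def ep (u : R) : MonoidAlgebra R X :=
  ∑ v : V, MonoidAlgebra.single (I.i v) (u * ((I.lam v⁻¹ : Rˣ) : R))

theorem ep_eq (u : R) : I.ep u = ∑ v : V, (u * ((I.lam v⁻¹ : Rˣ) : R)) • el R (I.i v) := by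
  unfold ep
  exact Finset.sum_congr rfl fun v _ => single_eq _ _

theorem i_ep (u : R) (w : V) : el R (I.i w) * I.ep u = ((I.lam w : Rˣ) : R) • I.ep u := by
  rw [ep_eq, Finset.mul_sum, Finset.smul_sum]
  refine Fintype.sum_equiv (Equiv.mulLeft w) _ _ fun v => ?_
  rw [mul_smul_comm, el_mul, ← map_mul, smul_smul]
  congr 1
  rw [Equiv.coe_mulLeft, mul_inv_rev, map_mul, Units.val_mul, map_inv I.lam w, mul_comm
    (((I.lam v⁻¹ : Rˣ) : R)), mul_left_comm u, ← mul_assoc ((I.lam w : Rˣ) : R),
    Units.mul_inv, one_mul]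

theorem ep_i (u : R) (w : V) : I.ep u * el R (I.i w) = ((I.lam w : Rˣ) : R) • I.ep u := by
  rw [ep_eq, Finset.sum_mul, Finset.smul_sum]
  refine Fintype.sum_equiv (Equiv.mulRight w) _ _ fun v => ?_
  rw [smul_mul_assoc, el_mul, ← map_mul, smul_smul]
  congr 1
  rw [Equiv.coe_mulRight, mul_inv_rev, map_mul, Units.val_mul, map_inv I.lam w, mul_left_comm u,
    ← mul_assoc ((I.lam w : Rˣ) : R), Units.mul_inv, one_mul]

theorem ep_j (u : R) (g : G) : el R (I.j g) * I.ep u = I.ep u * el R (I.j g) := by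
  rw [ep_eq, Finset.mul_sum, Finset.sum_mul]
  refine Fintype.sum_equiv (I.act g).toEquiv _ _ fun v => ?_
  rw [mul_smul_comm, smul_mul_assoc, el_mul, el_mul, I.conj_i]
  congr 2
  change ((I.lam v⁻¹ : Rˣ) : R) = ((I.lam (I.act g v)⁻¹ : Rˣ) : R)
  rw [← map_inv, I.lam_act]

theorem ep_comm (u : R) {y : X} (hy : y ∈ I.Y) : el R y * I.ep u = I.ep u * el R y := by
  obtain ⟨v, g, rfl⟩ := hy
  rw [← el_mul, mul_assoc, I.ep_j, ← mul_assoc, I.i_ep, smul_mul_assoc, ← mul_assoc, I.ep_i,
    smul_mul_assoc]

theorem io_ep (u : R) (b : MonoidAlgebra R G) : I.io b * I.ep u = I.ep u * I.io b := by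
  induction b using MonoidAlgebra.induction_linear with
  | zero => simp
  | add b c hb hc => rw [map_add, add_mul, mul_add, hb, hc]
  | single g r =>
    rw [io_single, single_eq, smul_mul_assoc, mul_smul_comm, I.ep_comm u (I.j_mem g)]

theorem ep_wt (u : R) {y : X} (hy : y ∈ I.Y) : I.ep u * I.io (I.wt y) = I.ep u * el R y := by
  obtain ⟨v, g, rfl⟩ := hy
  rw [wt_form, io_single, ← el_mul, ← mul_assoc, ep_i, smul_mul_assoc, single_eq, mul_smul_comm]

variable {u : R} (hu : u * (Fintype.card V : R) = 1)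

include hu in
theorem ep_idem : I.ep u * I.ep u = I.ep u := by
  have h : ∀ v ∈ (Finset.univ : Finset V),
      (u * ((I.lam v⁻¹ : Rˣ) : R)) • el R (I.i v) * I.ep u = u • I.ep u := by
    intro v _
    rw [smul_mul_assoc, i_ep, smul_smul, mul_assoc, ← Units.val_mul, ← map_mul,
      inv_mul_cancel, map_one, Units.val_one, mul_one]
  calc I.ep u * I.ep u = ∑ v : V, (u * ((I.lam v⁻¹ : Rˣ) : R)) • el R (I.i v) * I.ep u := by
        rw [← Finset.sum_mul, ← I.ep_eq]
    _ = I.ep u := by
        rw [Finset.sum_congr rfl h, Finset.sum_const, Finset.card_univ,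
          ← Nat.cast_smul_eq_nsmul R, smul_smul, mul_comm, hu, one_smul]

variable [IsDomain R]

include hu in
/-- the fundamental formula -/
theorem sg_ep (x : X) (a : MonoidAlgebra R X) :
    I.sg (el R x * I.ep u * a) = I.wt x * I.sg a := by
  have h1' : ∀ (v : V) (a : MonoidAlgebra R X),
      I.sg (el R (I.i v) * a) = ((I.lam v : Rˣ) : R) • I.sg a := by
    intro v a
    rw [I.sg_el_mul (I.i_mem v), wt_i, single_eq, smul_mul_assoc]
    congr 1
    exact one_mul _
  have h1 := fun v => h1' v a
  by_cases hx : x ∈ I.Y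
  · rw [mul_assoc, I.sg_el_mul hx, ep_eq, Finset.sum_mul, map_sum]
    congr 1
    have h : ∀ v ∈ (Finset.univ : Finset V),
        I.sg ((u * ((I.lam v⁻¹ : Rˣ) : R)) • el R (I.i v) * a) = u • I.sg a := by
      intro v _
      rw [smul_mul_assoc, map_smul, h1, smul_smul, mul_assoc, ← Units.val_mul, ← map_mul,
        inv_mul_cancel, map_one, Units.val_one, mul_one]
    rw [Finset.sum_congr rfl h, Finset.sum_const, Finset.card_univ, ← Nat.cast_smul_eq_nsmul R,
      smul_smul, mul_comm, hu, one_smul]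
  · rw [I.wt_not hx, zero_mul]
    obtain ⟨v, v', h2, h3⟩ := I.mackey x hx
    have h4 : ((I.lam v' : Rˣ) : R) • I.sg (el R x * I.ep u * a) =
        ((I.lam v : Rˣ) : R) • I.sg (el R x * I.ep u * a) := by
      rw [← h1' v', ← map_smul]
      congr 1
      rw [← mul_assoc, ← mul_assoc, el_mul, h2, inv_mul_cancel_right, ← el_mul, mul_assoc (el R x),
        i_ep, mul_smul_comm, smul_mul_assoc]
    have h5 : (((I.lam v' : Rˣ) : R) - ((I.lam v : Rˣ) : R)) •
        I.sg (el R x * I.ep u * a) = 0 := by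
      rw [sub_smul, h4, sub_self]
    have h6 : (((I.lam v' : Rˣ) : R) - ((I.lam v : Rˣ) : R)) ≠ 0 := by
      rw [sub_ne_zero]
      exact fun h => h3 (Units.ext h)
    ext g
    have h7 := congrArg (fun b => MonoidAlgebra.coeff b g) h5
    have h8 : (((I.lam v' : Rˣ) : R) - ((I.lam v : Rˣ) : R)) *
        (I.sg (el R x * I.ep u * a)).coeff g = 0 := h7
    exact (mul_eq_zero.mp h8).resolve_left h6

end Mon

end Pool.Agent.H373.MN
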