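import Pool.Agent.H373.MN.M4

set_option autoImplicit false
set_option linter.unusedSectionVars false
set_option linter.style.haveILetI false

open scoped BigOperators Classical

noncomputable section

namespace Pool.Agent.H373.MN

open Pool.Agent.H373.BU hiding Ind

open MonoidAlgebra hiding coeff_sum

namespace Mon

variable {R X V G : Type} [CommRing R] [Group X] [Group V] [Group G] [Fintype X] [Fintype V]
  [IsDomain R] (I : Mon R X V G) {u : R}

theorem coeff_form (b : MonoidAlgebra R G) (v : V) (g : G) :
    (I.ep u * I.io b).coeff (I.i v * I.j g) = u * ((I.lam v⁻¹ : Rˣ) : R) * b.coeff g := by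
  induction b using MonoidAlgebra.induction_linear with
  | zero => simp
  | add b c hb hc =>
    rw [map_add, mul_add, coeff_add, Finsupp.add_apply, hb, hc, coeff_add, Finsupp.add_apply,
      mul_add]
  | single g' r =>
    rw [io_single, coeff_mul_single_apply, coeff_single, Finsupp.single_apply]
    unfold ep
    rw [coeff_sum]
    by_cases h : g' = g
    · subst h
      rw [if_pos rfl, Finset.sum_eq_single v]
      · rw [mul_inv_cancel_right, coeff_single, Finsupp.single_eq_same]
      · intro w _ hw
        rw [mul_inv_cancel_right, coeff_single, Finsupp.single_apply, if_neg]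
        intro h1
        apply hw
        have := I.uniq (v := w) (v' := v) (g := 1) (g' := 1) (by rw [h1])
        exact this.1
      · intro h
        exact absurd (Finset.mem_univ _) h
    · rw [if_neg h, mul_zero, Finset.sum_eq_zero, zero_mul]
      intro w _
      rw [coeff_single, Finsupp.single_apply, if_neg]
      intro h1
      apply h
      have h2 : I.i w * I.j g' = I.i v * I.j g := by
        rw [h1]
        group
      exact (I.uniq h2).2

theorem coeff_not (b : MonoidAlgebra R G) {x : X} (hx : x ∉ I.Y) :
    (I.ep u * I.io b).coeff x = 0 := by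
  induction b using MonoidAlgebra.induction_linear with
  | zero => simp
  | add b c hb hc =>
    rw [map_add, mul_add, coeff_add, Finsupp.add_apply, hb, hc, add_zero]
  | single g' r =>
    rw [io_single, coeff_mul_single_apply]
    unfold ep
    rw [coeff_sum, Finset.sum_eq_zero, zero_mul]
    intro w _
    rw [coeff_single, Finsupp.single_apply, if_neg]
    intro h1
    apply hx
    refine ⟨w, g', ?_⟩
    rw [h1]
    group

theorem cen_coeff (b : MonoidAlgebra R G) (x : X) :
    (I.cen u b).coeff x = ∑ p : I.Q, (I.ep u * I.io b).coeff (p.out⁻¹ * x * p.out) := by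
  rw [I.cen_eq, coeff_sum]
  refine Finset.sum_congr rfl fun p _ => ?_
  rw [← cj_coeff]
  unfold cj
  rw [← mul_assoc]

/-- the function is invariant under conjugation -/
theorem cj_ep (hu : u * (Fintype.card V : R) = 1) {b : MonoidAlgebra R G}
    (hb : ∀ a, b * a = a * b) {y : X} (hy : y ∈ I.Y) :
    cj y (I.ep u * I.io b) = I.ep u * I.io b := by
  obtain ⟨v, g, rfl⟩ := hy
  rw [I.cj_base hu, cj_central g hb]

theorem coeff_out (hu : u * (Fintype.card V : R) = 1) {b : MonoidAlgebra R G}
    (hb : ∀ a, b * a = a * b) (y x : X) :
    (I.ep u * I.io b).coeff ((QuotientGroup.mk y : I.Q).out⁻¹ * x *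
      (QuotientGroup.mk y : I.Q).out) = (I.ep u * I.io b).coeff (y⁻¹ * x * y) := by
  rw [← cj_coeff, ← cj_coeff, cj_out (fun q hq => I.cj_ep hu hb hq)]

end Mon

end Pool.Agent.H373.MN
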