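import Pool.Agent.H373.MN.M5

set_option autoImplicit false
set_option linter.unusedSectionVars false
set_option linter.style.haveILetI false

open scoped BigOperators Classical

noncomputable section

namespace Pool.Agent.H373.MN

open Pool.Agent.H373.BU hiding Ind

open MonoidAlgebra hiding coeff_sum

namespace Mon

variable {R X V G : Type} [CommRing R] [Group X] [Group V] [Group G]
  (I : Mon R X V G) (D : Subgroup G)

/-- the elements of `V` which are centralised by `D` -/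
def V0 : Subgroup V where
  carrier := {v | ∀ d ∈ D, I.act d v = v}
  one_mem' := fun d _ => map_one _
  mul_mem' := fun {a b} ha hb d hd => by rw [map_mul, ha d hd, hb d hd]
  inv_mem' := fun {a} ha d hd => by rw [map_inv, ha d hd]

theorem mem_V0 {v : V} : v ∈ I.V0 D ↔ ∀ d ∈ D, I.act d v = v := Iff.rfl

/-- the normaliser in `X` of the image of `D` -/
abbrev N : Subgroup X := Subgroup.normalizer ((D.map I.j : Subgroup X) : Set X)

/-- the normaliser of `D` -/
abbrev G0 : Subgroup G := Subgroup.normalizer (D : Set G)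

theorem j_inj : Function.Injective I.j := by
  rw [injective_iff_map_eq_one]
  intro g hg
  exact (I.inj 1 g (by rw [map_one, one_mul, hg])).2

theorem i_inj : Function.Injective I.i := by
  rw [injective_iff_map_eq_one]
  intro v hv
  exact (I.inj v 1 (by rw [map_one, mul_one, hv])).1

theorem conj_form (v : V) (g h : G) :
    (I.i v * I.j g) * I.j h * (I.i v * I.j g)⁻¹ =
      I.i (v * I.act (g * h * g⁻¹) v⁻¹) * I.j (g * h * g⁻¹) := by
  rw [map_mul I.i, I.act_spec]
  simp only [map_mul, map_inv]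
  group

theorem form_mem_N {v : V} {g : G} (hv : v ∈ I.V0 D) (hg : g ∈ G0 D) :
    I.i v * I.j g ∈ I.N D := by
  rw [Subgroup.mem_normalizer_iff] at hg ⊢
  have key : ∀ (v : V) (g : G), v ∈ I.V0 D → (∀ h, h ∈ D ↔ g * h * g⁻¹ ∈ D) →
      ∀ x ∈ D.map I.j, (I.i v * I.j g) * x * (I.i v * I.j g)⁻¹ ∈ D.map I.j := by
    rintro v g hv hg _ ⟨d, hd, rfl⟩
    rw [I.conj_form, map_inv, hv _ ((hg d).mp hd), mul_inv_cancel, map_one, one_mul]
    exact ⟨_, (hg d).mp hd, rfl⟩
  intro x
  constructor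
  · exact key v g hv hg x
  · intro h
    have hg' : ∀ h, h ∈ D ↔ g⁻¹ * h * g⁻¹⁻¹ ∈ D := by
      intro h
      rw [hg (g⁻¹ * h * g⁻¹⁻¹)]
      have : g * (g⁻¹ * h * g⁻¹⁻¹) * g⁻¹ = h := by group
      rw [this]
    have hv' : I.act g⁻¹ v⁻¹ ∈ I.V0 D := by
      intro d hd
      have h1 : d * g⁻¹ = g⁻¹ * (g * d * g⁻¹) := by group
      rw [← MulAut.mul_apply, ← map_mul, h1, map_mul, MulAut.mul_apply,
        map_inv (I.act (g * d * g⁻¹)) v, hv _ ((hg d).mp hd)]
    have h2 := key _ _ hv' hg' _ h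
    have h3 : I.i (I.act g⁻¹ v⁻¹) * I.j g⁻¹ = (I.i v * I.j g)⁻¹ := by
      rw [I.act_spec, map_inv, map_inv]
      group
    rw [h3] at h2
    have h4 : (I.i v * I.j g)⁻¹ * (I.i v * I.j g * x * (I.i v * I.j g)⁻¹) *
        (I.i v * I.j g)⁻¹⁻¹ = x := by group
    rwa [h4] at h2

/-- an element `v g` which normalises the image of `D` -/
theorem of_form_mem_N {v : V} {g : G} (h : I.i v * I.j g ∈ I.N D) :
    v ∈ I.V0 D ∧ g ∈ G0 D := by
  rw [Subgroup.mem_normalizer_iff] at h
  have h1 : ∀ d ∈ D, g * d * g⁻¹ ∈ D ∧ I.act (g * d * g⁻¹) v = v := by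
    intro d hd
    have h2 := (h (I.j d)).mp ⟨d, hd, rfl⟩
    obtain ⟨d', hd', h3⟩ := h2
    change I.j d' = _ at h3
    rw [I.conj_form] at h3
    have h4 := I.uniq (v := 1) (g := d') (v' := v * I.act (g * d * g⁻¹) v⁻¹)
      (g' := g * d * g⁻¹) (by rw [map_one, one_mul]; exact h3)
    refine ⟨h4.2 ▸ hd', ?_⟩
    have h5 := h4.1
    rw [map_inv, eq_mul_inv_iff_mul_eq, one_mul] at h5
    exact h5
  have h6 : ∀ d, g * d * g⁻¹ ∈ D → d ∈ D := by
    intro d hd
    have h7 : I.j (g * d * g⁻¹) ∈ D.map I.j := ⟨_, hd, rfl⟩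
    -- conjugate back
    have h8 := (h ((I.i v * I.j g)⁻¹ * I.j (g * d * g⁻¹) * (I.i v * I.j g))).mpr (by
      have : I.i v * I.j g * ((I.i v * I.j g)⁻¹ * I.j (g * d * g⁻¹) * (I.i v * I.j g)) *
        (I.i v * I.j g)⁻¹ = I.j (g * d * g⁻¹) := by group
      rw [this]
      exact h7)
    obtain ⟨d', hd', h9⟩ := h8
    change I.j d' = _ at h9
    have h10 : I.j (g * d * g⁻¹) = (I.i v * I.j g) * I.j d' * (I.i v * I.j g)⁻¹ := by
      rw [h9]
      group
    rw [I.conj_form] at h10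
    have h11 := I.uniq (v := 1) (g := g * d * g⁻¹) (v' := v * I.act (g * d' * g⁻¹) v⁻¹)
      (g' := g * d' * g⁻¹) (by rw [map_one, one_mul]; exact h10)
    have h12 : d = d' := by
      have := h11.2
      exact mul_left_cancel (mul_right_cancel this)
    exact h12 ▸ hd'
  have hg : g ∈ G0 D := by
    rw [Subgroup.mem_normalizer_iff]
    exact fun d => ⟨fun hd => (h1 d hd).1, h6 d⟩
  refine ⟨fun d hd => ?_, hg⟩
  have h13 : g⁻¹ * d * g ∈ D := by
    apply h6
    have : g * (g⁻¹ * d * g) * g⁻¹ = d := by group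
    rwa [this]
  have h14 := (h1 _ h13).2
  have h15 : g * (g⁻¹ * d * g) * g⁻¹ = d := by group
  rwa [h15] at h14

theorem act_mem_V0 {g : G} (hg : g ∈ G0 D) {v : V} (hv : v ∈ I.V0 D) : I.act g v ∈ I.V0 D := by
  intro d hd
  have h1 : g⁻¹ * d * g⁻¹⁻¹ ∈ D :=
    (Subgroup.mem_normalizer_iff.mp (Subgroup.inv_mem _ hg) _).mp hd
  have h3 : d * g = g * (g⁻¹ * d * g⁻¹⁻¹) := by group
  rw [← MulAut.mul_apply, ← map_mul, h3, map_mul, MulAut.mul_apply, hv _ h1]

/-- the action of the normaliser -/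
def act0 : G0 D →* MulAut (I.V0 D) where
  toFun x :=
    { toFun := fun v => ⟨I.act (x : G) v, I.act_mem_V0 D x.2 v.2⟩
      invFun := fun v => ⟨I.act ((x⁻¹ : G0 D) : G) v, I.act_mem_V0 D (x⁻¹).2 v.2⟩
      left_inv := fun v => by
        apply Subtype.ext
        change I.act ((x⁻¹ : G0 D) : G) (I.act (x : G) v) = v
        rw [← MulAut.mul_apply, ← map_mul]
        change I.act ((x : G)⁻¹ * x) v = v
        rw [inv_mul_cancel, map_one]
        rfl
      right_inv := fun v => by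
        apply Subtype.ext
        change I.act (x : G) (I.act ((x⁻¹ : G0 D) : G) v) = v
        rw [← MulAut.mul_apply, ← map_mul]
        change I.act ((x : G) * (x : G)⁻¹) v = v
        rw [mul_inv_cancel, map_one]
        rfl
      map_mul' := fun v w => by
        apply Subtype.ext
        exact map_mul (I.act (x : G)) _ _ }
  map_one' := by
    ext v
    change I.act ((1 : G0 D) : G) v = v
    rw [OneMemClass.coe_one, map_one]
    rfl
  map_mul' x y := by
    ext v
    change I.act ((x * y : G0 D) : G) v = I.act (x : G) (I.act (y : G) v)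
    rw [Subgroup.coe_mul, map_mul]
    rfl

variable [Finite V] [Finite G]

/-- Mackey's condition for an element of the normaliser of `D` is satisfied by an element which is
centralised by `D` -/
theorem mackey0 {p : ℕ} [hp : Fact p.Prime] (hD : IsPGroup p D) (hV : ¬ p ∣ Nat.card V)
    {x : X} (hx : x ∈ I.N D) (hxY : x ∉ I.Y) :
    ∃ v v' : V, I.i v' = x * I.i v * x⁻¹ ∧ I.lam v' ≠ I.lam v ∧ v ∈ I.V0 D ∧ v' ∈ I.V0 D := by
  obtain ⟨v₀, v₀', h1, h2⟩ := I.mackey x hxY
  -- the conjugation action of `D` on the pairs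
  have hconj : ∀ d ∈ D, ∃ d' ∈ D, I.j d' * x = x * I.j d := by
    intro d hd
    have h3 : x * I.j d * x⁻¹ ∈ D.map I.j := (Subgroup.mem_normalizer_iff.mp hx _).mp ⟨d, hd, rfl⟩
    obtain ⟨d', hd', h4⟩ := h3
    change I.j d' = _ at h4
    exact ⟨d', hd', by rw [h4]; group⟩
  have hact : ∀ (d d' : G) (v v' : V), I.j d' * x = x * I.j d → I.i v' = x * I.i v * x⁻¹ →
      I.i (I.act d' v') = x * I.i (I.act d v) * x⁻¹ := by
    intro d d' v v' h3 h4
    have h5 : x⁻¹ * I.j d' = I.j d * x⁻¹ := by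
      rw [eq_mul_inv_iff_mul_eq, mul_assoc, h3, inv_mul_cancel_left]
    rw [I.act_spec, I.act_spec, h4]
    calc I.j d' * (x * I.i v * x⁻¹) * (I.j d')⁻¹ =
        (I.j d' * x) * I.i v * (I.j d' * x)⁻¹ := by group
      _ = (x * I.j d) * I.i v * (x * I.j d)⁻¹ := by rw [h3]
      _ = _ := by group
  -- the set of pairs with the same value of the character
  let c : Rˣ := I.lam v₀' * (I.lam v₀)⁻¹
  let P : Subgroup V :=
    { carrier := {v | ∃ v' : V, I.i v' = x * I.i v * x⁻¹ ∧ I.lam v' * (I.lam v)⁻¹ = 1}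
      one_mem' := ⟨1, by simp⟩
      mul_mem' := by
        rintro a b ⟨a', ha, ha'⟩ ⟨b', hb, hb'⟩
        refine ⟨a' * b', by rw [map_mul, ha, hb, map_mul]; group, ?_⟩
        rw [mul_inv_eq_one] at ha' hb' ⊢
        rw [map_mul, map_mul, ha', hb']
      inv_mem' := by
        rintro a ⟨a', ha, ha'⟩
        refine ⟨a'⁻¹, by rw [map_inv, ha, map_inv]; group, ?_⟩
        rw [mul_inv_eq_one] at ha' ⊢
        rw [map_inv, map_inv, ha'] }
  let S : Set V := {v | ∃ v' : V, I.i v' = x * I.i v * x⁻¹ ∧ I.lam v' * (I.lam v)⁻¹ = c}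
  have hSmul : ∀ d ∈ D, ∀ v ∈ S, I.act d v ∈ S := by
    rintro d hd v ⟨v', h3, h4⟩
    obtain ⟨d', -, h5⟩ := hconj d hd
    exact ⟨I.act d' v', hact d d' v v' h5 h3, by rw [I.lam_act, I.lam_act, h4]⟩
  letI : MulAction D V := MulAction.compHom V (I.act.comp D.subtype)
  have hsm : ∀ (d : D) (v : V), d • v = I.act d v := fun _ _ => rfl
  let S' : SubMulAction D V :=
    { carrier := S
      smul_mem' := fun d {v} hv => hSmul d d.2 v hv }
  have hcard : Nat.card P = Nat.card S' := by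
    refine Nat.card_congr (Equiv.ofBijective (fun w : P => (⟨v₀ * w, ?_⟩ : S')) ⟨?_, ?_⟩)
    · obtain ⟨w', h3, h4⟩ := w.2
      refine ⟨v₀' * w', by rw [map_mul, h1, h3, map_mul]; group, ?_⟩
      rw [mul_inv_eq_one] at h4
      change _ = I.lam v₀' * (I.lam v₀)⁻¹
      rw [map_mul, map_mul, h4, ← div_eq_mul_inv, mul_div_mul_right_eq_div, div_eq_mul_inv]
    · intro a b h
      exact Subtype.ext (mul_left_cancel (congrArg Subtype.val h))
    · rintro ⟨v, v', h3, h4⟩
      refine ⟨⟨v₀⁻¹ * v, v₀'⁻¹ * v', ?_, ?_⟩, Subtype.ext (mul_inv_cancel_left _ _)⟩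
      · rw [map_mul, map_inv, h1, h3, map_mul, map_inv]
        group
      · change _ = I.lam v₀' * (I.lam v₀)⁻¹ at h4
        rw [mul_inv_eq_iff_eq_mul] at h4
        rw [mul_inv_eq_one, map_mul, map_mul, map_inv, map_inv, h4, mul_assoc,
          inv_mul_cancel_left]
  have hPV : ¬ p ∣ Nat.card S' := by
    rw [← hcard]
    exact fun h => hV (h.trans (Subgroup.card_subgroup_dvd_card P))
  haveI : Finite S' := Subtype.finite
  obtain ⟨⟨v, v', h3, h4⟩, hv⟩ := hD.nonempty_fixed_point_of_prime_not_dvd_card S' hPV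
  have hv' : v ∈ I.V0 D := by
    intro d hd
    exact congrArg Subtype.val (hv ⟨d, hd⟩)
  refine ⟨v, v', h3, ?_, hv', ?_⟩
  · intro h5
    change _ = I.lam v₀' * (I.lam v₀)⁻¹ at h4
    rw [h5, mul_inv_cancel, eq_comm, mul_inv_eq_one] at h4
    exact h2 h4
  · intro d' hd'
    have h5 : x⁻¹ * I.j d' * x⁻¹⁻¹ ∈ D.map I.j :=
      (Subgroup.mem_normalizer_iff.mp (Subgroup.inv_mem _ hx) _).mp ⟨d', hd', rfl⟩
    obtain ⟨d, hd, h6⟩ := h5
    change I.j d = _ at h6
    have h7 : I.j d' * x = x * I.j d := by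
      rw [h6]
      group
    have h8 := hact d d' v v' h7 h3
    rw [hv' d hd, ← h3] at h8
    exact I.i_inj h8

/-- the data for the normaliser -/
def nor {p : ℕ} [hp : Fact p.Prime] (hD : IsPGroup p D) (hV : ¬ p ∣ Nat.card V) :
    Mon R (I.N D) (I.V0 D) (G0 D) where
  i :=
    { toFun := fun v => ⟨I.i v, by
        have := I.form_mem_N D v.2 (G0 D).one_mem
        rwa [map_one, mul_one] at this⟩
      map_one' := Subtype.ext (by simp)
      map_mul' := fun v w => Subtype.ext (by simp) }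
  j :=
    { toFun := fun g => ⟨I.j g, by
        have := I.form_mem_N D (I.V0 D).one_mem g.2
        rwa [map_one, one_mul] at this⟩
      map_one' := Subtype.ext (by simp)
      map_mul' := fun v w => Subtype.ext (by simp) }
  act := I.act0 D
  lam := I.lam.comp (I.V0 D).subtype
  act_spec x v := Subtype.ext (I.act_spec (x : G) (v : V))
  lam_act x v := I.lam_act (x : G) (v : V)
  inj v g h := by
    obtain ⟨h1, h2⟩ := I.inj v g (congrArg Subtype.val h)
    exact ⟨Subtype.ext h1, Subtype.ext h2⟩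
  mackey x hx := by
    have hxY : (x : X) ∉ I.Y := by
      rintro ⟨v, g, hvg⟩
      have h5 := I.of_form_mem_N D (by rw [hvg]; exact x.2)
      exact hx ⟨⟨v, h5.1⟩, ⟨g, h5.2⟩, Subtype.ext hvg⟩
    obtain ⟨v, v', h1, h2, h3, h4⟩ := I.mackey0 D hD hV x.2 hxY
    exact ⟨⟨v, h3⟩, ⟨v', h4⟩, Subtype.ext h1, h2⟩

end Mon

end Pool.Agent.H373.MN
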