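import Pool.Agent.H373.MN.M7
import Pool.Agent.H373.BU.B2

set_option autoImplicit false
set_option linter.unusedSectionVars false
set_option linter.style.haveILetI false

open scoped BigOperators Classical

noncomputable section

namespace Pool.Agent.H373.MN

open Pool.Agent.H373.BU hiding Ind

open MonoidAlgebra hiding coeff_sum

namespace Mon

variable {k X V G : Type} [Field k] [Group X] [Group V] [Group G] [Fintype X] [Fintype V]
  (I : Mon k X V G) {u : k} (hu : u * (Fintype.card V : k) = 1)

/-- the linear map `cen` -/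
def cenL (u : k) : MonoidAlgebra k G →ₗ[k] MonoidAlgebra k X where
  toFun := I.cen u
  map_add' := I.cen_add
  map_smul' := I.cen_smul

include hu in
theorem kB_cen {e : MonoidAlgebra k G} (he : e * e = e) (hc : ∀ a, e * a = a * e) :
    kB (I.cen u e) = kB e := by
  have hinj : Function.Injective (I.cenL u) := fun a b h => I.cen_inj hu h
  unfold kB
  have h1 : Submodule.map (LinearMap.mulRight k (I.cen u e))
      (Subalgebra.toSubmodule (Subalgebra.center k (MonoidAlgebra k X))) =
      Submodule.map (I.cenL u) (Submodule.map (LinearMap.mulRight k e)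
        (Subalgebra.toSubmodule (Subalgebra.center k (MonoidAlgebra k G)))) := by
    apply le_antisymm
    · rintro _ ⟨w, hw, rfl⟩
      have hw' : ∀ a, w * a = a * w := fun a =>
        ((Subalgebra.mem_center_iff (R := k)).mp hw a).symm
      have hcc : ∀ a, w * I.cen u e * a = a * (w * I.cen u e) := by
        intro a
        rw [mul_assoc, I.cen_comm hu hc, ← mul_assoc, hw', mul_assoc]
      have hE : I.El u * (w * I.cen u e) = w * I.cen u e := by
        rw [← mul_assoc, ← hw', mul_assoc, I.El_cen hu]
      obtain ⟨z, hz, hz'⟩ := I.exists_cen hu hcc hE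
      refine ⟨z * e, ⟨z, (Subalgebra.mem_center_iff (R := k)).mpr fun a => (hz a).symm, rfl⟩, ?_⟩
      change I.cen u (z * e) = w * I.cen u e
      rw [I.cen_mul hu, hz', mul_assoc, ← I.cen_mul hu, he]
    · rintro _ ⟨_, ⟨z, hz, rfl⟩, rfl⟩
      have hz' : ∀ a, z * a = a * z := fun a =>
        ((Subalgebra.mem_center_iff (R := k)).mp hz a).symm
      refine ⟨I.cen u z, (Subalgebra.mem_center_iff (R := k)).mpr fun a => (I.cen_comm hu hz' a).symm, ?_⟩
      change I.cen u z * I.cen u e = I.cen u (z * e)
      rw [I.cen_mul hu]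
  rw [h1]
  exact (LinearEquiv.finrank_eq (Submodule.equivMapOfInjective (I.cenL u) hinj _)).symm

end Mon

namespace Mon

open scoped Classical

variable {R X V G : Type} [CommRing R] [Group X] [Group V] [Group G] [Fintype X] [Fintype V]
  [IsDomain R] (I : Mon R X V G) {u : R} (hu : u * (Fintype.card V : R) = 1)
  {e : MonoidAlgebra R G} (he : IsBlock e)

/-- the inclusion of the block algebra -/
def vl {R G : Type} [CommRing R] [Group G] {e : MonoidAlgebra R G} (he : IsBlock e) :
    BlockAlg he →ₙ+* MonoidAlgebra R G where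
  toFun := Subtype.val
  map_mul' _ _ := rfl
  map_zero' := rfl
  map_add' _ _ := rfl

theorem vl_inj {R G : Type} [CommRing R] [Group G] {e : MonoidAlgebra R G} (he : IsBlock e) :
    Function.Injective (vl he) := Subtype.val_injective

theorem vl_left {R G : Type} [CommRing R] [Group G] {e : MonoidAlgebra R G} (he : IsBlock e)
    (a : BlockAlg he) : e * vl he a = vl he a :=
  ((Subsemigroup.mem_corner_iff (show IsIdempotentElem e from he.idem)).mp a.2).1

theorem vl_right {R G : Type} [CommRing R] [Group G] {e : MonoidAlgebra R G} (he : IsBlock e)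
    (a : BlockAlg he) : vl he a * e = vl he a :=
  ((Subsemigroup.mem_corner_iff (show IsIdempotentElem e from he.idem)).mp a.2).2

theorem exists_vl {R G : Type} [CommRing R] [Group G] {e : MonoidAlgebra R G} (he : IsBlock e)
    {a : MonoidAlgebra R G} (h1 : e * a = a) (h2 : a * e = a) : ∃ b, vl he b = a :=
  ⟨⟨a, (Subsemigroup.mem_corner_iff (show IsIdempotentElem e from he.idem)).mpr ⟨h1, h2⟩⟩, rfl⟩

/-- the underlying matrix over the group algebra -/
def vm (m : Matrix I.Q I.Q (BlockAlg he)) : Matrix I.Q I.Q (MonoidAlgebra R G) :=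
  Matrix.of fun p q => vl he (m p q)

theorem vm_inj {m n : Matrix I.Q I.Q (BlockAlg he)} (h : I.vm he m = I.vm he n) : m = n := by
  ext1 p q
  exact vl_inj he (congrFun (congrFun h p) q)

theorem vm_mul (m n : Matrix I.Q I.Q (BlockAlg he)) :
    I.vm he (m * n) = I.vm he m * I.vm he n := by
  ext1 p q
  change vl he ((m * n) p q) = ∑ r, vl he (m p r) * vl he (n r q)
  rw [Matrix.mul_apply, map_sum]
  exact Finset.sum_congr rfl fun r _ => map_mul _ _ _

theorem vm_add (m n : Matrix I.Q I.Q (BlockAlg he)) :
    I.vm he (m + n) = I.vm he m + I.vm he n := rfl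

theorem vm_left (m : Matrix I.Q I.Q (BlockAlg he)) :
    Matrix.scalar I.Q e * I.vm he m = I.vm he m := by
  ext1 p q
  rw [Matrix.scalar_apply, Matrix.diagonal_mul]
  exact vl_left he _

theorem vm_right (m : Matrix I.Q I.Q (BlockAlg he)) :
    I.vm he m * Matrix.scalar I.Q e = I.vm he m := by
  ext1 p q
  rw [Matrix.scalar_apply, Matrix.mul_diagonal]
  exact vl_right he _

theorem exists_vm {a : Matrix I.Q I.Q (MonoidAlgebra R G)} (h1 : Matrix.scalar I.Q e * a = a)
    (h2 : a * Matrix.scalar I.Q e = a) : ∃ m, I.vm he m = a := by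
  have h : ∀ p q, ∃ b, vl he b = a p q := by
    intro p q
    refine exists_vl he ?_ ?_
    · have := congrFun (congrFun h1 p) q
      rwa [Matrix.scalar_apply, Matrix.diagonal_mul] at this
    · have := congrFun (congrFun h2 p) q
      rwa [Matrix.scalar_apply, Matrix.mul_diagonal] at this
  choose f hf using h
  refine ⟨Matrix.of f, ?_⟩
  ext1 p q
  exact hf p q

include hu in
theorem exists_psi (m : Matrix I.Q I.Q (BlockAlg he)) :
    ∃ b, vl (I.cen_isBlock hu he) b = I.Psi u (I.vm he m) := by
  refine exists_vl _ ?_ ?_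
  · rw [cen, ← I.Psi_mul hu, vm_left]
  · rw [cen, ← I.Psi_mul hu, vm_right]

/-- the isomorphism of the block algebras -/
def blockEquiv : Matrix I.Q I.Q (BlockAlg he) ≃+* BlockAlg (I.cen_isBlock hu he) :=
  RingEquiv.ofBijective
    ({ toFun := fun m => (I.exists_psi hu he m).choose
       map_one' := by
        apply vl_inj
        rw [(I.exists_psi hu he 1).choose_spec]
        change _ = I.cen u e
        rw [cen]
        congr 1
        ext1 p q
        change vl he ((1 : Matrix I.Q I.Q (BlockAlg he)) p q) = _
        rw [Matrix.scalar_apply]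
        by_cases h : p = q
        · subst h
          rw [Matrix.one_apply_eq, Matrix.diagonal_apply_eq]
          rfl
        · rw [Matrix.one_apply_ne h, Matrix.diagonal_apply_ne _ h, map_zero]
       map_mul' := fun m n => by
        apply vl_inj
        rw [(I.exists_psi hu he _).choose_spec, map_mul, (I.exists_psi hu he m).choose_spec,
          (I.exists_psi hu he n).choose_spec, vm_mul, I.Psi_mul hu]
       map_zero' := by
        apply vl_inj
        rw [(I.exists_psi hu he _).choose_spec, map_zero]
        have : I.vm he 0 = 0 := rfl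
        rw [this, map_zero]
       map_add' := fun m n => by
        apply vl_inj
        rw [(I.exists_psi hu he _).choose_spec, map_add, (I.exists_psi hu he m).choose_spec,
          (I.exists_psi hu he n).choose_spec, vm_add, map_add] } :
      Matrix I.Q I.Q (BlockAlg he) →+* BlockAlg (I.cen_isBlock hu he)) (by
    constructor
    · intro m n h
      have h1 := congrArg (vl (I.cen_isBlock hu he)) h
      change vl (I.cen_isBlock hu he) (I.exists_psi hu he m).choose =
        vl (I.cen_isBlock hu he) (I.exists_psi hu he n).choose at h1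
      rw [(I.exists_psi hu he m).choose_spec, (I.exists_psi hu he n).choose_spec] at h1
      exact I.vm_inj he (I.Psi_inj hu h1)
    · intro b
      have h1 := vl_left (I.cen_isBlock hu he) b
      have h2 := vl_right (I.cen_isBlock hu he) b
      obtain ⟨m, hm⟩ := I.exists_vm he (a := I.Pi (vl _ b))
        (by rw [← I.Pi_cen hu, ← map_mul, h1]) (by rw [← I.Pi_cen hu, ← map_mul, h2])
      refine ⟨m, ?_⟩
      apply vl_inj
      change vl (I.cen_isBlock hu he) (I.exists_psi hu he m).choose = _
      rw [(I.exists_psi hu he m).choose_spec, hm, Psi_Pi_left]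
      rw [← h1, ← mul_assoc, I.El_cen hu])

/-- the block algebras are derived equivalent -/
theorem dbEq_block : DbEq (BlockAlg he) (BlockAlg (I.cen_isBlock hu he)) ∧
    DbEq (BlockAlg (I.cen_isBlock hu he)) (BlockAlg he) := by
  haveI : Nonempty I.Q := ⟨QuotientGroup.mk 1⟩
  obtain ⟨h1, h2⟩ := DbEq.matrix (BlockAlg he) I.Q
  obtain ⟨h3, h4⟩ := DbEq.ringEquiv (I.blockEquiv hu he)
  exact ⟨h1.trans h3, h4.trans h2⟩

end Mon

end Pool.Agent.H373.MN
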