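import Pool.Agent.H373.MN.M8

set_option autoImplicit false
set_option linter.unusedSectionVars false
set_option linter.style.haveILetI false

open scoped BigOperators Classical

noncomputable section

namespace Pool.Agent.H373.MN

open Pool.Agent.H373.BU hiding Ind

open MonoidAlgebra hiding coeff_sum

namespace Mon

variable {R S X V G : Type} [CommRing R] [CommRing S] [Group X] [Group V] [Group G]
  (I : Mon R X V G) (r : R →+* S) (h : ∀ v, r (I.lam v : R) = 1 → I.lam v = 1)

/-- change of the ring -/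
def map : Mon S X V G where
  i := I.i
  j := I.j
  act := I.act
  lam := (Units.map (r : R →* S)).comp I.lam
  act_spec := I.act_spec
  inj := I.inj
  lam_act g v := congrArg (Units.map (r : R →* S)) (I.lam_act g v)
  mackey x hx := by
    obtain ⟨v, v', h1, h2⟩ := I.mackey x hx
    refine ⟨v, v', h1, fun h3 => h2 ?_⟩
    have h2 : I.lam (v' * v⁻¹) = 1 := by
      apply h
      have h3 : (Units.map (r : R →* S)) (I.lam (v' * v⁻¹)) = 1 := by
        rw [map_mul, map_mul, map_inv, map_inv]
        change (Units.map (r : R →* S)) (I.lam v') = (Units.map (r : R →* S)) (I.lam v) at h3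
        rw [h3, mul_inv_cancel]
      exact congrArg Units.val h3
    rw [map_mul, map_inv, mul_inv_eq_one] at h2
    exact h2

theorem red_el (x : X) : red r (el R x) = el S x := by
  change MonoidAlgebra.mapRingHom X r (MonoidAlgebra.single x 1) = _
  rw [MonoidAlgebra.mapRingHom_single, map_one]

variable [Fintype X]

theorem red_io (z : MonoidAlgebra R G) : red r (I.io z) = (I.map r h).io (red r z) := by
  induction z using MonoidAlgebra.induction_linear with
  | zero => simp
  | add a b ha hb => rw [map_add, map_add, ha, hb, map_add, map_add]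
  | single g c =>
    rw [io_single, MonoidAlgebra.mapRingHom_single, MonoidAlgebra.mapRingHom_single, io_single]
    rfl

variable [Fintype V] [IsDomain R] [IsDomain S]

theorem red_ep (u : R) : red r (I.ep u) = (I.map r h).ep (r u) := by
  unfold ep
  rw [map_sum]
  refine Finset.sum_congr rfl fun v _ => ?_
  rw [MonoidAlgebra.mapRingHom_single, map_mul]
  rfl

theorem red_cen (u : R) (z : MonoidAlgebra R G) :
    red r (I.cen u z) = (I.map r h).cen (r u) (red r z) := by
  rw [cen_eq, cen_eq, map_sum]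
  refine Finset.sum_congr rfl fun p _ => ?_
  rw [map_mul, map_mul, map_mul, I.red_io r h, I.red_ep r h, red_el, red_el]
  rfl

end Mon

section main

open IsLocalRing

variable {L : Type} [CommRing L] [IsDomain L] [IsDiscreteValuationRing L]
  [IsAdicComplete (maximalIdeal L) L] {p : ℕ} [hp : Fact p.Prime] [CharP (ResidueField L) p]

theorem ind_step {X V G : Type} [Group X] [Group V] [Group G] [Fintype X] [Fintype V]
    [Finite G] (I : Mon L X V G) (hV : ¬ p ∣ Nat.card V) {u : L}
    (hu : u * (Fintype.card V : L) = 1) (e : MonoidAlgebra L G) (he : IsBlock e) (D : Subgroup G)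
    (hD : IsDefect p e D) (c : MonoidAlgebra L (Subgroup.normalizer (D : Set G)))
    (hc : IsBlock c) (hec : IsCorr e D c) :
    ∃ (e' : MonoidAlgebra L X) (he' : IsBlock e') (D' : Subgroup X)
      (c' : MonoidAlgebra L (Subgroup.normalizer (D' : Set X))) (hc' : IsBlock c'),
      IsDefect p e' D' ∧ IsCorr e' D' c' ∧ Nonempty (D' ≃* D) ∧
      (∃ r : ℕ, 0 < r ∧ Nonempty (Matrix (Fin r) (Fin r) (BlockAlg he) ≃+* BlockAlg he')) ∧
      (∃ s : ℕ, 0 < s ∧ Nonempty (Matrix (Fin s) (Fin s) (BlockAlg hc) ≃+* BlockAlg hc')) ∧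
      (DbEq (BlockAlg he') (BlockAlg hc') ↔ DbEq (BlockAlg he) (BlockAlg hc)) := by
  have hlam : ∀ v, rs L (I.lam v : L) = 1 → I.lam v = 1 := by
    intro v hv
    apply Units.ext
    refine root_one (p := p) (q := Nat.card V) hV ?_ hv
    rw [← Units.val_pow_eq_pow_val, ← map_pow, pow_card_eq_one', map_one, Units.val_one]
  let I0 := I.nor D hD.1 hV
  have hlam0 : ∀ v, rs L (I0.lam v : L) = 1 → I0.lam v = 1 := fun v hv => hlam v.1 hv
  have hu1 : rs L u * (Fintype.card V : ResidueField L) = 1 := by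
    rw [← map_natCast (rs L), ← map_mul, hu, map_one]
  have hVL : ∀ m : ℕ, ¬ p ∣ m → IsUnit ((m : ℕ) : L) := by
    intro m hm
    rw [← IsLocalRing.notMem_maximalIdeal, ← IsLocalRing.residue_eq_zero_iff, map_natCast,
      CharP.cast_eq_zero_iff (ResidueField L) p]
    exact hm
  have hV0 : ¬ p ∣ Nat.card (I.V0 D) := fun h => hV (h.trans (Subgroup.card_subgroup_dvd_card _))
  obtain ⟨u0, hu0⟩ := (isUnit_iff_exists_inv'.mp (hVL _ hV0))
  have hu0' : u0 * (Fintype.card (I.V0 D) : L) = 1 := by
    rw [← Nat.card_eq_fintype_card, hu0]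
  have hru : rs L u0 = rs L u := by
    have h1 : (Fintype.card V : ResidueField L) = (Nat.card (I.V0 D) : ResidueField L) :=
      (I.map (rs L) hlam).card_V0 D hD.1 hV
    have h2 : rs L u0 * (Nat.card (I.V0 D) : ResidueField L) = 1 := by
      rw [← map_natCast (rs L), ← map_mul, hu0, map_one]
    have h3 : (Nat.card (I.V0 D) : ResidueField L) ≠ 0 := by
      intro h
      rw [h, mul_zero] at h2
      exact zero_ne_one h2
    apply mul_right_cancel₀ h3
    rw [h2, ← h1, hu1]
  have hred := red_isBlock he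
  have hredc := red_isBlock hc
  refine ⟨I.cen u e, I.cen_isBlock hu he, D.map I.j, I0.cen u0 c, I0.cen_isBlock hu0' hc,
    ⟨hD.1.map I.j, ?_⟩, ?_, ⟨(D.equivMapOfInjective I.j I.j_inj).symm⟩, ?_, ?_, ?_⟩
  · rw [I.red_cen (rs L) hlam]
    exact (I.map (rs L) hlam).cen_isMinTr hu1 hred hD.2
  · unfold IsCorr
    rw [I.red_cen (rs L) hlam, I0.red_cen (rs L) hlam0, hru]
    exact (I.map (rs L) hlam).cen_isBr D hD.1 hV hu1 hred.central hD.2.1 hredc.central hec
  · haveI : Nonempty I.Q := ⟨QuotientGroup.mk 1⟩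
    refine ⟨Fintype.card I.Q, Fintype.card_pos, ⟨?_⟩⟩
    exact ((Matrix.reindexAlgEquiv ℤ (BlockAlg he) (Fintype.equivFin I.Q).symm).toRingEquiv).trans
      (I.blockEquiv hu he)
  · haveI : Nonempty I0.Q := ⟨QuotientGroup.mk 1⟩
    refine ⟨Fintype.card I0.Q, Fintype.card_pos, ⟨?_⟩⟩
    exact ((Matrix.reindexAlgEquiv ℤ (BlockAlg hc)
      (Fintype.equivFin I0.Q).symm).toRingEquiv).trans (I0.blockEquiv hu0' hc)
  · obtain ⟨h1, h2⟩ := I.dbEq_block hu he
    obtain ⟨h3, h4⟩ := I0.dbEq_block hu0' hc
    exact ⟨fun h => (h1.trans h).trans h4, fun h => (h2.trans h).trans h3⟩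

end main

end Pool.Agent.H373.MN
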