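import Pool.Agent.H373.MN.M9

/-!
# Permutational wreath products
-/

set_option autoImplicit false
set_option linter.unusedSectionVars false
set_option linter.style.haveILetI false

open scoped BigOperators Classical

noncomputable section

namespace Pool.Agent.H373.MN

open Pool.Agent.H373.BU hiding Ind

/-- The action of the group `H` on the direct power `T ^ Ω` by permutations of the coordinates. -/
def pact (T Ω H : Type) [Group T] [Group H] [MulAction H Ω] : H →* MulAut (Ω → T) where
  toFun h :=
    { toFun := fun f ω => f (h⁻¹ • ω)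
      invFun := fun f ω => f (h • ω)
      left_inv := fun f => by
        funext ω
        change f (h⁻¹ • h • ω) = f ω
        rw [inv_smul_smul]
      right_inv := fun f => by
        funext ω
        change f (h • h⁻¹ • ω) = f ω
        rw [smul_inv_smul]
      map_mul' := fun _ _ => rfl }
  map_one' := by
    ext f ω
    change f ((1 : H)⁻¹ • ω) = f ω
    rw [inv_one, one_smul]
  map_mul' a b := by
    ext f ω
    change f ((a * b)⁻¹ • ω) = f (b⁻¹ • a⁻¹ • ω)
    rw [mul_inv_rev, mul_smul]

theorem pact_apply {T Ω H : Type} [Group T] [Group H] [MulAction H Ω] (h : H) (f : Ω → T) (ω : Ω) :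
    pact T Ω H h f ω = f (h⁻¹ • ω) := rfl

/-- The permutational wreath product `T ^ Ω ⋊ H`. -/
abbrev Wr (T Ω H : Type) [Group T] [Group H] [MulAction H Ω] : Type := (Ω → T) ⋊[pact T Ω H] H

/-- conjugation in the wreath product -/
theorem conj_inl {T Ω H : Type} [Group T] [Group H] [MulAction H Ω] (x : Wr T Ω H) (f : Ω → T) :
    x * SemidirectProduct.inl f * x⁻¹ =
      SemidirectProduct.inl (fun ω => x.left ω * f (x.right⁻¹ • ω) * (x.left ω)⁻¹) := by
  have h1 : x = SemidirectProduct.inl x.left * SemidirectProduct.inr x.right :=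
    (SemidirectProduct.inl_left_mul_inr_right x).symm
  conv_lhs => rw [h1]
  rw [mul_inv_rev, mul_assoc, mul_assoc, ← mul_assoc (SemidirectProduct.inl f),
    ← mul_assoc (SemidirectProduct.inr x.right), ← mul_assoc (SemidirectProduct.inr x.right),
    ← map_inv SemidirectProduct.inr, ← SemidirectProduct.inl_aut, ← map_inv, ← map_mul,
    ← map_mul]
  congr 1
  funext ω
  change x.left ω * (pact T Ω H x.right f ω * (x.left ω)⁻¹) = _
  rw [pact_apply, mul_assoc]

/-- Two linear characters `L c` of subgroups `B c` of `T` which satisfy Mackey's condition (so the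
induced representations are irreducible and inequivalent). -/
structure Col (R T : Type) [CommRing R] [Group T] where
  B : Bool → Subgroup T
  L : Bool → T → Rˣ
  mul : ∀ c a b, a ∈ B c → b ∈ B c → L c (a * b) = L c a * L c b
  mackey : ∀ c c' t, (c = c' → t ∉ B c) → ∃ b ∈ B c, t * b * t⁻¹ ∈ B c' ∧ L c' (t * b * t⁻¹) ≠ L c b

namespace Col

variable {R T : Type} [CommRing R] [Group T] (C : Col R T)

theorem one (c : Bool) : C.L c 1 = 1 := by
  have h := C.mul c 1 1 (C.B c).one_mem (C.B c).one_mem
  rw [mul_one] at h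
  exact (mul_eq_left.mp h.symm)

variable {Ω H G : Type} [Group H] [MulAction H Ω] [Group G] (κ : Ω → Bool)

/-- the product of the subgroups -/
def W : Subgroup (Ω → T) where
  carrier := {f | ∀ ω, f ω ∈ C.B (κ ω)}
  one_mem' := fun ω => (C.B (κ ω)).one_mem
  mul_mem' := fun ha hb ω => (C.B (κ ω)).mul_mem (ha ω) (hb ω)
  inv_mem' := fun ha ω => (C.B (κ ω)).inv_mem (ha ω)

theorem mem_W {f : Ω → T} : f ∈ C.W κ ↔ ∀ ω, f ω ∈ C.B (κ ω) := Iff.rfl

variable [Fintype Ω]

/-- the product of the linear characters -/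
def lamW : C.W κ →* Rˣ where
  toFun f := ∏ ω, C.L (κ ω) ((f : Ω → T) ω)
  map_one' := by
    refine Finset.prod_eq_one fun ω _ => ?_
    exact C.one _
  map_mul' f g := by
    rw [← Finset.prod_mul_distrib]
    refine Finset.prod_congr rfl fun ω _ => ?_
    exact C.mul _ _ _ (f.2 ω) (g.2 ω)

theorem lamW_single (ω : Ω) (t : T) (h : Pi.mulSingle ω t ∈ C.W κ) :
    C.lamW κ ⟨Pi.mulSingle ω t, h⟩ = C.L (κ ω) t := by
  change ∏ ω', C.L (κ ω') ((Pi.mulSingle ω t : Ω → T) ω') = _
  rw [Finset.prod_eq_single ω]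
  · rw [Pi.mulSingle_eq_same]
  · intro ω' _ hne
    rw [Pi.mulSingle_eq_of_ne hne, C.one]
  · intro h
    exact absurd (Finset.mem_univ _) h

theorem single_mem {ω : Ω} {t : T} (h : t ∈ C.B (κ ω)) : Pi.mulSingle ω t ∈ C.W κ := by
  intro ω'
  by_cases h1 : ω' = ω
  · subst h1
    rwa [Pi.mulSingle_eq_same]
  · rw [Pi.mulSingle_eq_of_ne h1]
    exact (C.B _).one_mem

variable (ι : G →* H)

/-- the action of `G` on the product of the subgroups -/
def actW (hκ : ∀ g ω, κ (ι g • ω) = κ ω) : G →* MulAut (C.W κ) where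
  toFun g :=
    { toFun := fun f => ⟨pact T Ω H (ι g) f, fun ω => by
        rw [pact_apply, ← map_inv]
        have := f.2 (ι g⁻¹ • ω)
        rwa [hκ] at this⟩
      invFun := fun f => ⟨pact T Ω H (ι g⁻¹) f, fun ω => by
        rw [pact_apply, ← map_inv, inv_inv]
        have := f.2 (ι g • ω)
        rwa [hκ] at this⟩
      left_inv := fun f => by
        apply Subtype.ext
        change pact T Ω H (ι g⁻¹) (pact T Ω H (ι g) f) = f
        rw [← MulAut.mul_apply, ← map_mul, ← map_mul, inv_mul_cancel, map_one, map_one]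
        rfl
      right_inv := fun f => by
        apply Subtype.ext
        change pact T Ω H (ι g) (pact T Ω H (ι g⁻¹) f) = f
        rw [← MulAut.mul_apply, ← map_mul, ← map_mul, mul_inv_cancel, map_one, map_one]
        rfl
      map_mul' := fun f f' => Subtype.ext (map_mul (pact T Ω H (ι g)) _ _) }
  map_one' := by
    ext f
    change pact T Ω H (ι 1) (f : Ω → T) _ = _
    rw [map_one, map_one]
    rfl
  map_mul' a b := by
    ext f
    change pact T Ω H (ι (a * b)) (f : Ω → T) _ = pact T Ω H (ι a) (pact T Ω H (ι b) f) _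
    rw [map_mul, map_mul]
    rfl

/-- The data for the wreath product: `κ` is a colouring of `Ω`, the stabiliser of which in `H` is the
image of `G`. -/
def mon [IsDomain R] (hι : Function.Injective ι)
    (hκ : ∀ h : H, (∀ ω, κ (h • ω) = κ ω) ↔ ∃ g, ι g = h) :
    Mon R (Wr T Ω H) (C.W κ) G where
  i := SemidirectProduct.inl.comp (C.W κ).subtype
  j := SemidirectProduct.inr.comp ι
  act := C.actW κ ι fun g => (hκ (ι g)).mpr ⟨g, rfl⟩
  lam := C.lamW κ
  act_spec g v := by
    change SemidirectProduct.inl (pact T Ω H (ι g) v) =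
      SemidirectProduct.inr (ι g) * SemidirectProduct.inl (v : Ω → T) *
        (SemidirectProduct.inr (ι g))⁻¹
    rw [SemidirectProduct.inl_aut, map_inv]
  lam_act g v := by
    change ∏ ω, C.L (κ ω) (pact T Ω H (ι g) (v : Ω → T) ω) = ∏ ω, C.L (κ ω) ((v : Ω → T) ω)
    refine Fintype.prod_equiv (MulAction.toPerm (ι g)⁻¹) _ _ fun ω => ?_
    rw [pact_apply, MulAction.toPerm_apply]
    congr 1
    have := (hκ (ι g⁻¹)).mpr ⟨g⁻¹, rfl⟩ ω
    rw [map_inv] at this
    exact this.symm
  inj v g h := by
    have h1 := congrArg SemidirectProduct.left h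
    have h2 := congrArg SemidirectProduct.right h
    simp only [MonoidHom.comp_apply, SemidirectProduct.mul_left, SemidirectProduct.left_inl,
      SemidirectProduct.right_inl, SemidirectProduct.left_inr, map_one, mul_one,
      SemidirectProduct.one_left] at h1
    simp only [MonoidHom.comp_apply, SemidirectProduct.mul_right, SemidirectProduct.right_inl,
      SemidirectProduct.right_inr, one_mul, SemidirectProduct.one_right] at h2
    refine ⟨Subtype.ext h1, hι ?_⟩
    rw [map_one]
    exact h2
  mackey x hx := by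
    by_cases h : ∀ ω, κ (x.right⁻¹ • ω) = κ ω ∧ x.left ω ∈ C.B (κ ω)
    · exfalso
      apply hx
      have h1 : ∀ ω, κ (x.right • ω) = κ ω := by
        intro ω
        have := (h (x.right • ω)).1
        rw [inv_smul_smul] at this
        exact this.symm
      obtain ⟨g, hg⟩ := (hκ x.right).mp h1
      refine ⟨⟨x.left, fun ω => (h ω).2⟩, g, ?_⟩
      change SemidirectProduct.inl x.left * SemidirectProduct.inr (ι g) = x
      rw [hg]
      exact SemidirectProduct.inl_left_mul_inr_right x
    · push Not at h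
      obtain ⟨ω, h⟩ := h
      obtain ⟨b, h1, h2, h3⟩ := C.mackey (κ (x.right⁻¹ • ω)) (κ ω) (x.left ω) (by
        intro h4 h5
        rw [h4] at h5
        exact h h4 h5)
      refine ⟨⟨Pi.mulSingle (x.right⁻¹ • ω) b, C.single_mem κ h1⟩,
        ⟨Pi.mulSingle ω (x.left ω * b * (x.left ω)⁻¹), C.single_mem κ h2⟩, ?_, ?_⟩
      · change SemidirectProduct.inl (Pi.mulSingle ω (x.left ω * b * (x.left ω)⁻¹)) =
          x * SemidirectProduct.inl (Pi.mulSingle (x.right⁻¹ • ω) b) * x⁻¹
        rw [conj_inl]
        congr 1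
        funext ω'
        by_cases h4 : ω' = ω
        · subst h4
          rw [Pi.mulSingle_eq_same, Pi.mulSingle_eq_same]
        · rw [Pi.mulSingle_eq_of_ne h4, Pi.mulSingle_eq_of_ne (fun h5 => h4 (smul_left_cancel _ h5)),
            mul_one, mul_inv_cancel]
      · rw [lamW_single, lamW_single]
        exact h3

theorem card_W {p : ℕ} [hp : Fact p.Prime] (hB : ∀ c, ¬ p ∣ Nat.card (C.B c)) :
    ¬ p ∣ Nat.card (C.W κ) := by
  have h1 : Nat.card (C.W κ) = ∏ ω, Nat.card (C.B (κ ω)) := by
    rw [← Nat.card_pi]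
    exact Nat.card_congr
      { toFun := fun f ω => ⟨(f : Ω → T) ω, f.2 ω⟩
        invFun := fun f => ⟨fun ω => f ω, fun ω => (f ω).2⟩
        left_inv := fun _ => rfl
        right_inv := fun _ => rfl }
  rw [h1, hp.out.prime.dvd_finsetProd_iff]
  rintro ⟨ω, -, h⟩
  exact hB _ h

end Col

instance finite_Wr (T Ω H : Type) [Group T] [Group H] [MulAction H Ω] [Finite T] [Finite Ω]
    [Finite H] : Finite (Wr T Ω H) :=
  Finite.of_equiv _ SemidirectProduct.equivProd.symm

end Pool.Agent.H373.MN
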