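import Pool.Agent.H373.MN.W1

/-!
# Two inequivalent Mackey pairs for the groups `PSL(2, F)`
-/

set_option autoImplicit false
set_option linter.unusedSectionVars false
set_option linter.style.haveILetI false

open scoped BigOperators Classical MatrixGroups

noncomputable section

namespace Pool.Agent.H373.MN

open Pool.Agent.H373.BU hiding Ind

section psl

variable {F : Type} [Field F]

/-- the projection -/
def pr : SL(2, F) →* PSL(2, F) := QuotientGroup.mk' _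

theorem pr_surj : Function.Surjective (pr (F := F)) := QuotientGroup.mk'_surjective _

theorem pr_eq {A B : SL(2, F)} (h : pr A = pr B) :
    ∃ r : F, r ^ 2 = 1 ∧ ∀ i j, (B : Matrix (Fin 2) (Fin 2) F) i j =
      r * (A : Matrix (Fin 2) (Fin 2) F) i j := by
  have h1 : A⁻¹ * B ∈ Subgroup.center (SL(2, F)) := QuotientGroup.eq.mp h
  obtain ⟨r, hr, hr'⟩ := Matrix.SpecialLinearGroup.mem_center_iff.mp h1
  rw [Fintype.card_fin] at hr
  refine ⟨r, hr, fun i j => ?_⟩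
  have h2 : B = A * (A⁻¹ * B) := by group
  have h3 : (B : Matrix (Fin 2) (Fin 2) F) =
      (A : Matrix (Fin 2) (Fin 2) F) * Matrix.scalar (Fin 2) r := by
    rw [hr']
    conv_lhs => rw [h2]
    rfl
  rw [h3, Matrix.scalar_apply, Matrix.mul_diagonal, mul_comm]

/-- upper triangular matrices -/
def up (F : Type) [Field F] : Subgroup SL(2, F) where
  carrier := {A | (A : Matrix (Fin 2) (Fin 2) F) 1 0 = 0}
  one_mem' := by simp
  mul_mem' := by
    intro A B hA hB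
    change (A : Matrix (Fin 2) (Fin 2) F) 1 0 = 0 at hA
    change (B : Matrix (Fin 2) (Fin 2) F) 1 0 = 0 at hB
    change ((A : Matrix (Fin 2) (Fin 2) F) * (B : Matrix (Fin 2) (Fin 2) F)) 1 0 = 0
    rw [Matrix.mul_apply, Fin.sum_univ_two, hA, hB]
    ring
  inv_mem' := by
    intro A hA
    change (A : Matrix (Fin 2) (Fin 2) F) 1 0 = 0 at hA
    change ((A⁻¹ : SL(2, F)) : Matrix (Fin 2) (Fin 2) F) 1 0 = 0
    rw [Matrix.SpecialLinearGroup.SL2_inv_expl]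
    change - (A : Matrix (Fin 2) (Fin 2) F) 1 0 = 0
    rw [hA, neg_zero]

theorem mem_up {A : SL(2, F)} : A ∈ up F ↔ (A : Matrix (Fin 2) (Fin 2) F) 1 0 = 0 := Iff.rfl

theorem det_up {A : SL(2, F)} (h : A ∈ up F) :
    (A : Matrix (Fin 2) (Fin 2) F) 0 0 * (A : Matrix (Fin 2) (Fin 2) F) 1 1 = 1 := by
  have h1 := A.2
  rw [Matrix.det_fin_two] at h1
  have h2 : (A : Matrix (Fin 2) (Fin 2) F) 1 0 = 0 := h
  rw [h2, mul_zero, sub_zero] at h1
  exact h1

theorem exists_unit {A : SL(2, F)} (h : A ∈ up F) :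
    ∃ a : Fˣ, (A : Matrix (Fin 2) (Fin 2) F) 0 0 = a :=
  ⟨Units.mkOfMulEqOne _ _ (det_up h), rfl⟩

/-- the upper left entry, up to the sign -/
def ul (t : PSL(2, F)) : Fˣ :=
  if h : ∃ (a : Fˣ) (A : SL(2, F)), A ∈ up F ∧ (A : Matrix (Fin 2) (Fin 2) F) 0 0 = a ∧ pr A = t then
    h.choose else 1

theorem ul_spec {A : SL(2, F)} (h : A ∈ up F) {a : Fˣ}
    (ha : (A : Matrix (Fin 2) (Fin 2) F) 0 0 = a) : ul (pr A) = a ∨ ul (pr A) = -a := by
  have h1 : ∃ (a : Fˣ) (B : SL(2, F)), B ∈ up F ∧ (B : Matrix (Fin 2) (Fin 2) F) 0 0 = a ∧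
      pr B = pr A := ⟨a, A, h, ha, rfl⟩
  unfold ul
  rw [dif_pos h1]
  obtain ⟨B, -, h2, h3⟩ := h1.choose_spec
  obtain ⟨r, hr, hr'⟩ := pr_eq h3.symm
  rw [hr', ha] at h2
  rcases sq_eq_one_iff_of_side_ne' hr with h4 | h4
  · left
    apply Units.ext
    rw [← h2, h4, one_mul]
  · right
    apply Units.ext
    rw [← h2, h4, Units.val_neg, neg_one_mul]
where
  sq_eq_one_iff_of_side_ne' {r : F} (h : r ^ 2 = 1) : r = 1 ∨ r = -1 := sq_eq_one_iff_of_ne' h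
  sq_eq_one_iff_of_ne' {r : F} (h : r ^ 2 = 1) : r = 1 ∨ r = -1 := by
    have : (r - 1) * (r + 1) = 0 := by
      linear_combination h
    rcases mul_eq_zero.mp this with h | h
    · exact Or.inl (sub_eq_zero.mp h)
    · exact Or.inr (eq_neg_of_add_eq_zero_left h)

variable {R : Type} [CommRing R] (θ : Fˣ →* Rˣ) (hθ : θ (-1) = 1)

include hθ in
theorem th_ul {A : SL(2, F)} (h : A ∈ up F) {a : Fˣ}
    (ha : (A : Matrix (Fin 2) (Fin 2) F) 0 0 = a) : θ (ul (pr A)) = θ a := by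
  rcases ul_spec h ha with h1 | h1
  · rw [h1]
  · rw [h1, ← neg_one_mul a, map_mul, hθ, one_mul]

/-- the matrix -/
def mk4 (a b c d : F) (h : a * d - b * c = 1) : SL(2, F) :=
  ⟨!![a, b; c, d], by rw [Matrix.det_fin_two_of, h]⟩

theorem exists_mk4 (A : SL(2, F)) : ∃ (a b c d : F) (h : a * d - b * c = 1), A = mk4 a b c d h := by
  refine ⟨(A : Matrix (Fin 2) (Fin 2) F) 0 0, (A : Matrix (Fin 2) (Fin 2) F) 0 1,
    (A : Matrix (Fin 2) (Fin 2) F) 1 0, (A : Matrix (Fin 2) (Fin 2) F) 1 1, ?_, ?_⟩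
  · have h1 := A.2
    rwa [Matrix.det_fin_two] at h1
  · apply Subtype.ext
    exact Matrix.eta_fin_two _

/-- the key computation -/
theorem conj_mk4 (g : SL(2, F)) (hg : g ∉ up F) (a : Fˣ) :
    ∃ b : SL(2, F), b ∈ up F ∧ (b : Matrix (Fin 2) (Fin 2) F) 0 0 = a ∧ g * b * g⁻¹ ∈ up F ∧
      ((g * b * g⁻¹ : SL(2, F)) : Matrix (Fin 2) (Fin 2) F) 0 0 = (a⁻¹ : Fˣ) := by
  obtain ⟨α, β, γ, δ, h, rfl⟩ := exists_mk4 g
  have hγ : γ ≠ 0 := fun h1 => hg h1
  have ha : (a : F) * ((a⁻¹ : Fˣ) : F) = 1 := a.mul_inv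
  set c : F := ((a⁻¹ : Fˣ) : F) with hc
  have h1 : (mk4 α β γ δ h)⁻¹ = mk4 δ (-β) (-γ) α (by linear_combination h) := by
    rw [inv_eq_iff_mul_eq_one]
    apply Subtype.ext
    change !![α, β; γ, δ] * !![δ, -β; -γ, α] = 1
    rw [Matrix.mul_fin_two, Matrix.one_fin_two]
    congr 1
    ext i j
    fin_cases i <;> fin_cases j <;> simp <;> first | linear_combination h | ring
  refine ⟨mk4 a (-δ / γ * (c - a)) 0 c (by rw [mul_zero, sub_zero, ha]), rfl, rfl, ?_, ?_⟩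
  · rw [h1]
    change (!![α, β; γ, δ] * !![(a : F), -δ / γ * (c - a); 0, c] * !![δ, -β; -γ, α]) 1 0 = 0
    rw [Matrix.mul_fin_two, Matrix.mul_fin_two]
    simp
    field_simp
    ring
  · rw [h1]
    change (!![α, β; γ, δ] * !![(a : F), -δ / γ * (c - a); 0, c] * !![δ, -β; -γ, α]) 0 0 = c
    rw [Matrix.mul_fin_two, Matrix.mul_fin_two]
    simp
    field_simp
    linear_combination c * h

theorem conj_up (g : SL(2, F)) (hg : g ∈ up F) (a : Fˣ) :
    ∃ b : SL(2, F), b ∈ up F ∧ (b : Matrix (Fin 2) (Fin 2) F) 0 0 = a ∧ g * b * g⁻¹ ∈ up F ∧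
      ((g * b * g⁻¹ : SL(2, F)) : Matrix (Fin 2) (Fin 2) F) 0 0 = a := by
  obtain ⟨α, β, γ, δ, h, rfl⟩ := exists_mk4 g
  have hγ : γ = 0 := hg
  subst hγ
  have ha : (a : F) * ((a⁻¹ : Fˣ) : F) = 1 := a.mul_inv
  set c : F := ((a⁻¹ : Fˣ) : F) with hc
  have h1 : (mk4 α β 0 δ h)⁻¹ = mk4 δ (-β) (-0) α (by linear_combination h) := by
    rw [inv_eq_iff_mul_eq_one]
    apply Subtype.ext
    change !![α, β; 0, δ] * !![δ, -β; -0, α] = 1
    rw [Matrix.mul_fin_two, Matrix.one_fin_two]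
    congr 1
    ext i j
    fin_cases i <;> fin_cases j <;> simp <;> first | linear_combination h | ring
  refine ⟨mk4 a 0 0 c (by rw [mul_zero, sub_zero, ha]), rfl, rfl, ?_, ?_⟩
  · rw [h1]
    change (!![α, β; 0, δ] * !![(a : F), 0; 0, c] * !![δ, -β; -0, α]) 1 0 = 0
    rw [Matrix.mul_fin_two, Matrix.mul_fin_two]
    simp
  · rw [h1]
    change (!![α, β; 0, δ] * !![(a : F), 0; 0, c] * !![δ, -β; -0, α]) 0 0 = a
    rw [Matrix.mul_fin_two, Matrix.mul_fin_two]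
    simp
    linear_combination a * h

theorem mul_up {A B : SL(2, F)} (_hA : A ∈ up F) {a b : Fˣ}
    (ha : (A : Matrix (Fin 2) (Fin 2) F) 0 0 = a) (hB : B ∈ up F)
    (hb : (B : Matrix (Fin 2) (Fin 2) F) 0 0 = b) :
    ((A * B : SL(2, F)) : Matrix (Fin 2) (Fin 2) F) 0 0 = (a * b : Fˣ) := by
  have hB' : (B : Matrix (Fin 2) (Fin 2) F) 1 0 = 0 := hB
  change ((A : Matrix (Fin 2) (Fin 2) F) * (B : Matrix (Fin 2) (Fin 2) F)) 0 0 = _
  rw [Matrix.mul_apply, Fin.sum_univ_two, ha, hb, hB', mul_zero, add_zero]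
  rfl

theorem mem_of_pr {g : SL(2, F)} (h : pr g ∈ (up F).map pr) : g ∈ up F := by
  obtain ⟨A, hA, h1⟩ := h
  obtain ⟨r, -, hr⟩ := pr_eq h1
  change (g : Matrix (Fin 2) (Fin 2) F) 1 0 = 0
  have hA' : (A : Matrix (Fin 2) (Fin 2) F) 1 0 = 0 := hA
  rw [hr, hA', mul_zero]

/-- The two Mackey pairs: the powers of the linear character of the stabiliser of a point with the
exponents one and two. -/
def col (h1 : ∃ a : Fˣ, ∀ n : ℕ, n ∈ ({1, 2, 3, 4} : Finset ℕ) → θ a ^ n ≠ 1) : Col R PSL(2, F) where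
  B _ := (up F).map pr
  L c t := θ (ul t) ^ (bif c then 2 else 1)
  mul c x y hx hy := by
    obtain ⟨A, hA, rfl⟩ := hx
    obtain ⟨B, hB, rfl⟩ := hy
    obtain ⟨a, ha⟩ := exists_unit hA
    obtain ⟨b, hb⟩ := exists_unit hB
    rw [← map_mul, th_ul θ hθ hA ha, th_ul θ hθ hB hb,
      th_ul θ hθ ((up F).mul_mem hA hB) (mul_up hA ha hB hb), map_mul, mul_pow]
  mackey c c' t h := by
    obtain ⟨a, ha⟩ := h1
    obtain ⟨g, rfl⟩ := pr_surj t
    by_cases hg : g ∈ up F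
    · have hcc : c ≠ c' := fun h2 => h h2 ⟨g, hg, rfl⟩
      obtain ⟨b, h2, h3, h4, h5⟩ := conj_up g hg a
      refine ⟨pr b, ⟨b, h2, rfl⟩, ⟨_, h4, by rw [map_mul, map_mul, map_inv]⟩, ?_⟩
      rw [← map_inv, ← map_mul, ← map_mul, th_ul θ hθ h4 h5, th_ul θ hθ h2 h3]
      have h6 : θ a ≠ 1 := by
        have := ha 1 (by decide)
        rwa [pow_one] at this
      intro h7
      cases c <;> cases c' <;> simp at hcc h7
      · rw [pow_two, mul_eq_left] at h7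
        exact h6 h7
      · rw [pow_two, left_eq_mul] at h7
        exact h6 h7
    · obtain ⟨b, h2, h3, h4, h5⟩ := conj_mk4 g hg a
      refine ⟨pr b, ⟨b, h2, rfl⟩, ⟨_, h4, by rw [map_mul, map_mul, map_inv]⟩, ?_⟩
      rw [← map_inv, ← map_mul, ← map_mul, th_ul θ hθ h4 h5, th_ul θ hθ h2 h3]
      intro h7
      rw [map_inv, inv_pow, inv_eq_iff_mul_eq_one, ← pow_add] at h7
      refine ha _ ?_ h7
      cases c <;> cases c' <;> decide

end psl

end Pool.Agent.H373.MN
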