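import Pool.Agent.H373.MN.W2

/-!
# The stabiliser of a point in `PSL(2, F)` and its linear characters
-/

set_option autoImplicit false
set_option linter.unusedSectionVars false
set_option linter.style.haveILetI false

open scoped BigOperators Classical MatrixGroups

noncomputable section

namespace Pool.Agent.H373.MN

open Pool.Agent.H373.BU hiding Ind

section card

variable {F : Type} [Field F]

theorem pow_diag {A : SL(2, F)} (h : A ∈ up F) {a : Fˣ}
    (ha : (A : Matrix (Fin 2) (Fin 2) F) 0 0 = a) (n : ℕ) : A ^ n ∈ up F ∧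
      ((A ^ n : SL(2, F)) : Matrix (Fin 2) (Fin 2) F) 0 0 = (a ^ n : Fˣ) := by
  induction n with
  | zero => exact ⟨(up F).one_mem, by simp⟩
  | succ n ih =>
    refine ⟨(up F).pow_mem h _, ?_⟩
    rw [pow_succ, pow_succ, mul_up ih.1 ih.2 h ha]

theorem pow_unip (x : F) (n : ℕ) : (mk4 1 x 0 1 (by ring) : SL(2, F)) ^ n =
    mk4 1 (n * x) 0 1 (by ring) := by
  induction n with
  | zero =>
    apply Subtype.ext
    change (1 : Matrix (Fin 2) (Fin 2) F) = !![1, ((0 : ℕ) : F) * x; 0, 1]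
    rw [Matrix.one_fin_two, Nat.cast_zero, zero_mul]
  | succ n ih =>
    rw [pow_succ, ih]
    apply Subtype.ext
    change !![(1 : F), n * x; 0, 1] * !![(1 : F), x; 0, 1] = !![1, ((n + 1 : ℕ) : F) * x; 0, 1]
    rw [Matrix.mul_fin_two, Nat.cast_succ]
    congr 1
    ext i j
    fin_cases i <;> fin_cases j <;> simp
    ring

theorem pr_one {A : SL(2, F)} (h : pr A = 1) : ∃ r : F, r ^ 2 = 1 ∧
    ∀ i j, (A : Matrix (Fin 2) (Fin 2) F) i j = r * (1 : Matrix (Fin 2) (Fin 2) F) i j := by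
  rw [← map_one pr] at h
  exact pr_eq h.symm

theorem pr_eq_one {A : SL(2, F)} {r : F} (h : (A : Matrix (Fin 2) (Fin 2) F) =
    Matrix.scalar (Fin 2) r) (hr : r ^ 2 = 1) : pr A = 1 := by
  change QuotientGroup.mk' _ A = 1
  rw [QuotientGroup.mk'_apply, QuotientGroup.eq_one_iff,
    Matrix.SpecialLinearGroup.mem_center_iff]
  exact ⟨r, by rw [Fintype.card_fin, hr], h.symm⟩

variable [Finite F]

theorem card_up {p : ℕ} [hp : Fact p.Prime] (h2 : (2 : F) ≠ 0) (hpF : (p : F) ≠ 0)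
    (hg : Nat.gcd (2 * p) (Nat.card Fˣ) ∣ 2) : ¬ p ∣ Nat.card ((up F).map pr) := by
  intro h
  haveI := Fintype.ofFinite ((up F).map pr)
  obtain ⟨⟨_, A, hA, rfl⟩, ht⟩ := exists_prime_orderOf_dvd_card' p h
  have h1 : pr (A ^ p) = 1 := by
    have := pow_orderOf_eq_one (⟨pr A, ⟨A, hA, rfl⟩⟩ : (up F).map pr)
    rw [ht] at this
    rw [map_pow]
    exact congrArg Subtype.val this
  obtain ⟨a, ha⟩ := exists_unit hA
  obtain ⟨r, hr, hr'⟩ := pr_one h1
  have h3 := (pow_diag hA ha p).2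
  rw [hr', Matrix.one_apply_eq, mul_one] at h3
  have h4 : a ^ (2 * p) = 1 := by
    apply Units.ext
    rw [mul_comm, pow_mul, Units.val_pow_eq_pow_val, ← h3, hr, Units.val_one]
  have h5 : a ^ 2 = 1 := by
    have h6 : orderOf a ∣ Nat.gcd (2 * p) (Nat.card Fˣ) :=
      Nat.dvd_gcd (orderOf_dvd_of_pow_eq_one h4) (orderOf_dvd_natCard a)
    exact orderOf_dvd_iff_pow_eq_one.mp (h6.trans hg)
  -- the square
  have h6 : (a : F) * a = 1 := by
    rw [← pow_two, ← Units.val_pow_eq_pow_val, h5, Units.val_one]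
  obtain ⟨α, β, γ, δ, hd, rfl⟩ := exists_mk4 A
  have hα : α = a := ha
  have hγ : γ = 0 := hA
  subst hα hγ
  have hδ : δ = a := by
    have : (a : F) * δ = a * a := by
      rw [h6]
      linear_combination hd
    exact mul_left_cancel₀ a.ne_zero this
  subst hδ
  have h7 : (mk4 (a : F) β 0 a hd) ^ 2 = mk4 1 (2 * a * β) 0 1 (by ring) := by
    rw [pow_two]
    apply Subtype.ext
    change !![(a : F), β; 0, a] * !![(a : F), β; 0, a] = !![1, 2 * a * β; 0, 1]
    rw [Matrix.mul_fin_two]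
    congr 1
    ext i j
    fin_cases i <;> fin_cases j <;> simp <;> first | linear_combination h6 | ring
  have h8 : (mk4 (a : F) β 0 a hd) ^ (2 * p) = mk4 1 ((p : F) * (2 * (a : F) * β)) 0 1 (by ring) := by
    rw [pow_mul, h7, pow_unip]
  have h9 : (p : F) * (2 * (a : F) * β) = 0 := by
    have h10 : ((mk4 (a : F) β 0 a hd ^ (2 * p) : SL(2, F)) : Matrix (Fin 2) (Fin 2) F) 0 1 =
        0 := by
      rw [mul_comm, pow_mul, pow_two]
      change (((mk4 (a : F) β 0 a hd ^ p : SL(2, F)) : Matrix (Fin 2) (Fin 2) F) *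
        ((mk4 (a : F) β 0 a hd ^ p : SL(2, F)) : Matrix (Fin 2) (Fin 2) F)) 0 1 = 0
      rw [Matrix.mul_apply, Fin.sum_univ_two, hr', hr', hr']
      simp
    rw [h8] at h10
    exact h10
  have h10 : β = 0 := by
    rcases mul_eq_zero.mp h9 with h | h
    · exact absurd h hpF
    · rcases mul_eq_zero.mp h with h | h
      · rcases mul_eq_zero.mp h with h | h
        · exact absurd h h2
        · exact absurd h a.ne_zero
      · exact h
  subst h10
  have h11 : pr (mk4 (a : F) 0 0 a hd) = 1 := by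
    refine pr_eq_one (r := a) ?_ (by rw [pow_two, h6])
    change !![(a : F), 0; 0, a] = _
    ext i j
    fin_cases i <;> fin_cases j <;> simp
  have h12 : (⟨pr (mk4 (a : F) 0 0 a hd), ⟨_, hA, rfl⟩⟩ : (up F).map pr) = 1 := Subtype.ext h11
  have h13 : orderOf (⟨pr (mk4 (a : F) 0 0 a hd), ⟨_, hA, rfl⟩⟩ : (up F).map pr) = 1 := by
    rw [h12, orderOf_one]
  have h14 : orderOf (⟨pr (mk4 (a : F) 0 0 a hd), ⟨_, hA, rfl⟩⟩ : (up F).map pr) = p := ht
  rw [h13] at h14
  exact hp.out.one_lt.ne h14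

theorem card_proj : Nat.card F + 1 ∣ Nat.card PSL(2, F) := by
  have h1 : Nat.card (Projectivization F (Fin 2 → F)) = Nat.card F + 1 :=
    Projectivization.card_of_finrank_two F (Fin 2 → F) (by simp)
  let x : Projectivization F (Fin 2 → F) :=
    Projectivization.mk F (Pi.single 0 1) (Pi.single_ne_zero_iff.2 one_ne_zero)
  have h2 := MulAction.index_stabilizer_of_transitive PSL(2, F) x
  rw [h1] at h2
  rw [← h2]
  exact Subgroup.index_dvd_card _

end card

section theta

variable {F R : Type} [Field F] [Finite F] [CommRing R]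

theorem exists_theta {m : ℕ} (hm : Nat.card Fˣ = 2 * m) {ζ : Rˣ} (hζ : IsPrimitiveRoot ζ m)
    (hm5 : 5 ≤ m) : ∃ θ : Fˣ →* Rˣ, θ (-1) = 1 ∧
      ∃ a : Fˣ, ∀ n : ℕ, n ∈ ({1, 2, 3, 4} : Finset ℕ) → θ a ^ n ≠ 1 := by
  have hζ2 : ζ ^ Nat.card Fˣ = 1 := by
    rw [hm, mul_comm, pow_mul, hζ.pow_eq_one, one_pow]
  let e : Multiplicative (ZMod (Nat.card Fˣ)) ≃* Fˣ := zmodCyclicMulEquiv inferInstance
  let θ : Fˣ →* Rˣ := (zp ζ hζ2).comp e.symm.toMonoidHom
  let g : Fˣ := e (Multiplicative.ofAdd 1)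
  have hg : θ g = ζ := by
    change zp ζ hζ2 (e.symm (e (Multiplicative.ofAdd 1))) = ζ
    rw [e.symm_apply_apply]
    have h2 : (Multiplicative.ofAdd 1 : Multiplicative (ZMod (Nat.card Fˣ))) =
        Multiplicative.ofAdd ((1 : ℤ) : ZMod (Nat.card Fˣ)) := by simp
    rw [h2]
    change (ZMod.lift (Nat.card Fˣ) _ ((1 : ℤ) : ZMod (Nat.card Fˣ)) : Additive Rˣ).toMul = ζ
    rw [ZMod.lift_coe]
    change ζ ^ (1 : ℤ) = ζ
    rw [zpow_one]
  have hgo : ∀ n : ℕ, g ^ n = 1 → Nat.card Fˣ ∣ n := by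
    intro n hn
    have h1 : (Multiplicative.ofAdd (1 : ZMod (Nat.card Fˣ))) ^ n = 1 := by
      apply e.injective
      exact (map_pow e _ _).trans (hn.trans (map_one e).symm)
    have h2 : ((n : ℕ) : ZMod (Nat.card Fˣ)) = 0 := by
      have h3 := congrArg Multiplicative.toAdd h1
      rw [toAdd_pow, toAdd_ofAdd, nsmul_eq_mul, mul_one] at h3
      exact h3
    exact (ZMod.natCast_eq_zero_iff _ _).mp h2
  refine ⟨θ, ?_, g, ?_⟩
  · have h1 : g ^ m = -1 := by
      have h2 : (g ^ m) ^ 2 = 1 := by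
        rw [← pow_mul, mul_comm, ← hm]
        haveI := Fintype.ofFinite Fˣ
        exact pow_card_eq_one'
      have h3 : g ^ m ≠ 1 := by
        intro h
        have := Nat.le_of_dvd (by omega) (hgo m h)
        omega
      have h4 : ((g ^ m : Fˣ) : F) ^ 2 = 1 := by
        rw [← Units.val_pow_eq_pow_val, h2, Units.val_one]
      rcases sq_eq_one_iff_of_side' h4 with h5 | h5
      · exact absurd (Units.ext h5) h3
      · exact Units.ext h5
    rw [← h1, map_pow, hg, hζ.pow_eq_one]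
  · intro n hn h
    rw [hg] at h
    have h1 := hζ.dvd_of_pow_eq_one n h
    have h2 : 0 < n ∧ n ≤ 4 := by
      simp only [Finset.mem_insert, Finset.mem_singleton] at hn
      omega
    have := Nat.le_of_dvd h2.1 h1
    omega
where
  sq_eq_one_iff_of_side' {r : F} (h : r ^ 2 = 1) : r = 1 ∨ r = -1 := by
    have : (r - 1) * (r + 1) = 0 := by
      linear_combination h
    rcases mul_eq_zero.mp this with h | h
    · exact Or.inl (sub_eq_zero.mp h)
    · exact Or.inr (eq_neg_of_add_eq_zero_left h)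

end theta

end Pool.Agent.H373.MN
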