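import Pool.Agent.H373.MN.W3

/-!
# Normal subgroups of permutational wreath products of simple groups
-/

set_option autoImplicit false
set_option linter.unusedSectionVars false
set_option linter.style.haveILetI false

open scoped BigOperators Classical MatrixGroups

noncomputable section

namespace Pool.Agent.H373.MN

open Pool.Agent.H373.BU hiding Ind

section wr

variable {T Ω H : Type} [Group T] [Group H] [MulAction H Ω]

theorem conj_single (ω : Ω) (s : T) (f : Ω → T) :
    (SemidirectProduct.inl (Pi.mulSingle ω s) * SemidirectProduct.inl f *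
      (SemidirectProduct.inl (Pi.mulSingle ω s))⁻¹ * (SemidirectProduct.inl f)⁻¹ : Wr T Ω H) =
      SemidirectProduct.inl (Pi.mulSingle ω (s * f ω * s⁻¹ * (f ω)⁻¹)) := by
  rw [← map_inv, ← map_inv, ← map_mul, ← map_mul, ← map_mul]
  congr 1
  funext ω'
  by_cases h : ω' = ω
  · subst h
    simp
  · simp [Pi.mulSingle_eq_of_ne h]

/-- the base group has trivial centraliser -/
theorem centralizer_base [FaithfulSMul H Ω] (hT : Subgroup.center T = ⊥) [Nontrivial T] :
    Subgroup.centralizer ((SemidirectProduct.inl : (Ω → T) →* Wr T Ω H).range : Set (Wr T Ω H)) =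
      ⊥ := by
  rw [eq_bot_iff]
  intro x hx
  rw [Subgroup.mem_centralizer_iff] at hx
  have h1 : ∀ (g : Ω → T) (ω : Ω), x.left ω * g (x.right⁻¹ • ω) * (x.left ω)⁻¹ = g ω := by
    intro g ω
    have h2 := hx (SemidirectProduct.inl g) ⟨g, rfl⟩
    have h3 : x * SemidirectProduct.inl g * x⁻¹ = SemidirectProduct.inl g := by
      rw [← h2, mul_inv_cancel_right]
    rw [conj_inl] at h3
    exact congrFun (SemidirectProduct.inl_injective h3) ω
  have h2 : x.right = 1 := by
    have h3 : ∀ ω : Ω, x.right⁻¹ • ω = ω := by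
      intro ω
      by_contra h
      obtain ⟨t, ht⟩ := exists_ne (1 : T)
      have h4 := h1 (Pi.mulSingle ω t) ω
      rw [Pi.mulSingle_eq_same, Pi.mulSingle_eq_of_ne h, mul_one, mul_inv_cancel] at h4
      exact ht h4.symm
    have h4 : x.right⁻¹ = 1 := by
      apply FaithfulSMul.eq_of_smul_eq_smul (α := Ω)
      intro ω
      rw [h3, one_smul]
    exact inv_eq_one.mp h4
  have h3 : x.left = 1 := by
    funext ω
    have h4 : x.left ω ∈ Subgroup.center T := by
      rw [Subgroup.mem_center_iff]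
      intro t
      have h5 := h1 (Pi.mulSingle ω t) ω
      rw [h2, inv_one, one_smul, Pi.mulSingle_eq_same] at h5
      rw [mul_inv_eq_iff_eq_mul] at h5
      exact h5.symm
    rw [hT] at h4
    exact h4
  rw [Subgroup.mem_bot]
  exact SemidirectProduct.ext h3 h2

/-- A nontrivial normal subgroup contains a factor of the base group. -/
theorem exists_factor [FaithfulSMul H Ω] [IsSimpleGroup T] (hT : Subgroup.center T = ⊥)
    (N : Subgroup (Wr T Ω H)) (hN : N.Normal) (h : N ≠ ⊥) :
    ∃ ω : Ω, ∀ t : T, (SemidirectProduct.inl (Pi.mulSingle ω t) : Wr T Ω H) ∈ N := by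
  -- an element of the base group
  obtain ⟨f, hf1, hf⟩ : ∃ f : Ω → T, f ≠ 1 ∧ (SemidirectProduct.inl f : Wr T Ω H) ∈ N := by
    obtain ⟨⟨x, hx⟩, hx1⟩ := Subgroup.ne_bot_iff_exists_ne_one.mp h
    have hx1' : x ≠ 1 := fun h => hx1 (Subtype.ext h)
    have h2 : x ∉ Subgroup.centralizer ((SemidirectProduct.inl :
        (Ω → T) →* Wr T Ω H).range : Set (Wr T Ω H)) := by
      rw [centralizer_base hT]
      exact fun h3 => hx1' (Subgroup.mem_bot.mp h3)
    rw [Subgroup.mem_centralizer_iff] at h2
    push Not at h2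
    obtain ⟨_, ⟨g, rfl⟩, h3⟩ := h2
    have h4 := conj_inl x g
    refine ⟨(fun ω => x.left ω * g (x.right⁻¹ • ω) * (x.left ω)⁻¹) * g⁻¹, ?_, ?_⟩
    · intro h5
      apply h3
      have h6 : x * SemidirectProduct.inl g * x⁻¹ * (SemidirectProduct.inl g)⁻¹ = 1 := by
        rw [h4, ← map_inv, ← map_mul, h5, map_one]
      rw [mul_inv_eq_one, mul_inv_eq_iff_eq_mul] at h6
      exact h6.symm
    · rw [map_mul, ← h4, map_inv, mul_assoc, mul_assoc, ← mul_assoc (SemidirectProduct.inl g)]
      exact N.mul_mem hx (hN.conj_mem _ (N.inv_mem hx) _)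
  obtain ⟨ω, hω⟩ : ∃ ω, f ω ≠ 1 := by
    by_contra h1
    push Not at h1
    exact hf1 (funext h1)
  refine ⟨ω, ?_⟩
  let S : Subgroup T := N.comap ((SemidirectProduct.inl : (Ω → T) →* Wr T Ω H).comp
    (MonoidHom.mulSingle (fun _ : Ω => T) ω))
  have hS : ∀ t, t ∈ S ↔ (SemidirectProduct.inl (Pi.mulSingle ω t) : Wr T Ω H) ∈ N :=
    fun t => Iff.rfl
  haveI : S.Normal := inferInstance
  have h1 : S ≠ ⊥ := by
    intro h2
    have h3 : f ω ∉ Subgroup.center T := by
      rw [hT]
      exact fun h => hω (Subgroup.mem_bot.mp h)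
    rw [Subgroup.mem_center_iff] at h3
    push Not at h3
    obtain ⟨s, hs⟩ := h3
    have h4 : s * f ω * s⁻¹ * (f ω)⁻¹ ∈ S := by
      rw [hS, ← conj_single]
      exact N.mul_mem (hN.conj_mem _ hf _) (N.inv_mem hf)
    rw [h2, Subgroup.mem_bot, mul_inv_eq_one, mul_inv_eq_iff_eq_mul] at h4
    exact hs h4
  have h2 : S = ⊤ := (Subgroup.Normal.eq_bot_or_eq_top inferInstance).resolve_left h1
  intro t
  rw [← hS, h2]
  exact Subgroup.mem_top _

theorem center_simple [IsSimpleGroup T] (h : ¬ Group.IsSolvable T) : Subgroup.center T = ⊥ := by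
  rcases Subgroup.Normal.eq_bot_or_eq_top (inferInstance : (Subgroup.center T).Normal) with h1 | h1
  · exact h1
  · exfalso
    apply h
    exact Group.isSolvable_of_comm fun a b => by
      have : b ∈ Subgroup.center T := by
        rw [h1]
        exact Subgroup.mem_top _
      exact (Subgroup.mem_center_iff.mp this a)

theorem normal_wr [FaithfulSMul H Ω] [IsSimpleGroup T] (hT : ¬ Group.IsSolvable T) {p : ℕ}
    (hp : p ∣ Nat.card T) (N : Subgroup (Wr T Ω H)) (hN : N.Normal) (h : N ≠ ⊥) :
    p ∣ Nat.card N ∧ ¬ Group.IsSolvable N := by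
  obtain ⟨ω, hω⟩ := exists_factor (center_simple hT) N hN h
  let φ : T →* N :=
    { toFun := fun t => ⟨SemidirectProduct.inl (Pi.mulSingle ω t), hω t⟩
      map_one' := Subtype.ext (by
        change (SemidirectProduct.inl (Pi.mulSingle ω 1) : Wr T Ω H) = 1
        rw [Pi.mulSingle_one, map_one])
      map_mul' := fun a b => Subtype.ext (by
        change (SemidirectProduct.inl (Pi.mulSingle ω (a * b)) : Wr T Ω H) = _
        rw [Pi.mulSingle_mul, map_mul]
        rfl) }
  have hφ : Function.Injective φ := by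
    intro a b hab
    have h1 := congrArg Subtype.val hab
    exact Pi.mulSingle_injective ω (SemidirectProduct.inl_injective h1)
  exact ⟨hp.trans (Subgroup.card_dvd_of_injective φ hφ),
    fun h1 => hT (Group.isSolvable_of_isSolvable_injective hφ)⟩

theorem factor_move (h : H) (ω : Ω) (t : T) :
    (SemidirectProduct.inr h * SemidirectProduct.inl (Pi.mulSingle ω t) *
      (SemidirectProduct.inr h)⁻¹ : Wr T Ω H) = SemidirectProduct.inl (Pi.mulSingle (h • ω) t) := by
  rw [conj_inl]
  congr 1
  funext ω'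
  change 1 * (Pi.mulSingle ω t : Ω → T) (h⁻¹ • ω') * 1⁻¹ = _
  rw [one_mul, inv_one, mul_one]
  by_cases h1 : ω' = h • ω
  · rw [h1, inv_smul_smul, Pi.mulSingle_eq_same, Pi.mulSingle_eq_same]
  · rw [Pi.mulSingle_eq_of_ne h1, Pi.mulSingle_eq_of_ne]
    intro h2
    apply h1
    rw [← h2, smul_inv_smul]

/-- the base group is contained in all nontrivial normal subgroups -/
theorem base_le [FaithfulSMul H Ω] [MulAction.IsPretransitive H Ω] [IsSimpleGroup T]
    [Finite Ω] (hT : Subgroup.center T = ⊥) (N : Subgroup (Wr T Ω H)) (hN : N.Normal)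
    (h : N ≠ ⊥) : (SemidirectProduct.inl : (Ω → T) →* Wr T Ω H).range ≤ N := by
  obtain ⟨ω, hω⟩ := exists_factor hT N hN h
  rintro _ ⟨f, rfl⟩
  let K : Subgroup (Ω → T) := N.comap SemidirectProduct.inl
  have h2 : f ∈ K := by
    refine Submonoid.pi_mem_of_mulSingle_mem f fun ω' => ?_
    obtain ⟨a, ha⟩ := MulAction.exists_smul_eq H ω ω'
    change (SemidirectProduct.inl (Pi.mulSingle ω' (f ω')) : Wr T Ω H) ∈ N
    rw [← ha, ← factor_move]
    exact hN.conj_mem _ (hω _) _
  exact h2

/-- the normal subgroups -/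
theorem normal_subgroups [FaithfulSMul H Ω] [MulAction.IsPretransitive H Ω] [IsSimpleGroup T]
    [Finite Ω] [IsSimpleGroup H] (hT : Subgroup.center T = ⊥) (N : Subgroup (Wr T Ω H))
    (hN : N.Normal) :
    N = ⊥ ∨ N = (SemidirectProduct.inl : (Ω → T) →* Wr T Ω H).range ∨ N = ⊤ := by
  by_cases h : N = ⊥
  · exact Or.inl h
  right
  have h1 := base_le hT N hN h
  have h2 := SemidirectProduct.range_inl_eq_ker_rightHom (N := Ω → T) (G := H) (φ := pact T Ω H)
  have h3 : (N.map (SemidirectProduct.rightHom : Wr T Ω H →* H)).Normal :=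
    hN.map _ SemidirectProduct.rightHom_surjective
  have h4 : (N.map (SemidirectProduct.rightHom : Wr T Ω H →* H)).comap
      SemidirectProduct.rightHom = N := by
    rw [Subgroup.comap_map_eq, ← h2, sup_eq_left]
    exact h1
  rcases h3.eq_bot_or_eq_top with h5 | h5
  · left
    rw [← h4, h5, MonoidHom.comap_bot, h2]
  · right
    rw [← h4, h5, Subgroup.comap_top]

end wr

/-- `X` is isomorphic to a primitive permutation group: it has a maximal subgroup with trivial
core. -/
def IsPrimitiveGroup (X : Type) [Group X] : Prop :=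
  ∃ K : Subgroup X, IsCoatom K ∧ K.normalCore = ⊥

/-- `X` has exactly three normal subgroups `1 < M < X`, where `M` is a direct power of a simple group
`PSL(2, q)` of order divisible by `p` and has trivial centraliser, and `X / M` is the alternating
group of degree `n`. -/
def ThreeNormal (p q n : ℕ) (X : Type) [Group X] : Prop :=
  Nat.card {N : Subgroup X // N.Normal} = 3 ∧ p ∣ Nat.card PSL(2, ZMod q) ∧
    ∃ (M : Subgroup X) (_ : M.Normal), M ≠ ⊥ ∧ M ≠ ⊤ ∧ Subgroup.centralizer (M : Set X) = ⊥ ∧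
      Nonempty (M ≃* (Fin (n * (n - 1)) → PSL(2, ZMod q))) ∧
      Nonempty (X ⧸ M ≃* alternatingGroup (Fin n))

theorem isPrimitiveGroup_of {X : Type} [Group X] [Finite X] (M : Subgroup X)
    (hM : ∀ N : Subgroup X, N.Normal → N ≠ ⊥ → M ≤ N) (hM' : ¬ Group.IsSolvable M) :
    IsPrimitiveGroup X := by
  have h1 : ¬ M ≤ frattini X := by
    intro h
    haveI := frattini_nilpotent (G := X)
    exact hM' (Group.isSolvable_of_isSolvable_injective (Subgroup.inclusion_injective h))
  have h2 : ∃ K : Subgroup X, IsCoatom K ∧ ¬ M ≤ K := by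
    by_contra h3
    push Not at h3
    exact h1 (le_iInf₂ fun K hK => h3 K hK)
  obtain ⟨K, hK, hK'⟩ := h2
  refine ⟨K, hK, ?_⟩
  by_contra h4
  exact hK' ((hM _ inferInstance h4).trans K.normalCore_le)

section psl

variable {q : ℕ} [hq : Fact q.Prime]

instance finite_psl : Finite PSL(2, ZMod q) := inferInstance

theorem simple_psl (h : 7 < q) : IsSimpleGroup PSL(2, ZMod q) :=
  Matrix.ProjectiveSpecialLinearGroup.rank_two_simple (by rw [Nat.card_zmod]; omega)

theorem perfect_psl (h : 7 < q) : commutator PSL(2, ZMod q) = ⊤ := by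
  refine SL2Simple.PSL_commutator_eq_top ⟨2, ?_, ?_⟩
  · intro h1
    have h2 : ((2 : ℕ) : ZMod q) = 0 := by exact_mod_cast h1
    rw [ZMod.natCast_eq_zero_iff] at h2
    have := Nat.le_of_dvd (by norm_num) h2
    omega
  · intro h1
    have h2 : ((3 : ℕ) : ZMod q) = 0 := by
      have : (3 : ZMod q) = 2 ^ 2 - 1 := by norm_num
      push_cast
      rw [this, h1, sub_self]
    rw [ZMod.natCast_eq_zero_iff] at h2
    have := Nat.le_of_dvd (by norm_num) h2
    omega

theorem not_solvable_psl (h : 7 < q) : ¬ Group.IsSolvable PSL(2, ZMod q) := by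
  haveI := simple_psl h
  intro h1
  have h2 : commutator PSL(2, ZMod q) < ⊤ := Group.IsSolvable.commutator_lt_top_of_nontrivial _
  rw [perfect_psl h] at h2
  exact lt_irrefl _ h2

theorem dvd_psl {p : ℕ} (hp : p ∣ q + 1) : p ∣ Nat.card PSL(2, ZMod q) := by
  have h1 := card_proj (F := ZMod q)
  rw [Nat.card_zmod] at h1
  exact hp.trans h1

theorem threeNormal_wr {p n : ℕ} (hp : p ∣ q + 1) (h : 7 < q) (hn : 5 ≤ n) {Ω : Type}
    [Fintype Ω] [Nonempty Ω] [MulAction (alternatingGroup (Fin n)) Ω]
    [FaithfulSMul (alternatingGroup (Fin n)) Ω]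
    [MulAction.IsPretransitive (alternatingGroup (Fin n)) Ω]
    (hc : Fintype.card Ω = n * (n - 1)) :
    ThreeNormal p q n (Wr PSL(2, ZMod q) Ω (alternatingGroup (Fin n))) := by
  haveI := simple_psl h
  haveI : IsSimpleGroup (alternatingGroup (Fin n)) :=
    alternatingGroup.isSimpleGroup (by rwa [Nat.card_eq_fintype_card, Fintype.card_fin])
  have hZ := center_simple (not_solvable_psl h)
  haveI hN : ((SemidirectProduct.inl : (Ω → PSL(2, ZMod q)) →*
      Wr PSL(2, ZMod q) Ω (alternatingGroup (Fin n))).range).Normal := by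
    rw [SemidirectProduct.range_inl_eq_ker_rightHom]
    infer_instance
  have h1 : ((SemidirectProduct.inl : (Ω → PSL(2, ZMod q)) →*
      Wr PSL(2, ZMod q) Ω (alternatingGroup (Fin n))).range) ≠ ⊥ := by
    intro h1
    obtain ⟨t, ht⟩ := exists_ne (1 : PSL(2, ZMod q))
    have h2 : (SemidirectProduct.inl (fun _ => t) : Wr PSL(2, ZMod q) Ω
        (alternatingGroup (Fin n))) = 1 := by
      rw [← Subgroup.mem_bot, ← h1]
      exact ⟨_, rfl⟩
    have h3 := SemidirectProduct.inl_injective (h2.trans (map_one SemidirectProduct.inl).symm)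
    exact ht (congrFun h3 (Classical.arbitrary Ω))
  have h2 : ((SemidirectProduct.inl : (Ω → PSL(2, ZMod q)) →*
      Wr PSL(2, ZMod q) Ω (alternatingGroup (Fin n))).range) ≠ ⊤ := by
    intro h2
    obtain ⟨a, ha⟩ := exists_ne (1 : alternatingGroup (Fin n))
    have h3 : (SemidirectProduct.inr a : Wr PSL(2, ZMod q) Ω
        (alternatingGroup (Fin n))) ∈ (SemidirectProduct.inl : (Ω → PSL(2, ZMod q)) →*
      Wr PSL(2, ZMod q) Ω (alternatingGroup (Fin n))).range := by
      rw [h2]
      exact Subgroup.mem_top _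
    obtain ⟨f, hf⟩ := h3
    exact ha (congrArg SemidirectProduct.right hf).symm
  refine ⟨?_, dvd_psl hp, _, hN, h1, h2, centralizer_base hZ, ?_, ?_⟩
  · have h3 : {N : Subgroup (Wr PSL(2, ZMod q) Ω (alternatingGroup (Fin n))) |
        N.Normal} = {⊥, (SemidirectProduct.inl : (Ω → PSL(2, ZMod q)) →*
      Wr PSL(2, ZMod q) Ω (alternatingGroup (Fin n))).range, ⊤} := by
      ext N
      constructor
      · exact fun hN => normal_subgroups hZ N hN
      · rintro (rfl | rfl | rfl)
        · exact (inferInstance : (⊥ : Subgroup (Wr PSL(2, ZMod q) Ω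
            (alternatingGroup (Fin n)))).Normal)
        · exact hN
        · exact (inferInstance : (⊤ : Subgroup (Wr PSL(2, ZMod q) Ω
            (alternatingGroup (Fin n)))).Normal)
    have h4 : Set.ncard {N : Subgroup (Wr PSL(2, ZMod q) Ω
        (alternatingGroup (Fin n))) | N.Normal} = 3 := by
      rw [h3]
      refine Set.ncard_eq_three.mpr ⟨_, _, _, h1.symm, ?_, h2, rfl⟩
      intro h5
      exact h1 (le_antisymm (by rw [h5]; exact le_top) bot_le)
    exact h4
  · have e : (SemidirectProduct.inl : (Ω → PSL(2, ZMod q)) →*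
      Wr PSL(2, ZMod q) Ω (alternatingGroup (Fin n))).range ≃* (Ω → PSL(2, ZMod q)) :=
      (MonoidHom.ofInjective SemidirectProduct.inl_injective).symm
    refine ⟨e.trans ?_⟩
    exact
      { toEquiv := Equiv.arrowCongr (Fintype.equivFinOfCardEq hc) (Equiv.refl _)
        map_mul' := fun _ _ => rfl }
  · exact ⟨(QuotientGroup.quotientMulEquivOfEq
      SemidirectProduct.range_inl_eq_ker_rightHom).trans
        (QuotientGroup.quotientKerEquivOfSurjective _ SemidirectProduct.rightHom_surjective)⟩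

theorem primitive_wr {n : ℕ} (h : 7 < q) {Ω : Type}
    [Fintype Ω] [Nonempty Ω] [MulAction (alternatingGroup (Fin n)) Ω]
    [FaithfulSMul (alternatingGroup (Fin n)) Ω]
    [MulAction.IsPretransitive (alternatingGroup (Fin n)) Ω] :
    IsPrimitiveGroup (Wr PSL(2, ZMod q) Ω (alternatingGroup (Fin n))) := by
  haveI := simple_psl h
  refine isPrimitiveGroup_of _ (base_le (center_simple (not_solvable_psl h))) ?_
  intro h1
  apply not_solvable_psl h
  let ω : Ω := Classical.arbitrary Ω
  let φ : PSL(2, ZMod q) →* (SemidirectProduct.inl : (Ω → PSL(2, ZMod q)) →*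
      Wr PSL(2, ZMod q) Ω (alternatingGroup (Fin n))).range :=
    (MonoidHom.rangeRestrict _).comp (MonoidHom.mulSingle (fun _ : Ω => PSL(2, ZMod q)) ω)
  have hφ : Function.Injective φ := by
    intro a b hab
    have h1 := congrArg Subtype.val hab
    exact Pi.mulSingle_injective ω (SemidirectProduct.inl_injective h1)
  exact Group.isSolvable_of_isSolvable_injective hφ

end psl

end Pool.Agent.H373.MN
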